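import Pool.Agent.Helper30.WC.Defs

/-!
# Block WC-ANA: analysis of the typed colourings (MP_722e70_co)

The labels are `Λ = V ⊕ U`.  `red` = the typed graph with inner edges `σ ≤ Inn G a b H`, matrix `mat`, marks `μ, ν` and the edge `w_i w_j`;
`blue` = the typed graph with inner edges `Inn \ σ`, matrix `¬ mat`, marks `Mk ∧ ¬ μ`, `Mk ∧ ¬ ν`, without `w_i w_j`.  `mat x y` is the colour of the edge from `(q, m, x)` to
`(q', m', y)` for `q < q'` adjacent in `Q`.  `cl : V → Fin (k + 1)` is a proper colouring of `G` with classes `V_0, ..., V_k`, `X = G` without `V_0`, and every colouring of `H` with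
`2 ^ (k + 1)` colours has a monochromatic copy of `X`.  `e` is an ordered copy of `G` in `Q`, `kq` a `K_{t-1}` in `Q`.

PROOF.  Suppose that there is no copy of `G` in `red` and no `K_t` in `blue`.
(1) There are no labels `x_0, ..., x_k` (`x : Fin (k + 1) → Λ`) with `mat (x i) (x j)` for all `i < j`: otherwise `v ↦ inr (e v, 0, x (cl v))` is a copy of `G` in `red` (`0 : Fin s`; `s > 0`): if
`v ~ v'` then `cl v ≠ cl v'`, say `cl v < cl v'`, so `e v < e v'` and `Q.Adj (e v) (e v')`.
(1') There is no label `x` with `mat x x`: `v ↦ inr (e v, 0, x)` would be a copy (if `v ~ v'` then `e v ≠ e v'`).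
(2) `μ x` for every label with `Mk U G a b a x`: otherwise `inl false` and `inr (kq l, 0, x)`, `l : Fin (t - 1)`, form a `K_t` in `blue` (by (1')).  The same for `ν`.
(3) If `x y` is an edge of `Inn` not in `σ` then for every label `z`: `mat x z` or `mat y z`.  Otherwise let `kq 0 < kq 1 < ...` be the levels: `inr (kq 0, 0, x)`, `inr (kq 0, 0, y)`,
`inr (kq l, 0, z)` for `l = 1, ..., t - 2` form a `K_t` in `blue` (`kq` is strictly monotone; (1') for `z`).
(4) Every edge `x y` of `Inn` with `x, y` in `V` (i.e. `inl`) is in `σ`.  Suppose not.  For a subset `S` of `U` and `j : ℕ` say that `S` is `j`-rich if for every colouring of `U` with `2 ^ j` colours (`U → Fin (2 ^ j)`)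
there is a copy of `X` in `H` with values in `S` on which the colouring is constant.  `univ` is `(k + 1)`-rich.  If `S` is `(j + 1)`-rich and `S ⊆ S1 ∪ S2` then `S ∩ S1` or `S ∩ S2` is `j`-rich
(combine two bad colourings `c1`, `c2` and the characteristic function of `S1` to a colouring with `2 * 2 ^ j` colours).  A `j`-rich set contains a copy of `X` (constant colouring).
 Claim: for `j ≤ k` there are labels `x_0, ..., x_j` with `mat (x i) (x i')` for `i < i'` and a `(k - j)`-rich `S ⊆ U` with `mat (x i) (inr u)` for all `i ≤ j`, `u ∈ S`.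
 `j = 0`: (3) for the edge `x y` gives `univ ⊆ {u | mat x (inr u)} ∪ {u | mat y (inr u)}`.
 `j → j + 1 ≤ k`: if all the edges of `H` with both ends in `S` are in `σ` (as edges `inr u - inr u'`): `S` contains a copy `f` of `X`, and `v ↦ inr (q1, 0, inr (f v))` for `v ∉ V_0`,
 `v ↦ inr (q0, m_v, x_0)` for `v ∈ V_0` with different `m_v : Fin s` (`s ≥ |V|`), `q0 < q1` two adjacent levels (`kq 0`, `kq 1`), is a copy of `G` in `red`, a contradiction.  Otherwise there is an edge
 `u u'` of `H` in `S` which is not in `σ`; by (3) `S ⊆ {z | mat (inr u) (inr z)} ∪ {z | mat (inr u') (inr z)}`, and `x_{j+1} = inr u` or `inr u'`; `mat (x i) (x_{j+1})` as `u, u' ∈ S`.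
 For `j = k` the labels `x_0, ..., x_k` contradict (1).
(5) `a ↦ inl false`, `b ↦ inl true`, `v ↦ inr (kq 0, 0, inl v)` for `v ≠ a, b` is a copy of `G` in `red` (by (2), (4) and the edge `w_i w_j`): contradiction.
-/

set_option autoImplicit false

namespace WC

open SimpleGraph

private theorem cont93 {V W : Type} {G : SimpleGraph V} {K : SimpleGraph W} (f : V → W) (hf : Function.Injective f)
    (h : ∀ v w, G.Adj v w → K.Adj (f v) (f w)) : G ⊑ K :=
  ⟨⟨⟨f, fun {a b} hab => h a b hab⟩, hf⟩⟩

private theorem one93 {V Λ : Type} (G : SimpleGraph V) {k M s : ℕ} (hs : 0 < s) (cl : V → Fin (k + 1))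
    (hcl : ∀ v w, G.Adj v w → cl v ≠ cl w) (Q : SimpleGraph (Fin M)) (e : V → Fin M) (he : Function.Injective e)
    (heQ : ∀ v w, G.Adj v w → Q.Adj (e v) (e w)) (hecl : ∀ v w, cl v < cl w → e v < e w) (σ : SimpleGraph Λ)
    (mat : Λ → Λ → Prop) (μ ν : Λ → Prop) (hG : ¬ G ⊑ Typ s Q σ mat μ ν True) (x : Fin (k + 1) → Λ)
    (hx : ∀ i j, i < j → mat (x i) (x j)) : False := by
  apply hG
  refine cont93 (fun v => Sum.inr (e v, ⟨0, hs⟩, x (cl v))) ?_ ?_
  · intro v w h
    have h1 := Sum.inr_injective h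
    exact he (Prod.ext_iff.mp h1).1
  · intro v w h
    refine Or.inr ⟨heQ v w h, ?_⟩
    rcases lt_or_gt_of_ne (hcl v w h) with h1 | h1
    · exact Or.inl ⟨hecl v w h1, hx _ _ h1⟩
    · exact Or.inr ⟨hecl w v h1, hx _ _ h1⟩

private theorem one93' {V Λ : Type} (G : SimpleGraph V) {M s : ℕ} (hs : 0 < s) (Q : SimpleGraph (Fin M)) (e : V → Fin M)
    (he : Function.Injective e) (heQ : ∀ v w, G.Adj v w → Q.Adj (e v) (e w)) (σ : SimpleGraph Λ)
    (mat : Λ → Λ → Prop) (μ ν : Λ → Prop) (hG : ¬ G ⊑ Typ s Q σ mat μ ν True) (x : Λ) : ¬ mat x x := by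
  intro hx
  apply hG
  refine cont93 (fun v => Sum.inr (e v, ⟨0, hs⟩, x)) ?_ ?_
  · intro v w h
    have h1 := Sum.inr_injective h
    exact he (Prod.ext_iff.mp h1).1
  · intro v w h
    refine Or.inr ⟨heQ v w h, ?_⟩
    rcases lt_or_gt_of_ne (heQ v w h).ne with h1 | h1
    · exact Or.inl ⟨h1, hx⟩
    · exact Or.inr ⟨h1, hx⟩

/-- A `K_t` from a vertex of index 0 and `t - 1` other vertices. -/
private theorem top93 {W : Type} {K : SimpleGraph W} {t : ℕ} (ht : 1 ≤ t) (p : W) (f : Fin (t - 1) → W)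
    (h0 : ∀ i, K.Adj p (f i)) (h : ∀ i j, i ≠ j → K.Adj (f i) (f j)) : (⊤ : SimpleGraph (Fin t)) ⊑ K := by
  obtain ⟨r, rfl⟩ : ∃ r, t = r + 1 := ⟨t - 1, by omega⟩
  have h2 : ∀ v w : Fin (r + 1), v ≠ w →
      K.Adj (Fin.cases (motive := fun _ => W) p f v) (Fin.cases (motive := fun _ => W) p f w) := by
    intro v w hvw
    induction v using Fin.cases with
    | zero =>
      induction w using Fin.cases with
      | zero => exact absurd rfl hvw
      | succ j => exact h0 j
    | succ i =>
      induction w using Fin.cases with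
      | zero => exact (h0 i).symm
      | succ j => exact h i j (fun hh => hvw (by rw [hh]))
  refine cont93 (fun v => Fin.cases (motive := fun _ => W) p f v) ?_ ?_
  · intro v w hvw
    by_contra hne
    exact (h2 v w hne).ne hvw
  · intro v w hvw
    exact h2 v w hvw.ne

private def Rich93 {X U : Type} (Gx : SimpleGraph X) (H : SimpleGraph U) (S : Set U) (j : ℕ) : Prop :=
  ∀ c : U → (Fin j → Bool), ∃ f : Copy Gx H, (∀ x, f x ∈ S) ∧ ∃ m, ∀ x, c (f x) = m

private theorem rich93_split {X U : Type} (Gx : SimpleGraph X) (H : SimpleGraph U) (S S1 S2 : Set U) (j : ℕ)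
    (hS : Rich93 Gx H S (j + 1)) (h12 : ∀ u ∈ S, u ∈ S1 ∨ u ∈ S2) :
    Rich93 Gx H (S ∩ S1) j ∨ Rich93 Gx H (S ∩ S2) j := by
  classical
  by_contra hcon
  unfold Rich93 at hcon
  push Not at hcon
  obtain ⟨⟨c1, h1⟩, ⟨c2, h2⟩⟩ := hcon
  obtain ⟨f, hfS, m, hm⟩ := hS (fun u => Fin.cons (decide (u ∈ S1)) (if u ∈ S1 then c1 u else c2 u))
  have hm0 : ∀ x, decide (f x ∈ S1) = m 0 := fun x => by
    have := congrFun (hm x) 0
    simpa using this
  have hmt : ∀ x, (if f x ∈ S1 then c1 (f x) else c2 (f x)) = Fin.tail m := fun x => by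
    have := congrArg Fin.tail (hm x)
    simpa using this
  cases hb : m 0 with
  | true =>
    have hin : ∀ x, f x ∈ S1 := fun x => by
      have := hm0 x
      rw [hb] at this
      simpa using this
    obtain ⟨x, hx⟩ := h1 f (fun x => ⟨hfS x, hin x⟩) (Fin.tail m)
    apply hx
    have := hmt x
    rwa [if_pos (hin x)] at this
  | false =>
    have hnot : ∀ x, f x ∉ S1 := fun x => by
      have := hm0 x
      rw [hb] at this
      simpa using this
    obtain ⟨x, hx⟩ := h2 f (fun x => ⟨hfS x, (h12 _ (hfS x)).resolve_left (hnot x)⟩) (Fin.tail m)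
    apply hx
    have := hmt x
    rwa [if_neg (hnot x)] at this

theorem ana {V U : Type} [Finite V] [Finite U] (G : SimpleGraph V) (a b : V) (hab : G.Adj a b) (H : SimpleGraph U) {k : ℕ}
    (cl : V → Fin (k + 1)) (hcl : ∀ v w, G.Adj v w → cl v ≠ cl w)
    (hH : ∀ c : U → Fin (2 ^ (k + 1)), ∃ (f : Copy (G.induce {v | cl v ≠ 0}) H) (m : Fin (2 ^ (k + 1))), ∀ x, c (f x) = m)
    {t M s : ℕ} (ht : 3 ≤ t) (hs : Nat.card V ≤ s) (Q : SimpleGraph (Fin M)) (e : V → Fin M) (he : Function.Injective e)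
    (heQ : ∀ v w, G.Adj v w → Q.Adj (e v) (e w)) (hecl : ∀ v w, cl v < cl w → e v < e w)
    (kq : Fin (t - 1) → Fin M) (hkq : StrictMono kq) (hkQ : ∀ i j, i ≠ j → Q.Adj (kq i) (kq j))
    (σ : SimpleGraph (V ⊕ U)) (hσ : σ ≤ Inn G a b H) (mat : V ⊕ U → V ⊕ U → Prop) (μ ν : V ⊕ U → Prop) :
    G ⊑ Typ s Q σ mat μ ν True ∨
      (⊤ : SimpleGraph (Fin t)) ⊑ Typ s Q (Inn G a b H \ σ) (fun x y => ¬ mat x y)
        (fun x => Mk U G a b a x ∧ ¬ μ x) (fun x => Mk U G a b b x ∧ ¬ ν x) False := by
  classical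
  by_contra hcon
  rw [not_or] at hcon
  obtain ⟨hG, hK⟩ := hcon
  have hs0 : 0 < s := lt_of_lt_of_le (Nat.card_pos_iff.mpr ⟨⟨a⟩, inferInstance⟩) hs
  have h1 := one93 G hs0 cl hcl Q e he heQ hecl σ mat μ ν hG
  have h1' := one93' G hs0 Q e he heQ σ mat μ ν hG
  -- adjacency of two points on different levels of `kq` with the same label
  have hlev : ∀ (z : V ⊕ U) (i j : Fin (t - 1)), i ≠ j →
      (Typ s Q (Inn G a b H \ σ) (fun x y => ¬ mat x y) (fun x => Mk U G a b a x ∧ ¬ μ x)
        (fun x => Mk U G a b b x ∧ ¬ ν x) False).Adj (Sum.inr (kq i, ⟨0, hs0⟩, z)) (Sum.inr (kq j, ⟨0, hs0⟩, z)) := by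
    intro z i j hij
    refine Or.inr ⟨hkQ i j hij, ?_⟩
    rcases lt_or_gt_of_ne hij with h | h
    · exact Or.inl ⟨hkq h, h1' z⟩
    · exact Or.inr ⟨hkq h, h1' z⟩
  have h2μ : ∀ x, Mk U G a b a x → μ x := by
    intro x hx
    by_contra hμ
    apply hK
    refine top93 (by omega) (Sum.inl false) (fun i => Sum.inr (kq i, ⟨0, hs0⟩, x)) ?_ (hlev x)
    intro i
    exact Or.inl ⟨rfl, hx, hμ⟩
  have h2ν : ∀ x, Mk U G a b b x → ν x := by
    intro x hx
    by_contra hν
    apply hK
    refine top93 (by omega) (Sum.inl true) (fun i => Sum.inr (kq i, ⟨0, hs0⟩, x)) ?_ (hlev x)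
    intro i
    exact Or.inr ⟨rfl, hx, hν⟩
  have h3 : ∀ x y, (Inn G a b H).Adj x y → ¬ σ.Adj x y → ∀ z, mat x z ∨ mat y z := by
    intro x y hxy hnσ z
    by_contra hz
    rw [not_or] at hz
    apply hK
    have h0 : (0 : ℕ) < t - 1 := by omega
    refine top93 (by omega) (Sum.inr (kq ⟨0, h0⟩, ⟨0, hs0⟩, x))
      (fun i => if i.1 = 0 then Sum.inr (kq i, ⟨0, hs0⟩, y) else Sum.inr (kq i, ⟨0, hs0⟩, z)) ?_ ?_
    · intro i
      by_cases hi : i.1 = 0
      · simp only [hi, if_true]
        have : i = ⟨0, h0⟩ := Fin.ext hi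
        subst this
        exact Or.inl ⟨rfl, rfl, hxy, hnσ⟩
      · simp only [hi, if_false]
        have hlt : (⟨0, h0⟩ : Fin (t - 1)) < i := by
          rw [Fin.lt_def]; exact Nat.pos_of_ne_zero hi
        exact Or.inr ⟨hkQ _ _ hlt.ne, Or.inl ⟨hkq hlt, hz.1⟩⟩
    · have key : ∀ i j : Fin (t - 1), i < j →
          (Typ s Q (Inn G a b H \ σ) (fun x y => ¬ mat x y) (fun x => Mk U G a b a x ∧ ¬ μ x)
            (fun x => Mk U G a b b x ∧ ¬ ν x) False).Adj
            (if i.1 = 0 then Sum.inr (kq i, ⟨0, hs0⟩, y) else Sum.inr (kq i, ⟨0, hs0⟩, z))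
            (if j.1 = 0 then Sum.inr (kq j, ⟨0, hs0⟩, y) else Sum.inr (kq j, ⟨0, hs0⟩, z)) := by
        intro i j hij
        have hj : ¬ j.1 = 0 := by
          have := Fin.lt_def.mp hij
          omega
        simp only [hj, if_false]
        by_cases hi : i.1 = 0
        · simp only [hi, if_true]
          exact Or.inr ⟨hkQ _ _ hij.ne, Or.inl ⟨hkq hij, hz.2⟩⟩
        · simp only [hi, if_false]
          exact hlev z i j hij.ne
      intro i j hij
      rcases lt_or_gt_of_ne hij with h | h
      · exact key i j h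
      · exact (key j i h).symm
  -- richness of the whole set
  let Gx := G.induce {v | cl v ≠ 0}
  have hrich : Rich93 Gx H Set.univ (k + 1) := by
    intro c
    let E : (Fin (k + 1) → Bool) ≃ Fin (2 ^ (k + 1)) := Fintype.equivFinOfCardEq (by simp)
    obtain ⟨f, m, hm⟩ := hH (fun u => E (c u))
    refine ⟨f, fun x => Set.mem_univ _, E.symm m, fun x => ?_⟩
    rw [Equiv.eq_symm_apply]
    exact hm x
  have hq0 : (0 : ℕ) < t - 1 := by omega
  have hq1 : (1 : ℕ) < t - 1 := by omega
  have hq01 : (⟨0, hq0⟩ : Fin (t - 1)) < ⟨1, hq1⟩ := by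
    rw [Fin.lt_def]; exact Nat.zero_lt_one
  -- an injection of `V` into `Fin s`
  obtain ⟨mv, hmv⟩ : ∃ mv : V → Fin s, Function.Injective mv := by
    have : Fintype V := Fintype.ofFinite V
    have hc : Fintype.card V ≤ Fintype.card (Fin s) := by
      rw [Fintype.card_fin, ← Nat.card_eq_fintype_card]
      exact hs
    obtain ⟨f⟩ := Function.Embedding.nonempty_of_card_le hc
    exact ⟨f, f.injective⟩
  have h4 : ∀ x y : V ⊕ U, (Inn G a b H).Adj x y → σ.Adj x y := by
    intro x y hxy
    by_contra hnσ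
    have claim : ∀ j, j ≤ k → ∃ (w : ℕ → V ⊕ U) (S : Set U), (∀ i i', i < i' → i' ≤ j → mat (w i) (w i')) ∧
        Rich93 Gx H S (k - j) ∧ (∀ i ≤ j, ∀ u ∈ S, mat (w i) (Sum.inr u)) := by
      intro j
      induction j with
      | zero =>
        intro _
        rcases rich93_split Gx H Set.univ {u | mat x (Sum.inr u)} {u | mat y (Sum.inr u)} k hrich
          (fun u _ => h3 x y hxy hnσ (Sum.inr u)) with h | h
        · refine ⟨fun _ => x, {u | mat x (Sum.inr u)}, fun i i' hi hi' => absurd hi (by omega), by simpa using h, ?_⟩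
          intro i _ u hu
          exact hu
        · refine ⟨fun _ => y, {u | mat y (Sum.inr u)}, fun i i' hi hi' => absurd hi (by omega), by simpa using h, ?_⟩
          intro i _ u hu
          exact hu
      | succ j ih =>
        intro hjk
        obtain ⟨w, S, hw, hS, hwS⟩ := ih (by omega)
        have hkj : k - j = (k - (j + 1)) + 1 := by omega
        rw [hkj] at hS
        by_cases hall : ∀ u ∈ S, ∀ u' ∈ S, H.Adj u u' → σ.Adj (Sum.inr u) (Sum.inr u')
        · exfalso
          obtain ⟨f, hfS, _⟩ := hS (fun _ _ => true)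
          apply hG
          refine cont93 (fun v => if hv : cl v = 0 then Sum.inr (kq ⟨0, hq0⟩, mv v, w 0)
            else Sum.inr (kq ⟨1, hq1⟩, ⟨0, hs0⟩, Sum.inr (f ⟨v, hv⟩))) ?_ ?_
          · intro v v' hvv
            by_cases hv : cl v = 0 <;> by_cases hv' : cl v' = 0
            · simp only [hv, hv', dif_pos] at hvv
              exact hmv (by simpa using hvv)
            · simp only [hv, hv', dif_pos, dif_neg, not_false_iff] at hvv
              have h5 : kq ⟨0, hq0⟩ = kq ⟨1, hq1⟩ := (Prod.ext_iff.mp (Sum.inr_injective hvv)).1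
              exact absurd h5 (hkq hq01).ne
            · simp only [hv, hv', dif_pos, dif_neg, not_false_iff] at hvv
              have h5 : kq ⟨1, hq1⟩ = kq ⟨0, hq0⟩ := (Prod.ext_iff.mp (Sum.inr_injective hvv)).1
              exact absurd h5 (hkq hq01).ne'
            · simp only [hv, hv', dif_neg, not_false_iff] at hvv
              have h5 : (f ⟨v, hv⟩) = f ⟨v', hv'⟩ := by simpa using hvv
              have h6 := f.injective h5
              exact Subtype.ext_iff.mp h6
          · intro v v' hvv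
            have hne := hcl v v' hvv
            by_cases hv : cl v = 0 <;> by_cases hv' : cl v' = 0
            · exact absurd (hv.trans hv'.symm) hne
            · simp only [hv, hv', dif_pos, dif_neg, not_false_iff]
              exact Or.inr ⟨hkQ _ _ hq01.ne, Or.inl ⟨hkq hq01, hwS 0 (Nat.zero_le _) _ (hfS _)⟩⟩
            · simp only [hv, hv', dif_pos, dif_neg, not_false_iff]
              exact Or.inr ⟨hkQ _ _ hq01.ne', Or.inr ⟨hkq hq01, hwS 0 (Nat.zero_le _) _ (hfS _)⟩⟩
            · simp only [hv, hv', dif_neg, not_false_iff]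
              refine Or.inl ⟨rfl, rfl, hall _ (hfS _) _ (hfS _) ?_⟩
              exact f.toHom.map_rel (show Gx.Adj ⟨v, hv⟩ ⟨v', hv'⟩ from hvv)
        · push Not at hall
          obtain ⟨u, hu, u', hu', huu, hns⟩ := hall
          have key : ∀ z : V ⊕ U, (∀ i ≤ j, mat (w i) z) → Rich93 Gx H (S ∩ {q | mat z (Sum.inr q)}) (k - (j + 1)) →
              ∃ (w' : ℕ → V ⊕ U) (S' : Set U), (∀ i i', i < i' → i' ≤ j + 1 → mat (w' i) (w' i')) ∧
                Rich93 Gx H S' (k - (j + 1)) ∧ (∀ i ≤ j + 1, ∀ u ∈ S', mat (w' i) (Sum.inr u)) := by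
            intro z hz hR
            refine ⟨fun i => if i ≤ j then w i else z, _, ?_, hR, ?_⟩
            · intro i i' hi hi'
              have hij : i ≤ j := by omega
              simp only [hij, if_true]
              by_cases h7 : i' ≤ j
              · simp only [h7, if_true]
                exact hw i i' hi h7
              · simp only [h7, if_false]
                exact hz i hij
            · intro i _ q hq
              by_cases h7 : i ≤ j
              · simp only [h7, if_true]
                exact hwS i h7 q hq.1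
              · simp only [h7, if_false]
                exact hq.2
          rcases rich93_split Gx H S {q | mat (Sum.inr u) (Sum.inr q)} {q | mat (Sum.inr u') (Sum.inr q)} (k - (j + 1)) hS
            (fun q _ => h3 (Sum.inr u) (Sum.inr u') huu hns (Sum.inr q)) with h | h
          · exact key (Sum.inr u) (fun i hi => hwS i hi u hu) h
          · exact key (Sum.inr u') (fun i hi => hwS i hi u' hu') h
    obtain ⟨w, S, hw, _, _⟩ := claim k le_rfl
    refine h1 (fun i => w i) (fun i j hij => hw i j (Fin.lt_def.mp hij) ?_)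
    have := j.2
    omega
  -- the copy of `G`
  apply hG
  refine cont93 (fun v => if v = a then Sum.inl false else if v = b then Sum.inl true
    else Sum.inr (kq ⟨0, hq0⟩, ⟨0, hs0⟩, Sum.inl v)) ?_ ?_
  · intro v v' hvv
    have hba : b ≠ a := hab.ne'
    by_cases hv : v = a <;> by_cases hv' : v' = a
    · rw [hv, hv']
    · subst hv
      by_cases hvb' : v' = b
      · simp [hv', hvb', hba] at hvv
      · simp [hv', hvb'] at hvv
    · subst hv'
      by_cases hvb : v = b
      · simp [hv, hvb, hba] at hvv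
      · simp [hv, hvb] at hvv
    · by_cases hvb : v = b <;> by_cases hvb' : v' = b
      · rw [hvb, hvb']
      · simp [hv, hv', hvb, hvb', hba] at hvv
      · simp [hv, hv', hvb, hvb', hba] at hvv
      · simpa [hv, hv', hvb, hvb'] using hvv
  · have hba : b ≠ a := hab.ne'
    have key : ∀ v v' : V, G.Adj v v' → (v = a ∨ (v = b ∧ v' ≠ a) ∨ (v ≠ a ∧ v ≠ b ∧ v' ≠ a ∧ v' ≠ b)) →
        (Typ s Q σ mat μ ν True).Adj
          (if v = a then Sum.inl false else if v = b then Sum.inl true else Sum.inr (kq ⟨0, hq0⟩, ⟨0, hs0⟩, Sum.inl v))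
          (if v' = a then Sum.inl false else if v' = b then Sum.inl true
            else Sum.inr (kq ⟨0, hq0⟩, ⟨0, hs0⟩, Sum.inl v')) := by
      intro v v' hadj hc
      rcases hc with hv | ⟨hv, hva'⟩ | ⟨hva, hvb, hva', hvb'⟩
      · subst hv
        have hva' : v' ≠ v := hadj.ne'
        by_cases hvb' : v' = b
        · subst hvb'
          simp only [if_true, hva', if_false]
          exact ⟨by simp, trivial⟩
        · simp only [if_true, hva', hvb', if_false]
          exact Or.inl ⟨rfl, h2μ _ ⟨hva', hvb', hadj⟩⟩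
      · subst hv
        have hvb' : v' ≠ v := hadj.ne'
        simp only [if_true, hba, hva', hvb', if_false]
        exact Or.inr ⟨rfl, h2ν _ ⟨hva', hvb', hadj⟩⟩
      · simp only [hva, hvb, hva', hvb', if_false]
        exact Or.inl ⟨rfl, rfl, h4 (Sum.inl v) (Sum.inl v') ⟨hadj, hva, hvb, hva', hvb'⟩⟩
    intro v v' hadj
    by_cases hva : v = a
    · exact key v v' hadj (Or.inl hva)
    · by_cases hva' : v' = a
      · exact (key v' v hadj.symm (Or.inl hva')).symm
      · by_cases hvb : v = b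
        · exact key v v' hadj (Or.inr (Or.inl ⟨hvb, hva'⟩))
        · by_cases hvb' : v' = b
          · exact (key v' v hadj.symm (Or.inr (Or.inl ⟨hvb', hva⟩))).symm
          · exact key v v' hadj (Or.inr (Or.inr ⟨hva, hvb, hva', hvb'⟩))

end WC
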