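import Pool.Agent.Helper30.WC.Defs

/-!
# Block WC-C1: the descent lemma (MP_722e70_co)

PROOF.  Strong induction on `X.ncard` (for all `H`, `u`, `v`, `θ`).  `Cn` is defined in Defs.
Case 1: `θ x ∈ X` for all `x ∈ X`.  The finite set `E = {p : V × V | H.Adj p.1 p.2 ∧ p.1 ∈ X ∧ p.2 ∈ X}` is mapped injectively into
itself by `(x, y) ↦ (θ x, θ y)`, hence onto.  `(θ u, θ v) ∈ E`, so there is `(x, y) ∈ E` with `θ x = θ u`, `θ y = θ v`; by
injectivity `x = u`, `y = v` and `H.Adj u v`, a contradiction.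
Case 2: some `x ∈ X` has `θ x ∉ X`.  Let `X' = {x ∈ X | θ x ∈ X}`, `Y' = X \ X'`, which is nonempty; `u, v ∈ X'`.
(a) If `x ∈ X'`, `y ∈ Y'` and `H.Adj x y` then `H.Adj (θ x) (θ y)` with `θ x ∈ X`, `θ y ∉ X`, so `θ x = u` or `θ x = v` by `hout`.
(b) There are `u' ∈ X'` with `θ u' = u` and `v' ∈ X'` with `θ v' = v`: suppose e.g. that there is no `v'`.  Let `w = u'` if there
is `u' ∈ X'` with `θ u' = u`, otherwise `w = u`.
Apply `h2 w` to `T = Y'` (`w ∈ X'`, so `Y' ⊆ X \ {w}`): `T` is closed under adjacency of `H ⊔ edge u v` in `X \ {w}`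
by (a) (the edge `uv` has both ends in `X'`).  So `Y' = X \ {w}`, but `u ≠ v` are both in `X'`, one of them is `≠ w`: contradiction.
(c) Apply the induction hypothesis to `X'`, `u'`, `v'`, the same `θ` and the graph `H'` with
`H'.Adj p q ↔ (H.Adj p q ∧ p ∈ X ∧ q ∈ X) ∨ (p = u ∧ q = v) ∨ (p = v ∧ q = u)`.
 `u' ≠ v'` because `u ≠ v`.
 not `H'.Adj u' v'`: `H.Adj u' v'` would give `H.Adj u v`; if `u' = u`, `v' = v` then `θ u = u`, `θ v = v` and `hadj` gives
 `H.Adj u v`; if `u' = v`, `v' = u` then `θ v = u`, `θ u = v` and `hadj` gives `H.Adj v u`.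
 `hout`: `x ∈ X'`, `x ≠ u', v'`, `y ∉ X'`, `H'.Adj x y`: not the edge `uv` as `u, v ∈ X'`; else `y ∈ Y'` and (a) gives `θ x = u` or `v`,
 so `x = u'` or `v'` by injectivity.
 homomorphism: for `x, y ∈ X'` we have `θ x, θ y ∈ X`; the edge `uv` goes to `θ u θ v`, an edge of `H` in `X`.
 `θ u' = u ∈ X'`, `θ v' = v ∈ X'`, and `H'.Adj u v`.
 `Cn (H' ⊔ edge u' v') X'` and `Cn (H' ⊔ edge u' v') (X' \ {w})` for every `w` (if `w ∉ X'` this is the first one): let `T ⊆ X'` (resp.
 `T ⊆ X' \ {w}`, `w ∈ X'`) be nonempty and closed, and let `T* = T ∪ {y ∈ Y' | u' ∈ T ∨ v' ∈ T}`.  `T*` is closed under adjacency of `H ⊔ edge u v` in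
 `X` (resp. `X \ {w}`): between `Y'` and `X'` there are edges only at `u'` and `v'` (by (a)), and if one of `u'`, `v'` is in `T` and the other one is `≠ w`
 then it is in `T` because `u' v'` is an edge.  So `T* = X` (resp. `X \ {w}`) by `h1` (resp. `h2 w`), and `T = X'` (resp. `X' \ {w}`).
(d) `X'.ncard < X.ncard`.
-/

set_option autoImplicit false

namespace WC

open SimpleGraph

/-- connectivity after the replacement of a part attached at two points by an edge -/
private theorem cn_step30 {V : Type} (H H' : SimpleGraph V) (X X' Z : Set V) (u v u' v' : V)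
    (hXX : X' ⊆ X) (hsep : ∀ x ∈ X', ∀ y ∈ X, y ∉ X' → H.Adj x y → x = u' ∨ x = v')
    (huX : u ∈ X') (hvX : v ∈ X') (hu' : u' ∈ X') (hv' : v' ∈ X') (hne : u' ≠ v')
    (hH : ∀ x ∈ X', ∀ y ∈ X', (H ⊔ SimpleGraph.edge u v).Adj x y → H'.Adj x y)
    (hZ : Z ⊆ X') (hc : Cn (H ⊔ SimpleGraph.edge u v) (X \ Z)) (hZ1 : ∀ x ∈ Z, ∀ y ∈ Z, x = y)
    (T : Set V) (hT : T ⊆ X' \ Z) (hTn : T.Nonempty)
    (hcl : ∀ x ∈ T, ∀ y ∈ X' \ Z, (H' ⊔ SimpleGraph.edge u' v').Adj x y → y ∈ T) : T = X' \ Z := by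
  classical
  let S : Set V := T ∪ {y | y ∈ X ∧ y ∉ X' ∧ (u' ∈ T ∨ v' ∈ T)}
  have hS : S = X \ Z := by
    apply hc S
    · rintro y (hy | ⟨hy, hy', -⟩)
      · exact ⟨hXX (hT hy).1, (hT hy).2⟩
      · exact ⟨hy, fun h => hy' (hZ h)⟩
    · exact hTn.mono Set.subset_union_left
    · rintro x hx y ⟨hyX, hyZ⟩ hxy
      by_cases hyX' : y ∈ X'
      · left
        rcases hx with hx | ⟨hxX, hxX', hx⟩
        · exact hcl x hx y ⟨hyX', hyZ⟩ (Or.inl (hH x (hT hx).1 y hyX' hxy))
        · -- `x ∈ X \ X'`, `y ∈ X'`, so `y = u'` or `y = v'`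
          have hxy' : H.Adj x y := by
            rcases hxy with h | h
            · exact h
            · rw [SimpleGraph.edge_adj] at h
              rcases h.1 with ⟨rfl, rfl⟩ | ⟨rfl, rfl⟩
              · exact absurd huX hxX'
              · exact absurd hvX hxX'
          have hadj : (H' ⊔ SimpleGraph.edge u' v').Adj u' v' := by
            right
            rw [SimpleGraph.edge_adj]
            exact ⟨Or.inl ⟨rfl, rfl⟩, hne⟩
          rcases hsep y hyX' x hxX hxX' hxy'.symm with rfl | rfl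
          · rcases hx with hx | hx
            · exact hx
            · exact hcl _ hx _ ⟨hyX', hyZ⟩ hadj.symm
          · rcases hx with hx | hx
            · exact hcl _ hx _ ⟨hyX', hyZ⟩ hadj
            · exact hx
      · right
        refine ⟨hyX, hyX', ?_⟩
        rcases hx with hx | ⟨-, -, hx⟩
        · have hxy' : H.Adj x y := by
            rcases hxy with h | h
            · exact h
            · rw [SimpleGraph.edge_adj] at h
              rcases h.1 with ⟨rfl, rfl⟩ | ⟨rfl, rfl⟩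
              · exact absurd hvX hyX'
              · exact absurd huX hyX'
          rcases hsep x (hT hx).1 y hyX hyX' hxy' with rfl | rfl
          · exact Or.inl hx
          · exact Or.inr hx
        · exact hx
  apply Set.Subset.antisymm hT
  intro y hy
  have : y ∈ S := by rw [hS]; exact ⟨hXX hy.1, hy.2⟩
  rcases this with h | h
  · exact h
  · exact absurd hy.1 h.2.1

private theorem descent_aux30 {V : Type} [Finite V] (n : ℕ) : ∀ (H : SimpleGraph V) (X : Set V) (u v : V) (θ : V → V),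
    X.ncard ≤ n → u ∈ X → v ∈ X → u ≠ v → ¬ H.Adj u v →
    (∀ x ∈ X, x ≠ u → x ≠ v → ∀ y, y ∉ X → ¬ H.Adj x y) → Set.InjOn θ X →
    (∀ x ∈ X, ∀ y ∈ X, H.Adj x y → H.Adj (θ x) (θ y)) → θ u ∈ X → θ v ∈ X → H.Adj (θ u) (θ v) →
    Cn (H ⊔ SimpleGraph.edge u v) X → (∀ w, Cn (H ⊔ SimpleGraph.edge u v) (X \ {w})) → False := by
  classical
  induction n with
  | zero =>
    intro H X u v θ hn hu
    have : X.ncard = 0 := by omega
    rw [Set.ncard_eq_zero] at this
    rw [this] at hu
    exact fun _ _ _ _ _ _ _ _ _ _ _ => hu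
  | succ n ih =>
    intro H X u v θ hn hu hv hne huv hout hinj hhom hθu hθv hadj h1 h2
    by_cases hall : ∀ x ∈ X, θ x ∈ X
    · -- case 1
      let E : Set (V × V) := {p | H.Adj p.1 p.2 ∧ p.1 ∈ X ∧ p.2 ∈ X}
      have hE : Set.MapsTo (fun p : V × V => (θ p.1, θ p.2)) E E := fun p hp =>
        ⟨hhom _ hp.2.1 _ hp.2.2 hp.1, hall _ hp.2.1, hall _ hp.2.2⟩
      have hEi : Set.InjOn (fun p : V × V => (θ p.1, θ p.2)) E := by
        intro p hp q hq hpq
        have h3 : θ p.1 = θ q.1 := congrArg Prod.fst hpq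
        have h4 : θ p.2 = θ q.2 := congrArg Prod.snd hpq
        exact Prod.ext (hinj hp.2.1 hq.2.1 h3) (hinj hp.2.2 hq.2.2 h4)
      have hsurj : Set.SurjOn (fun p : V × V => (θ p.1, θ p.2)) E E :=
        (Set.Finite.surjOn_iff_bijOn_of_mapsTo E.toFinite hE).2
          ((Set.Finite.injOn_iff_bijOn_of_mapsTo E.toFinite hE).1 hEi)
      have hmem : ((θ u, θ v) : V × V) ∈ E := ⟨hadj, hθu, hθv⟩
      obtain ⟨p, hp, hpe⟩ := hsurj hmem
      have h3 : θ p.1 = θ u := congrArg Prod.fst hpe
      have h4 : θ p.2 = θ v := congrArg Prod.snd hpe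
      have h5 := hinj hp.2.1 hu h3
      have h6 := hinj hp.2.2 hv h4
      apply huv
      rw [← h5, ← h6]
      exact hp.1
    · -- case 2
      push Not at hall
      obtain ⟨y0, hy0, hy0'⟩ := hall
      let X' : Set V := {x | x ∈ X ∧ θ x ∈ X}
      have hXX : X' ⊆ X := fun x hx => hx.1
      have huX : u ∈ X' := ⟨hu, hθu⟩
      have hvX : v ∈ X' := ⟨hv, hθv⟩
      have hy0X : y0 ∉ X' := fun h => hy0' h.2
      have ha : ∀ x ∈ X', ∀ y ∈ X, y ∉ X' → H.Adj x y → θ x = u ∨ θ x = v := by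
        intro x hx y hy hy' hxy
        by_contra hcon
        push Not at hcon
        exact hout (θ x) hx.2 hcon.1 hcon.2 (θ y) (fun h => hy' ⟨hy, h⟩) (hhom x hx.1 y hy hxy)
      have hxy' : ∀ x ∈ X', ∀ y ∈ X, y ∉ X' → (H ⊔ SimpleGraph.edge u v).Adj x y → H.Adj x y := by
        intro x hx y hy hy' hxy
        rcases hxy with h | h
        · exact h
        · rw [SimpleGraph.edge_adj] at h
          rcases h.1 with ⟨rfl, rfl⟩ | ⟨rfl, rfl⟩
          · exact absurd hvX hy'
          · exact absurd huX hy'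
      -- a general version of (b)
      have hb : ∀ w ∈ X', (∀ x ∈ X', x ≠ w → θ x ≠ u ∧ θ x ≠ v) → False := by
        intro w hw hall
        have hT : {y | y ∈ X ∧ y ∉ X'} = X \ {w} := by
          apply h2 w
          · rintro y ⟨hy, hy'⟩
            exact ⟨hy, fun h => hy' (by rw [Set.mem_singleton_iff] at h; rw [h]; exact hw)⟩
          · exact ⟨y0, hy0, hy0X⟩
          · rintro y ⟨hy, hy'⟩ x ⟨hx, hxw⟩ hyx
            refine ⟨hx, fun hx' => ?_⟩
            have h3 := hxy' x hx' y hy hy' hyx.symm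
            have h4 := hall x hx' (fun h => hxw h)
            rcases ha x hx' y hy hy' h3 with h5 | h5
            · exact h4.1 h5
            · exact h4.2 h5
        have h5 : ∀ x ∈ X', x = w := by
          intro x hx
          by_contra hxw
          have : x ∈ X \ {w} := ⟨hx.1, hxw⟩
          rw [← hT] at this
          exact this.2 hx
        exact hne ((h5 u huX).trans (h5 v hvX).symm)
      have hu'ex : ∃ u' ∈ X', θ u' = u := by
        by_contra hcon
        push Not at hcon
        by_cases h : ∃ v' ∈ X', θ v' = v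
        · obtain ⟨v', hv', hv'e⟩ := h
          refine hb v' hv' fun x hx hxw => ⟨hcon x hx, fun h => hxw ?_⟩
          exact hinj hx.1 hv'.1 (h.trans hv'e.symm)
        · push Not at h
          exact hb u huX fun x hx hxw => ⟨hcon x hx, h x hx⟩
      have hv'ex : ∃ v' ∈ X', θ v' = v := by
        by_contra hcon
        push Not at hcon
        obtain ⟨u', hu', hu'e⟩ := hu'ex
        refine hb u' hu' fun x hx hxw => ⟨fun h => hxw ?_, hcon x hx⟩
        exact hinj hx.1 hu'.1 (h.trans hu'e.symm)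
      obtain ⟨u', hu', hu'e⟩ := hu'ex
      obtain ⟨v', hv', hv'e⟩ := hv'ex
      have hne' : u' ≠ v' := by
        rintro rfl
        exact hne (hu'e.symm.trans hv'e)
      let H' : SimpleGraph V :=
        { Adj := fun p q => (H.Adj p q ∧ p ∈ X ∧ q ∈ X) ∨ (SimpleGraph.edge u v).Adj p q
          symm := ⟨fun p q h => h.elim (fun h => Or.inl ⟨h.1.symm, h.2.2, h.2.1⟩) (fun h => Or.inr h.symm)⟩
          loopless := ⟨fun p h => h.elim (fun h => H.loopless.irrefl p h.1)
            (fun h => (SimpleGraph.edge u v).loopless.irrefl p h)⟩ }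
      have hH'uv : H'.Adj u v := Or.inr (by rw [SimpleGraph.edge_adj]; exact ⟨Or.inl ⟨rfl, rfl⟩, hne⟩)
      have hsep : ∀ x ∈ X', ∀ y ∈ X, y ∉ X' → H.Adj x y → x = u' ∨ x = v' := by
        intro x hx y hy hy' hxy
        rcases ha x hx y hy hy' hxy with h | h
        · exact Or.inl (hinj hx.1 hu'.1 (h.trans hu'e.symm))
        · exact Or.inr (hinj hx.1 hv'.1 (h.trans hv'e.symm))
      have hHH : ∀ x ∈ X', ∀ y ∈ X', (H ⊔ SimpleGraph.edge u v).Adj x y → H'.Adj x y := by
        intro x hx y hy h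
        rcases h with h | h
        · exact Or.inl ⟨h, hx.1, hy.1⟩
        · exact Or.inr h
      apply ih H' X' u' v' θ
      · have h3 : X'.ncard < X.ncard := Set.ncard_lt_ncard ⟨hXX, fun h => hy0X (h hy0)⟩
        omega
      · exact hu'
      · exact hv'
      · exact hne'
      · rintro (⟨h, -, -⟩ | h)
        · have := hhom u' hu'.1 v' hv'.1 h
          rw [hu'e, hv'e] at this
          exact huv this
        · rw [SimpleGraph.edge_adj] at h
          rcases h.1 with ⟨h3, h4⟩ | ⟨h3, h4⟩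
          · rw [h3] at hu'e
            rw [h4] at hv'e
            rw [hu'e, hv'e] at hadj
            exact huv hadj
          · rw [h3] at hu'e
            rw [h4] at hv'e
            rw [hu'e, hv'e] at hadj
            exact huv hadj.symm
      · intro x hx hxu hxv y hy hxy
        rcases hxy with ⟨h, -, hyX⟩ | h
        · rcases hsep x hx y hyX hy h with h3 | h3
          · exact hxu h3
          · exact hxv h3
        · rw [SimpleGraph.edge_adj] at h
          rcases h.1 with ⟨-, rfl⟩ | ⟨-, rfl⟩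
          · exact hy hvX
          · exact hy huX
      · exact fun x hx y hy h => hinj hx.1 hy.1 h
      · intro x hx y hy h
        rcases h with ⟨h, -, -⟩ | h
        · exact Or.inl ⟨hhom x hx.1 y hy.1 h, hx.2, hy.2⟩
        · rw [SimpleGraph.edge_adj] at h
          rcases h.1 with ⟨rfl, rfl⟩ | ⟨rfl, rfl⟩
          · exact Or.inl ⟨hadj, hθu, hθv⟩
          · exact Or.inl ⟨hadj.symm, hθv, hθu⟩
      · rw [hu'e]; exact huX
      · rw [hv'e]; exact hvX
      · rw [hu'e, hv'e]; exact hH'uv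
      · intro T hT hTn hcl
        have h3 := cn_step30 H H' X X' ∅ u v u' v' hXX hsep huX hvX hu' hv' hne' hHH (Set.empty_subset _)
          (by rw [Set.diff_empty]; exact h1) (fun x hx => absurd hx (Set.notMem_empty x)) T
          (by rw [Set.diff_empty]; exact hT) hTn (by rw [Set.diff_empty]; exact hcl)
        rw [Set.diff_empty] at h3
        exact h3
      · intro w T hT hTn hcl
        by_cases hw : w ∈ X'
        · exact cn_step30 H H' X X' {w} u v u' v' hXX hsep huX hvX hu' hv' hne' hHH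
            (Set.singleton_subset_iff.2 hw) (h2 w) (fun x hx y hy => by
              rw [Set.mem_singleton_iff] at hx hy; rw [hx, hy]) T hT hTn hcl
        · have h4 : X' \ {w} = X' := Set.diff_singleton_eq_self hw
          rw [h4] at hT hcl ⊢
          have h3 := cn_step30 H H' X X' ∅ u v u' v' hXX hsep huX hvX hu' hv' hne' hHH (Set.empty_subset _)
            (by rw [Set.diff_empty]; exact h1) (fun x hx => absurd hx (Set.notMem_empty x)) T
            (by rw [Set.diff_empty]; exact hT) hTn (by rw [Set.diff_empty]; exact hcl)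
          rw [Set.diff_empty] at h3
          exact h3

theorem descent {V : Type} [Finite V] (H : SimpleGraph V) (X : Set V) (u v : V) (θ : V → V) (hu : u ∈ X) (hv : v ∈ X)
    (hne : u ≠ v) (huv : ¬ H.Adj u v) (hout : ∀ x ∈ X, x ≠ u → x ≠ v → ∀ y, y ∉ X → ¬ H.Adj x y)
    (hinj : Set.InjOn θ X) (hhom : ∀ x ∈ X, ∀ y ∈ X, H.Adj x y → H.Adj (θ x) (θ y))
    (hθu : θ u ∈ X) (hθv : θ v ∈ X) (hadj : H.Adj (θ u) (θ v))
    (h1 : Cn (H ⊔ SimpleGraph.edge u v) X) (h2 : ∀ w, Cn (H ⊔ SimpleGraph.edge u v) (X \ {w})) : False :=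
  descent_aux30 X.ncard H X u v θ le_rfl hu hv hne huv hout hinj hhom hθu hθv hadj h1 h2

end WC
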