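import Pool.Agent.Helper30.WC.Defs

/-!
# Block WC-C2: 2-connected sets (MP_722e70_co)

`Cn G S`: every nonempty `T ⊆ S` closed under adjacency inside `S` is `S`.  `Tc G S`: `3 ≤ S.ncard` and `Cn G (S \ {w})` for all `w`.

PROOFS.
`Tc.cn`: if `T ⊆ S` is nonempty and closed and `p ∈ S \ T` then `T = S \ {p}` by `Cn G (S \ {p})`; take `q ∈ T` with `T \ {q}` nonempty
(`S` has at least three points); `T \ {q}` is closed in `S \ {q}` and does not contain `p`, contradiction to `Cn G (S \ {q})`.
`Tc.exists_adj`: `x ∈ S`; take `w ∈ S`, `w ≠ x`, and if `x` had no neighbour in `S` then `{x}` is closed in `S \ {w}`, so `S = {x, w}`.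
`Tc.map`: image of a 2-connected set under a map injective on `S` which maps edges in `S` to edges (for two graphs `K`, `G`): for `w`
and closed `T ⊆ f '' S \ {w}` pull back: `T' = {x ∈ S | f x ∈ T}`, `w = f w'` or `w` is not in the image.
`Tc.union`: `T ⊆ (S ∪ T') \ {w}` closed nonempty meets `S` say; then it contains `S \ {w}` by `Cn`, so it contains `x` or `y` (one of them is
`≠ w`), so it meets `T'` and contains `T' \ {w}`.
`Mx.eq_of_subset`: if `y ∈ T \ S` then `y` has a neighbour in `T` (`Tc.exists_adj`), so the pair is counted in `En G T` but not in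
`En G S`, and `En G S < En G T`.
`Mx.eq_of_two`: both are contained in the union, which is 2-connected.
`Mx.map`: `f` injective on `B`, edges of `G` in `B` go to edges of `G`: `f '' B` is 2-connected and `En G B ≤ En G (f '' B)`.
`Tc.side`: if `x ∈ S ∩ D` and `y ∈ S`, `y ∉ D`, `y ≠ c` then `S ∩ D` is closed in `S \ {c}`, nonempty, and does not contain `y`.
`exists_Tc`: a graph which is not acyclic contains a cycle; the support of a cycle is a 2-connected set (at least three vertices;
a nonempty closed subset of the cycle minus a point is everything: write the cycle as an injective map from `Fin n` (or `ZMod n`), `n ≥ 3`, with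
consecutive points adjacent.  Alternative without walks: let `S` be a nonempty set of vertices with `Cn G S` in which
every vertex has at least two neighbours in `S` ... any proof is fine).
-/

set_option autoImplicit false

namespace WC

open SimpleGraph

theorem Tc.cn {V : Type} [Finite V] {G : SimpleGraph V} {S : Set V} (hS : Tc G S) : Cn G S := by
  intro T hT hne hcl
  by_contra hTS
  obtain ⟨p, hpS, hpT⟩ : ∃ p ∈ S, p ∉ T := by
    by_contra hcon
    push Not at hcon
    exact hTS (Set.Subset.antisymm hT hcon)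
  have h1 : T = S \ {p} := by
    refine hS.2 p T (fun x hx => ⟨hT hx, fun h => hpT (h ▸ hx)⟩) hne (fun x hx y hy hxy => hcl x hx y hy.1 hxy)
  have h2 : 1 < T.ncard := by
    rw [h1]
    have h3 := Set.ncard_diff_singleton_of_mem hpS (s := S)
    have h4 := hS.1
    omega
  obtain ⟨q, hq, q', hq', hqq⟩ := (Set.one_lt_ncard (Set.toFinite T)).1 h2
  have h5 : T \ {q} = S \ {q} := by
    refine hS.2 q (T \ {q}) (fun x hx => ⟨hT hx.1, hx.2⟩) ⟨q', hq', fun h => hqq h.symm⟩ ?_
    exact fun x hx y hy hxy => ⟨hcl x hx.1 y hy.1 hxy, hy.2⟩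
  have h6 : p ∈ S \ {q} := ⟨hpS, fun h => hpT (by rw [Set.mem_singleton_iff.1 h]; exact hq)⟩
  rw [← h5] at h6
  exact hpT h6.1

theorem Tc.exists_adj {V : Type} [Finite V] {G : SimpleGraph V} {S : Set V} (hS : Tc G S) {x : V} (hx : x ∈ S) :
    ∃ y ∈ S, G.Adj x y := by
  by_contra hcon
  push Not at hcon
  have h1 : {x} = S := by
    refine hS.cn {x} (Set.singleton_subset_iff.2 hx) ⟨x, rfl⟩ ?_
    intro z hz y hy hzy
    rw [Set.mem_singleton_iff.1 hz] at hzy
    exact absurd hzy (hcon y hy)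
  have h2 := hS.1
  rw [← h1, Set.ncard_singleton] at h2
  omega

theorem Tc.map {V V' : Type} [Finite V] [Finite V'] {K : SimpleGraph V} {G : SimpleGraph V'} {S : Set V} (hS : Tc K S)
    (f : V → V') (hf : Set.InjOn f S) (hom : ∀ x ∈ S, ∀ y ∈ S, K.Adj x y → G.Adj (f x) (f y)) : Tc G (f '' S) := by
  refine ⟨by rw [Set.ncard_image_of_injOn hf]; exact hS.1, fun w T hT hne hcl => ?_⟩
  have hmem : ∀ z ∈ T, ∃ x ∈ S, f x = z := fun z hz => (hT hz).1
  by_cases hw : w ∈ f '' S
  · obtain ⟨w', hw', rfl⟩ := hw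
    have h1 : {x ∈ S | f x ∈ T} = S \ {w'} := by
      refine hS.2 w' _ (fun x hx => ⟨hx.1, fun h => ?_⟩) ?_ ?_
      · have h2 := (hT hx.2).2
        rw [Set.mem_singleton_iff.1 h] at h2
        exact h2 rfl
      · obtain ⟨z, hz⟩ := hne
        obtain ⟨x, hx, rfl⟩ := hmem z hz
        exact ⟨x, hx, hz⟩
      · intro x hx y hy hxy
        refine ⟨hy.1, hcl _ hx.2 _ ⟨⟨y, hy.1, rfl⟩, fun h => ?_⟩ (hom x hx.1 y hy.1 hxy)⟩
        exact hy.2 (hf hy.1 hw' (Set.mem_singleton_iff.1 h))
    refine Set.Subset.antisymm hT ?_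
    rintro z ⟨⟨y, hy, rfl⟩, hz⟩
    have h2 : y ∈ S \ {w'} := ⟨hy, fun h => hz (by rw [Set.mem_singleton_iff.1 h]; rfl)⟩
    rw [← h1] at h2
    exact h2.2
  · have h1 : {x ∈ S | f x ∈ T} = S := by
      refine hS.cn _ (fun x hx => hx.1) ?_ ?_
      · obtain ⟨z, hz⟩ := hne
        obtain ⟨x, hx, rfl⟩ := hmem z hz
        exact ⟨x, hx, hz⟩
      · intro x hx y hy hxy
        refine ⟨hy, hcl _ hx.2 _ ⟨⟨y, hy, rfl⟩, fun h => ?_⟩ (hom x hx.1 y hy hxy)⟩
        exact hw ⟨y, hy, Set.mem_singleton_iff.1 h⟩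
    refine Set.Subset.antisymm hT ?_
    rintro z ⟨⟨y, hy, rfl⟩, hz⟩
    have h2 : y ∈ S := hy
    rw [← h1] at h2
    exact h2.2

theorem Tc.union {V : Type} [Finite V] {G : SimpleGraph V} {S T : Set V} (hS : Tc G S) (hT : Tc G T) {x y : V}
    (hxy : x ≠ y) (hx : x ∈ S ∩ T) (hy : y ∈ S ∩ T) : Tc G (S ∪ T) := by
  refine ⟨hS.1.trans (Set.ncard_le_ncard Set.subset_union_left (Set.toFinite _)), fun w R hR hne hcl => ?_⟩
  have hpart : ∀ S' : Set V, S' ⊆ S ∪ T → Tc G S' → (R ∩ S').Nonempty → R ∩ S' = S' \ {w} := by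
    intro S' hS' hTc hne'
    refine hTc.2 w _ (fun z hz => ⟨hz.2, (hR hz.1).2⟩) hne' ?_
    exact fun z hz z' hz' hzz => ⟨hcl z hz.1 z' ⟨hS' hz'.1, hz'.2⟩ hzz, hz'.1⟩
  obtain ⟨q, hqw, hqS, hqT⟩ : ∃ q, q ≠ w ∧ q ∈ S ∧ q ∈ T := by
    by_cases h : x = w
    · exact ⟨y, fun h2 => hxy (h.trans h2.symm), hy.1, hy.2⟩
    · exact ⟨x, h, hx.1, hx.2⟩
  have hqR : q ∈ R := by
    obtain ⟨z, hz⟩ := hne
    rcases (hR hz).1 with h | h
    · have h1 := hpart S Set.subset_union_left hS ⟨z, hz, h⟩
      have h2 : q ∈ S \ {w} := ⟨hqS, hqw⟩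
      rw [← h1] at h2
      exact h2.1
    · have h1 := hpart T Set.subset_union_right hT ⟨z, hz, h⟩
      have h2 : q ∈ T \ {w} := ⟨hqT, hqw⟩
      rw [← h1] at h2
      exact h2.1
  have h1 := hpart S Set.subset_union_left hS ⟨q, hqR, hqS⟩
  have h2 := hpart T Set.subset_union_right hT ⟨q, hqR, hqT⟩
  refine Set.Subset.antisymm hR ?_
  rintro z ⟨hz | hz, hzw⟩
  · have h3 : z ∈ S \ {w} := ⟨hz, hzw⟩
    rw [← h1] at h3
    exact h3.1
  · have h3 : z ∈ T \ {w} := ⟨hz, hzw⟩
    rw [← h2] at h3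
    exact h3.1

theorem Mx.eq_of_subset {V : Type} [Finite V] {G : SimpleGraph V} {S T : Set V} (hS : Mx G S) (hT : Tc G T)
    (h : S ⊆ T) : T = S := by
  by_contra hTS
  obtain ⟨y, hyT, hyS⟩ : ∃ y ∈ T, y ∉ S := by
    by_contra hcon
    push Not at hcon
    exact hTS (Set.Subset.antisymm hcon h)
  obtain ⟨z, hz, hyz⟩ := hT.exists_adj hyT
  have h1 : En G S < En G T := by
    refine Set.ncard_lt_ncard ⟨fun p hp => ⟨hp.1, h hp.2.1, h hp.2.2⟩, fun hle => ?_⟩ (Set.toFinite _)
    have h2 : (y, z) ∈ {p : V × V | G.Adj p.1 p.2 ∧ p.1 ∈ T ∧ p.2 ∈ T} := ⟨hyz, hyT, hz⟩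
    exact hyS (hle h2).2.1
  have h2 := hS.2 T hT
  omega

theorem Mx.eq_of_two {V : Type} [Finite V] {G : SimpleGraph V} {S T : Set V} (hS : Mx G S) (hT : Mx G T) {x y : V}
    (hxy : x ≠ y) (hx : x ∈ S ∩ T) (hy : y ∈ S ∩ T) : S = T := by
  have h1 := hS.1.union hT.1 hxy hx hy
  rw [← hS.eq_of_subset h1 Set.subset_union_left]
  exact hT.eq_of_subset h1 Set.subset_union_right

theorem Mx.map {V : Type} [Finite V] {G : SimpleGraph V} {B : Set V} (hB : Mx G B) (f : V → V) (hf : Set.InjOn f B)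
    (hom : ∀ x ∈ B, ∀ y ∈ B, G.Adj x y → G.Adj (f x) (f y)) : Mx G (f '' B) := by
  refine ⟨hB.1.map f hf hom, fun T hT => (hB.2 T hT).trans ?_⟩
  refine Set.ncard_le_ncard_of_injOn (fun p : V × V => (f p.1, f p.2)) ?_ ?_ (Set.toFinite _)
  · rintro ⟨x, y⟩ ⟨h1, h2, h3⟩
    exact ⟨hom x h2 y h3 h1, ⟨x, h2, rfl⟩, ⟨y, h3, rfl⟩⟩
  · rintro ⟨x, y⟩ ⟨_, h2, h3⟩ ⟨x', y'⟩ ⟨_, h2', h3'⟩ he
    have he' := Prod.mk.inj he
    exact Prod.ext (hf h2 h2' he'.1) (hf h3 h3' he'.2)

theorem Tc.side {V : Type} [Finite V] {G : SimpleGraph V} {S D : Set V} {c : V} (hS : Tc G S)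
    (cl : ∀ x ∈ D, ∀ y, G.Adj x y → y ∈ D ∨ y = c) : S ⊆ insert c D ∨ S ⊆ Dᶜ := by
  by_cases hd : S ⊆ Dᶜ
  · exact Or.inr hd
  · left
    obtain ⟨x, hxS, hxD⟩ : ∃ x ∈ S, x ∈ D := by
      by_contra hcon
      push Not at hcon
      exact hd hcon
    by_cases hc : c ∈ D
    · have h1 : S ∩ D = S := by
        refine hS.cn _ Set.inter_subset_left ⟨x, hxS, hxD⟩ ?_
        intro z hz y hy hzy
        rcases cl z hz.2 y hzy with h | h
        · exact ⟨hy, h⟩
        · exact ⟨hy, h ▸ hc⟩
      intro z hz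
      rw [← h1] at hz
      exact Set.mem_insert_of_mem _ hz.2
    · have h1 : S ∩ D = S \ {c} := by
        refine hS.2 c _ (fun z hz => ⟨hz.1, fun h => hc (Set.mem_singleton_iff.1 h ▸ hz.2)⟩) ⟨x, hxS, hxD⟩ ?_
        intro z hz y hy hzy
        rcases cl z hz.2 y hzy with h | h
        · exact ⟨hy.1, h⟩
        · exact absurd h hy.2
      intro z hz
      by_cases hzc : z = c
      · exact Set.mem_insert_iff.2 (Or.inl hzc)
      · have h2 : z ∈ S \ {c} := ⟨hz, hzc⟩
        rw [← h1] at h2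
        exact Set.mem_insert_of_mem _ h2.2

/-- A set closed under adjacency which meets the support of a walk contains it. -/
theorem walk_closed50 {V : Type} {G : SimpleGraph V} {S T : Set V} (hcl : ∀ x ∈ T, ∀ y ∈ S, G.Adj x y → y ∈ T) :
    ∀ {u v : V} (q : G.Walk u v), (∀ x ∈ q.support, x ∈ S) → (∃ x ∈ q.support, x ∈ T) → ∀ y ∈ q.support, y ∈ T := by
  intro u v q
  induction q with
  | nil =>
    intro _ h y hy
    obtain ⟨x, hx, hxT⟩ := h
    rw [Walk.support_nil, List.mem_singleton] at hx hy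
    rw [hy, ← hx]
    exact hxT
  | cons h q ih =>
    rename_i u v w
    intro hS hex y hy
    have hS' : ∀ x ∈ q.support, x ∈ S := fun x hx => hS x (by rw [Walk.support_cons]; exact List.mem_cons_of_mem _ hx)
    have hu : u ∈ S := hS u (Walk.start_mem_support _)
    have hall : ∀ y ∈ q.support, y ∈ T := by
      obtain ⟨x, hx, hxT⟩ := hex
      rw [Walk.support_cons, List.mem_cons] at hx
      rcases hx with rfl | hx
      · exact ih hS' ⟨v, q.start_mem_support, hcl _ hxT v (hS' v q.start_mem_support) h⟩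
      · exact ih hS' ⟨x, hx, hxT⟩
    rw [Walk.support_cons, List.mem_cons] at hy
    rcases hy with rfl | hy
    · exact hcl v (hall v q.start_mem_support) _ hu h.symm
    · exact hall y hy

theorem cn_walk50 {V : Type} {G : SimpleGraph V} {u v : V} (q : G.Walk u v) : Cn G {x | x ∈ q.support} := by
  intro T hT hne hcl
  refine Set.Subset.antisymm hT fun y hy => walk_closed50 hcl q (fun x hx => hx) ?_ y hy
  obtain ⟨x, hx⟩ := hne
  exact ⟨x, hT hx, hx⟩

theorem exists_Tc {V : Type} [Finite V] (G : SimpleGraph V) (h : ¬ G.IsAcyclic) : ∃ S, Tc G S := by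
  classical
  unfold SimpleGraph.IsAcyclic at h
  push Not at h
  obtain ⟨v, p, hp⟩ := h
  refine ⟨{x | x ∈ p.support}, ?_, fun w => ?_⟩
  · have h1 : p.support.tail.length = p.length := by
      rw [List.length_tail, Walk.length_support]
      omega
    have h2 : (p.support.tail.toFinset : Set V) ⊆ {x | x ∈ p.support} := by
      intro x hx
      rw [Finset.mem_coe, List.mem_toFinset] at hx
      exact List.mem_of_mem_tail hx
    have h3 := Set.ncard_le_ncard h2 (Set.toFinite _)
    rw [Set.ncard_coe_finset, List.toFinset_card_of_nodup hp.support_nodup, h1] at h3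
    exact hp.three_le_length.trans h3
  · by_cases hw : w ∈ p.support
    · have hr : (p.rotate w hw).IsCycle := hp.rotate hw
      have hmem : ∀ x, x ∈ (p.rotate w hw).support ↔ x ∈ p.support := fun x => Walk.mem_support_rotate_iff p w hw
      obtain ⟨p', hp'⟩ : ∃ p', p' = p.rotate w hw := ⟨_, rfl⟩
      rw [← hp'] at hr hmem
      cases p' with
      | nil => exact absurd hr Walk.IsCycle.not_of_nil
      | cons h q =>
        rename_i u
        have hq := (Walk.cons_isCycle_iff q h).1 hr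
        obtain ⟨q2, hq2⟩ : ∃ q2, q2 = q.reverse := ⟨_, rfl⟩
        have hq2p : q2.IsPath := by
          rw [hq2]
          exact hq.1.reverse
        have hm2 : ∀ x, x ∈ q2.support ↔ x ∈ q.support := fun x => by rw [hq2, Walk.support_reverse, List.mem_reverse]
        cases q2 with
        | nil => exact absurd rfl h.ne
        | cons h' q' =>
          have h3 := (Walk.cons_isPath_iff h' q').1 hq2p
          have e : ({x | x ∈ p.support} \ {w} : Set V) = {x | x ∈ q'.support} := by
            ext x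
            constructor
            · rintro ⟨hx, hxw⟩
              have hx' : x ∈ p.support := hx
              rw [← hmem, Walk.support_cons, List.mem_cons] at hx'
              rcases hx' with hx' | hx'
              · exact absurd hx' hxw
              · rw [← hm2, Walk.support_cons, List.mem_cons] at hx'
                rcases hx' with hx' | hx'
                · exact absurd hx' hxw
                · exact hx'
            · intro hx
              have hx' : x ∈ q'.support := hx
              refine ⟨?_, fun hxw => h3.2 (by rw [← Set.mem_singleton_iff.1 hxw]; exact hx')⟩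
              change x ∈ p.support
              rw [← hmem, Walk.support_cons]
              refine List.mem_cons_of_mem _ ?_
              rw [← hm2, Walk.support_cons]
              exact List.mem_cons_of_mem _ hx'
          rw [e]
          exact cn_walk50 q'
    · have e : ({x | x ∈ p.support} \ {w} : Set V) = {x | x ∈ p.support} :=
        Set.sdiff_singleton_eq_self hw
      rw [e]
      exact cn_walk50 p

end WC
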