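import Pool.Agent.Helper30.WC.C2

/-!
# Block WC-C2d: the choice of `(c, D, B)` (MP_722e70_co)

Use the lemmas of `C2.lean` (proved in parallel).  `Choice` is defined in Defs.

PROOF.
(1) There is a set `S0` with `Mx G S0` (a 2-connected set with the maximal number of edges; `V` is finite).
(2) KEY LEMMA (ear): let `Mx G B`, let `K ⊆ Bᶜ` be a nonempty set with `Cn G K`, and let `x ≠ y` be points of `B` which both have a
neighbour in `K`.  Contradiction.  Proof: choose such a `K` (for the fixed `x`, `y`) with `K.ncard` minimal.  Then `B ∪ K` is 2-connected: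
it contains `B`; let `T ⊆ (B ∪ K) \ {w}` be nonempty and closed.  If `T` meets `B` then it contains `B \ {w}` (`Mx.1`); so either `T` contains
`B \ {w}` or `T ⊆ K`.
 If `w ∉ K`: if `T` contains `B \ {w}`, it contains `x` or `y`, hence it meets `K` and, `K` being connected, contains `K`.  If `T ⊆ K` then
 `T = K` (as `Cn G K`), and `T` contains a neighbour of `x` or `y` whichever is `≠ w`, so it meets `B`, contradiction.
 If `w ∈ K`: a nonempty closed `T0 ⊆ K \ {w}` (closed in `(B ∪ K) \ {w}`) is impossible: `K' = K \ T0` contains `w`, is connected (if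
 `T1 ⊆ K'` is nonempty and closed in `K'`: if `w ∈ T1` then `T1 ∪ T0` is closed in `K`; if `w ∉ T1` then `T1` is closed in `K`, since `T0` has
 neighbours only in `T0 ∪ {w}`), and `x`, `y` still have neighbours in `K'` (no vertex of `T0` is adjacent to `B`), contradicting minimality.  So
 `T` contains `B` (`w ∉ B`), and the complement `K \ {w} \ T` is closed and in `K \ {w}` (adjacency is symmetric), so it is empty.
 By `Mx.eq_of_subset`, `B ∪ K = B`, contradiction.
(3) Consider all triples `(c, D, B)` with `c ∉ D`, `D` closed at `c` (`∀ x ∈ D, ∀ y, G.Adj x y → y ∈ D ∨ y = c`), `Mx G B`,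
`B ⊆ insert c D`.  There is one: any `c`, `D = {c}ᶜ`, `B = S0`.  Take one with `D.ncard` minimal.
(4) `c ∈ T` for every `T` with `Mx G T` and `T ⊆ insert c D`.  Otherwise `c ∉ T`, `T ⊆ D`.  Let `K` be the set of the vertices
reachable from `c` in `Tᶜ` (the smallest set containing `c` and closed under adjacency in `Tᶜ`); `Cn G K`.  As `G` is connected and `T` is
nonempty, some `c' ∈ T` has a neighbour in `K`; by (2) it is the only one.  Let `D' = (K ∪ {c'})ᶜ`: `D'` is closed at `c'` (a neighbour of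
`x ∈ D'` in `K` would put `x` in `K`, since `x ∉ T`, or `x ∈ T` has a neighbour in `K`, so `x = c'`).  `T ⊆ insert c' D'`.  `D' ⊆ D`: let `x ∉ D`;
if `x = c` then `x ∈ K`.  Otherwise `x` is in the set `Z = (insert c D)ᶜ`; every connected component of `Z` is adjacent to `c` or to nothing
else than itself (no vertex of `Z` is adjacent to `D`), and `G` is connected, so `insert c Z` is connected (`Cn`), it is disjoint from `T`, so it is contained
in `K`.  `c' ∈ D` but `c' ∉ D'`, so `D'.ncard < D.ncard`, contradiction.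
(5) Uniqueness: let `T ≠ B` with `Mx G T`, `T ⊆ insert c D`.  Both contain `c` by (4).  `B \ {c}` and `T \ {c}` are nonempty connected subsets of `D`.
Let `D1` be the smallest subset containing `B \ {c}` and closed under adjacency in `{c}ᶜ`; `D1 ⊆ D`, `D1` is closed at `c`, `B ⊆ insert c D1`, so
`D1 = D` by minimality; hence `D` is connected (`Cn G D`).  `B ∩ T = {c}` by `Mx.eq_of_two`.  Let `K` be the smallest set containing `T \ {c}` and closed
under adjacency in `Bᶜ`; it is connected, disjoint from `B`, `c` has a neighbour in it (`Tc.exists_adj`), and so has a point `x` of `B \ {c}`: otherwise `K ∩ D`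
is closed in `D`, so it is `D` and meets `B`.  Contradiction to (2) with `x` and `c`.
(6) If `Mx G T`, `T ≠ B` then `T ⊆ insert c D` is impossible by (5), so `T ⊆ Dᶜ` by `Tc.side`.
-/

set_option autoImplicit false

namespace WC

open SimpleGraph

/-- the smallest set containing `A` and closed under adjacency in `X` -/
private def Rc31 {V : Type} (G : SimpleGraph V) (A X : Set V) : Set V :=
  {y | ∃ x ∈ A, Relation.ReflTransGen (fun u v => G.Adj u v ∧ v ∈ X) x y}

private theorem Rc31_sub {V : Type} {G : SimpleGraph V} {A X : Set V} : A ⊆ Rc31 G A X :=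
  fun x hx => ⟨x, hx, Relation.ReflTransGen.refl⟩

private theorem Rc31_cl {V : Type} {G : SimpleGraph V} {A X : Set V} {u v : V} (hu : u ∈ Rc31 G A X)
    (huv : G.Adj u v) (hv : v ∈ X) : v ∈ Rc31 G A X := by
  obtain ⟨x, hx, h⟩ := hu
  exact ⟨x, hx, h.tail ⟨huv, hv⟩⟩

private theorem Rc31_min {V : Type} {G : SimpleGraph V} {A X S : Set V} (hA : A ⊆ S)
    (hS : ∀ u ∈ S, ∀ v ∈ X, G.Adj u v → v ∈ S) : Rc31 G A X ⊆ S := by
  rintro y ⟨x, hx, h⟩
  induction h with
  | refl => exact hA hx
  | tail _ h2 ih => exact hS _ ih _ h2.2 h2.1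

private theorem Rc31_cn {V : Type} {G : SimpleGraph V} {A X : Set V} (hA : Cn G A) : Cn G (Rc31 G A X) := by
  intro T hT hne hcl
  by_cases hTA : (T ∩ A).Nonempty
  · have h1 : T ∩ A = A := hA (T ∩ A) Set.inter_subset_right hTA
      (fun x hx y hy hxy => ⟨hcl x hx.1 y (Rc31_sub hy) hxy, hy⟩)
    have h2 : A ⊆ T := fun a ha => (h1.symm ▸ ha : a ∈ T ∩ A).1
    refine Set.Subset.antisymm hT (Rc31_min h2 ?_)
    intro u hu v hv huv
    exact hcl u hu v (Rc31_cl (hT hu) huv hv) huv
  · exfalso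
    have h2 : Rc31 G A X ⊆ Rc31 G A X \ T := by
      refine Rc31_min ?_ ?_
      · intro a ha
        exact ⟨Rc31_sub ha, fun haT => hTA ⟨a, haT, ha⟩⟩
      · intro u hu v hv huv
        refine ⟨Rc31_cl hu.1 huv hv, fun hvT => hu.2 (hcl v hvT u hu.1 huv.symm)⟩
    obtain ⟨t, ht⟩ := hne
    exact (h2 (hT ht)).2 ht

private theorem Cn31_single {V : Type} {G : SimpleGraph V} (c : V) : Cn G {c} := by
  intro T hT hne _
  obtain ⟨t, ht⟩ := hne
  have h1 : t = c := hT ht
  refine Set.Subset.antisymm hT ?_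
  intro x hx
  have hx' : x = c := hx
  rw [hx', ← h1]
  exact ht

private theorem ear31 {V : Type} [Finite V] {G : SimpleGraph V} {B : Set V} (hB : Mx G B) {x y : V}
    (hxy : x ≠ y) (hx : x ∈ B) (hy : y ∈ B) :
    ∀ n : ℕ, ∀ K : Set V, K.ncard = n → K ⊆ Bᶜ → K.Nonempty → Cn G K → (∃ k ∈ K, G.Adj x k) →
      (∃ k ∈ K, G.Adj y k) → False := by
  intro n
  induction n using Nat.strong_induction_on with
  | _ n ih =>
    intro K hn hKB hKne hK hxK hyK
    have hBc : ∀ w, Cn G (B \ {w}) := hB.1.2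
    have key : Tc G (B ∪ K) := by
      refine ⟨hB.1.1.trans (Set.ncard_le_ncard Set.subset_union_left (Set.toFinite _)), ?_⟩
      intro w T hT hTne hTcl
      -- the part in `B`
      have hTB : (T ∩ B).Nonempty → B \ {w} ⊆ T := by
        intro hne
        have h1 : T ∩ B = B \ {w} := by
          refine hBc w (T ∩ B) (fun t ht => ⟨ht.2, (hT ht.1).2⟩) hne ?_
          intro a ha b hb hab
          exact ⟨hTcl a ha.1 b ⟨Or.inl hb.1, hb.2⟩ hab, hb.1⟩
        intro b hb
        exact (h1.symm ▸ hb : b ∈ T ∩ B).1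
      by_cases hw : w ∈ K
      · -- `w ∈ K`
        have hwB : w ∉ B := fun h => hKB hw h
        have claimA : ∀ T0 : Set V, T0 ⊆ K \ {w} → T0.Nonempty →
            (∀ a ∈ T0, ∀ b ∈ (B ∪ K) \ {w}, G.Adj a b → b ∈ T0) → False := by
          intro T0 hT0 hne hcl
          have hlt : (K \ T0).ncard < n := by
            rw [← hn]
            refine Set.ncard_lt_ncard ?_ (Set.toFinite _)
            refine ⟨Set.sdiff_subset, ?_⟩
            intro hsub
            obtain ⟨t, ht⟩ := hne
            exact (hsub (hT0 ht).1).2 ht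
          have hwK : w ∈ K \ T0 := ⟨hw, fun h => (hT0 h).2 rfl⟩
          refine ih _ hlt (K \ T0) rfl (Set.sdiff_subset.trans hKB) ⟨w, hwK⟩ ?_ ?_ ?_
          · intro T1 hT1 hT1ne hT1cl
            by_cases hwT : w ∈ T1
            · have h2 : T1 ∪ T0 = K := by
                refine hK (T1 ∪ T0) ?_ ⟨w, Or.inl hwT⟩ ?_
                · rintro a (ha | ha)
                  · exact (hT1 ha).1
                  · exact (hT0 ha).1
                · rintro a (ha | ha) b hb hab
                  · by_cases hb0 : b ∈ T0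
                    · exact Or.inr hb0
                    · exact Or.inl (hT1cl a ha b ⟨hb, hb0⟩ hab)
                  · by_cases hbw : b = w
                    · rw [hbw]; exact Or.inl hwT
                    · exact Or.inr (hcl a ha b ⟨Or.inr hb, hbw⟩ hab)
              refine Set.Subset.antisymm hT1 ?_
              intro a ha
              have h3 : a ∈ T1 ∪ T0 := h2.symm ▸ ha.1
              exact h3.resolve_right ha.2
            · exfalso
              have h2 : T1 = K := by
                refine hK T1 (fun a ha => (hT1 ha).1) hT1ne ?_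
                intro a ha b hb hab
                by_cases hb0 : b ∈ T0
                · exfalso
                  have haw : a ≠ w := fun h => hwT (h ▸ ha)
                  exact (hT1 ha).2 (hcl b hb0 a ⟨Or.inr (hT1 ha).1, haw⟩ hab.symm)
                · exact hT1cl a ha b ⟨hb, hb0⟩ hab
              exact hwT (h2.symm ▸ hw)
          · obtain ⟨k, hk, hxk⟩ := hxK
            refine ⟨k, ⟨hk, fun hk0 => ?_⟩, hxk⟩
            have hxw : x ≠ w := fun h => hwB (h ▸ hx)
            exact hKB (hT0 (hcl k hk0 x ⟨Or.inl hx, hxw⟩ hxk.symm)).1 hx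
          · obtain ⟨k, hk, hyk⟩ := hyK
            refine ⟨k, ⟨hk, fun hk0 => ?_⟩, hyk⟩
            have hyw : y ≠ w := fun h => hwB (h ▸ hy)
            exact hKB (hT0 (hcl k hk0 y ⟨Or.inl hy, hyw⟩ hyk.symm)).1 hy
        have hmeet : (T ∩ B).Nonempty := by
          by_contra hno
          refine claimA T ?_ hTne hTcl
          intro t ht
          have h1 := hT ht
          refine ⟨h1.1.resolve_left (fun hb => hno ⟨t, ht, hb⟩), h1.2⟩
        have hBT := hTB hmeet
        refine Set.Subset.antisymm hT ?_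
        rintro a ⟨ha | ha, haw⟩
        · exact hBT ⟨ha, haw⟩
        · by_contra haT
          refine claimA ((K \ {w}) \ T) Set.sdiff_subset ⟨a, ⟨ha, haw⟩, haT⟩ ?_
          intro u hu v hv huv
          have hvT : v ∉ T := fun hvT => hu.2 (hTcl v hvT u ⟨Or.inr hu.1.1, hu.1.2⟩ huv.symm)
          have hvB : v ∉ B := fun hvB => hvT (hBT ⟨hvB, hv.2⟩)
          exact ⟨⟨hv.1.resolve_left hvB, hv.2⟩, hvT⟩
      · -- `w ∉ K`
        have hTK : (T ∩ K).Nonempty → K ⊆ T := by
          intro hne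
          have h1 : T ∩ K = K := by
            refine hK (T ∩ K) Set.inter_subset_right hne ?_
            intro a ha b hb hab
            exact ⟨hTcl a ha.1 b ⟨Or.inr hb, fun h => hw (h ▸ hb)⟩ hab, hb⟩
          intro b hb
          exact (h1.symm ▸ hb : b ∈ T ∩ K).1
        -- a point of `B`, not `w`, with a neighbour in `K`
        obtain ⟨z, hzB, hzw, k, hkK, hzk⟩ : ∃ z, z ∈ B ∧ z ≠ w ∧ ∃ k ∈ K, G.Adj z k := by
          by_cases hxw : x = w
          · exact ⟨y, hy, fun h => hxy (hxw.trans h.symm), hyK⟩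
          · exact ⟨x, hx, hxw, hxK⟩
        have hkw : k ≠ w := fun h => hw (h ▸ hkK)
        have hmeetB : (T ∩ B).Nonempty := by
          by_contra hno
          obtain ⟨t, ht⟩ := hTne
          have htK : t ∈ K := (hT ht).1.resolve_left (fun hb => hno ⟨t, ht, hb⟩)
          have h2 := hTK ⟨t, ht, htK⟩
          exact hno ⟨z, hTcl k (h2 hkK) z ⟨Or.inl hzB, hzw⟩ hzk.symm, hzB⟩
        have hBT := hTB hmeetB
        have hzT : z ∈ T := hBT ⟨hzB, hzw⟩
        have hkT : k ∈ T := hTcl z hzT k ⟨Or.inr hkK, hkw⟩ hzk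
        have hKT := hTK ⟨k, hkT, hkK⟩
        refine Set.Subset.antisymm hT ?_
        rintro a ⟨ha | ha, haw⟩
        · exact hBT ⟨ha, haw⟩
        · exact hKT ha
    have heq := hB.eq_of_subset key Set.subset_union_left
    obtain ⟨k, hk⟩ := hKne
    exact hKB hk (heq ▸ (Or.inr hk : k ∈ B ∪ K))

private theorem univ31 {V : Type} {G : SimpleGraph V} (hG : G.Connected) {S : Set V} {c : V} (hc : c ∈ S)
    (hS : ∀ u ∈ S, ∀ v, G.Adj u v → v ∈ S) (x : V) : x ∈ S := by
  have h := (SimpleGraph.reachable_iff_reflTransGen c x).1 (hG.preconnected c x)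
  induction h with
  | refl => exact hc
  | tail _ h2 ih => exact hS _ ih _ h2

theorem exists_choice {V : Type} [Finite V] (G : SimpleGraph V) (hG : G.Connected) (h : ∃ S, Tc G S) :
    ∃ B D c, Choice G B D c := by
  classical
  -- (1)
  obtain ⟨S, hS⟩ := h
  obtain ⟨S0, hS0, hmax⟩ := Set.exists_max_image {S : Set V | Tc G S} (En G) (Set.toFinite _) ⟨S, hS⟩
  have hM : Mx G S0 := ⟨hS0, fun T hT => hmax T hT⟩
  obtain ⟨c0⟩ := hG.nonempty
  -- (3)
  obtain ⟨D, hD, hmin⟩ := Set.exists_min_image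
    {D : Set V | ∃ c B, c ∉ D ∧ (∀ x ∈ D, ∀ y, G.Adj x y → y ∈ D ∨ y = c) ∧ Mx G B ∧ B ⊆ insert c D}
    Set.ncard (Set.toFinite _)
    ⟨{c0}ᶜ, c0, S0, fun h => h rfl, fun x _ y _ => (em (y = c0)).symm.imp (fun h => h) (fun h => h), hM,
      fun x _ => em (x = c0)⟩
  obtain ⟨c, B, hcD, hcl, hB, hBD⟩ := hD
  have hmin' : ∀ c' D' B', c' ∉ D' → (∀ x ∈ D', ∀ y, G.Adj x y → y ∈ D' ∨ y = c') → Mx G B' →
      B' ⊆ insert c' D' → D.ncard ≤ D'.ncard :=
    fun c' D' B' h1 h2 h3 h4 => hmin D' ⟨c', B', h1, h2, h3, h4⟩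
  -- (4)
  have h4 : ∀ T, Mx G T → T ⊆ insert c D → c ∈ T := by
    intro T hT hTD
    by_contra hcT
    have hTD' : T ⊆ D := fun t ht => (hTD ht).resolve_left (fun h => hcT (h ▸ ht))
    have hKT : Rc31 G {c} Tᶜ ⊆ Tᶜ := by
      refine Rc31_min ?_ (fun u _ v hv _ => hv)
      intro a ha
      have : a = c := ha
      rw [this]; exact hcT
    have hcK : c ∈ Rc31 G {c} Tᶜ := Rc31_sub rfl
    have hKc : Cn G (Rc31 G {c} Tᶜ) := Rc31_cn (Cn31_single c)
    have hTne : T.Nonempty := by
      have := hT.1.1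
      refine (Set.ncard_pos (Set.toFinite _)).1 (by omega)
    obtain ⟨c', hc'T, hc'K⟩ : ∃ c' ∈ T, ∃ k ∈ Rc31 G {c} Tᶜ, G.Adj c' k := by
      by_contra hno
      push Not at hno
      obtain ⟨t, ht⟩ := hTne
      refine hKT (univ31 hG hcK ?_ t) ht
      intro u hu v huv
      by_cases hv : v ∈ T
      · exact absurd huv.symm (hno v hv u hu)
      · exact Rc31_cl hu huv hv
    have huniq : ∀ z ∈ T, (∃ k ∈ Rc31 G {c} Tᶜ, G.Adj z k) → z = c' := by
      intro z hz hzK
      by_contra hne
      exact ear31 hT hne hz hc'T _ _ rfl hKT ⟨c, hcK⟩ hKc hzK hc'K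
    have hcover : ∀ x, x ∈ D ∪ Rc31 G {c} Tᶜ := by
      refine univ31 hG (c := c) (Or.inr hcK) ?_
      rintro u (hu | hu) v huv
      · rcases hcl u hu v huv with h | h
        · exact Or.inl h
        · rw [h]; exact Or.inr hcK
      · by_cases hv : v ∈ T
        · exact Or.inl (hTD' hv)
        · exact Or.inr (Rc31_cl hu huv hv)
    have hD'D : (Rc31 G {c} Tᶜ ∪ {c'})ᶜ ⊆ D := by
      intro x hx
      exact (hcover x).resolve_right (fun h => hx (Or.inl h))
    have hle := hmin' c' (Rc31 G {c} Tᶜ ∪ {c'})ᶜ T (fun h => h (Or.inr rfl)) ?_ hT ?_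
    · have hlt : ((Rc31 G {c} Tᶜ ∪ {c'})ᶜ).ncard < D.ncard := by
        refine Set.ncard_lt_ncard ⟨hD'D, ?_⟩ (Set.toFinite _)
        intro hsub
        exact hsub (hTD' hc'T) (Or.inr rfl)
      omega
    · intro x hx y hxy
      by_contra hno
      push Not at hno
      have hyK : y ∈ Rc31 G {c} Tᶜ := by
        have h1 : y ∈ Rc31 G {c} Tᶜ ∪ {c'} := by
          by_contra h2
          exact hno.1 h2
        exact h1.resolve_right hno.2
      by_cases hxT : x ∈ T
      · exact hx (Or.inr (huniq x hxT ⟨y, hyK, hxy⟩))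
      · exact hx (Or.inl (Rc31_cl hyK hxy.symm hxT))
    · intro t ht
      by_cases htc : t = c'
      · exact Or.inl htc
      · right
        rintro (h | h)
        · exact hKT h ht
        · exact htc h
  -- (5)
  have h5 : ∀ T, Mx G T → T ≠ B → T ⊆ insert c D → False := by
    intro T hT hTB hTD
    have hcB : c ∈ B := h4 B hB hBD
    have hcT : c ∈ T := h4 T hT hTD
    have hBD' : B \ {c} ⊆ D := fun b hb => (hBD hb.1).resolve_left hb.2
    have hTD' : T \ {c} ⊆ D := fun b hb => (hTD hb.1).resolve_left hb.2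
    have hne : ∀ S, Tc G S → c ∈ S → (S \ {c}).Nonempty := by
      intro S hS hcS
      refine (Set.ncard_pos (Set.toFinite _)).1 ?_
      have h1 := Set.ncard_sdiff_singleton_add_one hcS (Set.toFinite S)
      have := hS.1
      omega
    have hD1D : Rc31 G (B \ {c}) {c}ᶜ ⊆ D :=
      Rc31_min hBD' (fun u hu v hv huv => (hcl u hu v huv).resolve_right hv)
    have hle := hmin' c (Rc31 G (B \ {c}) {c}ᶜ) B (fun h => hcD (hD1D h)) ?_ hB ?_
    rotate_left
    · intro x hx y hxy
      by_cases hyc : y = c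
      · exact Or.inr hyc
      · exact Or.inl (Rc31_cl hx hxy hyc)
    · intro b hb
      by_cases hbc : b = c
      · exact Or.inl hbc
      · exact Or.inr (Rc31_sub ⟨hb, hbc⟩)
    have hD1 : Rc31 G (B \ {c}) {c}ᶜ = D := Set.eq_of_subset_of_ncard_le hD1D hle (Set.toFinite _)
    have hDc : Cn G D := hD1 ▸ Rc31_cn (hB.1.2 c)
    have hTBc : T \ {c} ⊆ Bᶜ := by
      intro t ht htB
      exact hTB (hT.eq_of_two hB (Ne.symm ht.2 : c ≠ t) ⟨hcT, hcB⟩ ⟨ht.1, htB⟩)
    have hKB : Rc31 G (T \ {c}) Bᶜ ⊆ Bᶜ := Rc31_min hTBc (fun u _ v hv _ => hv)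
    have hKc : Cn G (Rc31 G (T \ {c}) Bᶜ) := Rc31_cn (hT.1.2 c)
    obtain ⟨t, ht⟩ := hne T hT.1 hcT
    have hcK : ∃ k ∈ Rc31 G (T \ {c}) Bᶜ, G.Adj c k := by
      obtain ⟨y, hy, hcy⟩ := hT.1.exists_adj hcT
      exact ⟨y, Rc31_sub ⟨hy, fun h => hcy.ne (Eq.symm h)⟩, hcy⟩
    obtain ⟨x, hxB, hxc, hxK⟩ : ∃ x, x ∈ B ∧ x ≠ c ∧ ∃ k ∈ Rc31 G (T \ {c}) Bᶜ, G.Adj x k := by
      by_contra hno
      push Not at hno
      have h1 : Rc31 G (T \ {c}) Bᶜ ∩ D = D := by
        refine hDc _ Set.inter_subset_right ⟨t, Rc31_sub ht, hTD' ht⟩ ?_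
        intro k hk y hy hky
        refine ⟨?_, hy⟩
        by_cases hyB : y ∈ B
        · exact absurd hky.symm (hno y hyB (fun h => hcD (h ▸ hy)) k hk.1)
        · exact Rc31_cl hk.1 hky hyB
      obtain ⟨b, hb⟩ := hne B hB.1 hcB
      have h2 : b ∈ Rc31 G (T \ {c}) Bᶜ ∩ D := h1.symm ▸ hBD' hb
      exact hKB h2.1 hb.1
    exact ear31 hB hxc hxB hcB _ _ rfl hKB ⟨t, Rc31_sub ht⟩ hKc hxK hcK
  refine ⟨B, D, c, hB, h4 B hB hBD, hcD, hBD, hcl, ?_⟩
  intro T hT hTB
  exact (hT.1.side hcl).resolve_left (fun h => h5 T hT hTB h)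

end WC
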