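import Pool.Agent.Helper30.WC.C1
import Pool.Agent.Helper30.WC.C2

/-!
# Block WC-C3: copies of `G[B]` in the amalgam (MP_722e70_co)

PROOF.  Uses `descent` (C1) and the lemmas of C2 (proved in parallel).  `Am` is defined in Defs: vertices `inl w` and `inr (i, x)`; only
the vertices `inr (i, x)` with `x ≠ a, b` have neighbours.  `B` has at least three points and every point of `B` has a neighbour in `B`
(`Tc.exists_adj`), so `f x = inr (i, y)` implies `y ≠ a, b` for `x ∈ B`.
Let `U = {x ∈ B | ∃ w, f x = inl w}`.  `U` is independent in `G` (no edges `inl - inl`).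
Case 1: `U = ∅`.  Then `f x = inr (i x, g x)` for `x ∈ B`; `i` is constant on `B`, since adjacent points have the same `i` and `Cn G B`
(`Tc.cn`); `g` is injective on `B` and maps edges in `B` to edges, so `Mx G (g '' B)` by `Mx.map`; `a ∉ g '' B`, so `g '' B ≠ B`, so `g '' B ⊆ Dᶜ`
(`Choice.un`).  Done.
Case 2: `U ≠ ∅`.  We derive a contradiction.  `a` or `b` is not in `U`, say `e0 ∈ {a, b} \ U`.  Let `K` be the smallest subset of `B \ U` containing
`e0` and closed under adjacency in `B \ U` (so `Cn G K`), and `X = K ∪ {x ∈ U | x has a neighbour in K}`.  `a, b ∈ X`.  All `f x`, `x ∈ K`, are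
`inr (i, g x)` with the same `i`.  A point `x ∈ U ∩ X` has `f x = inl (α i)` or `inl (β i)` because it is adjacent to a point `inr (i, y)`.  So `U ∩ X` has at most two
points.  Define `θ x = g x` for `x ∈ K`, `θ x = a` if `f x = inl (α i)`, `θ x = b` if `f x = inl (β i)` (`α i ≠ β i`).  `θ` is injective
on `X` (`g x ≠ a, b`), and maps edges of `G` in `X` to edges of `G` (an edge between `U` and `K` goes to an edge at `a` or `b` by the definition of `Am`).
No point of `K` has a neighbour in `B \ X`.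
 Case 2a: `U ∩ X` has at most one point.  Then `X = B`: if `U ∩ X ⊆ {w}` then `K` is a nonempty closed subset of `B \ {w}` or
 of `B` (if `w ∉ X`..., take `w` = the point of `U ∩ X`, and if `U ∩ X = ∅` use `Cn G B`), so `K ⊇ B \ {w}`.  As `U ≠ ∅`, `U ∩ X = {w}` and `X = B`.
 `θ` is injective on `B` and a homomorphism on `B`, so `Mx G (θ '' B)`; exactly one of `a`, `b` is in `θ '' B` (namely `θ w`), so
 `θ '' B ≠ B`, hence `θ '' B ⊆ Dᶜ`, but `a, b ∈ D` (`BD`, `a, b ≠ c`).  Contradiction.
 Case 2b: `U ∩ X = {u, v}`, `u ≠ v`; `{θ u, θ v} = {a, b}`; by symmetry (`G.Adj` is symmetric, the amalgam with `a`, `b` and `α`, `β` exchanged) or directly, `θ u, θ v`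
 are adjacent and both in `X`.  `Cn (G ⊔ edge u v) (X \ {w})` for every `w`: let `T ⊆ X \ {w}` be nonempty and closed; let `T* = T ∪ {y ∈ B \ X, y ≠ w | u ∈ T ∨ v ∈ T}`.
 (If `w ∈ X`) `T*` is closed in `B \ {w}` under adjacency of `G`: between `B \ X` and `X` there are edges only at `u` and `v`, and `u`, `v` are adjacent in
 `G ⊔ edge u v`.  So `T* = B \ {w}` by `Mx.1`, and `T = X \ {w}`.  (If `w ∉ X` then `X \ {w} = X` and `Cn` for `X` follows in the same way from `Cn G B`:
 here `T* = T ∪ {y ∈ B \ X | u ∈ T ∨ v ∈ T}`.)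
 Also `3 ≤ X.ncard` (`u`, `v` and a point of `K`), so `Tc (G ⊔ edge u v) X`, and by `Tc.map` `Tc G (θ '' X)`.  `θ '' X` and `B` share `a ≠ b`, so
 `Tc G (B ∪ θ '' X)` and `B ∪ θ '' X = B` by `Mx.eq_of_subset`, i.e. `θ '' X ⊆ B`.
 Apply `descent` to the graph `H` with `H.Adj x y ↔ G.Adj x y ∧ x ∈ B ∧ y ∈ B` (edges outside `B` removed), `X`, `u`, `v`, `θ`: `u`, `v` not adjacent as `U` is
 independent; `hout`: a neighbour of `x ∈ K` in `B` is in `X`; the connectivity hypotheses `h1` and `h2` are the ones just shown (edges between points of `X ⊆ B`).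
-/

set_option autoImplicit false

namespace WC

open SimpleGraph

private theorem am_ll56 {V W I : Type} {G : SimpleGraph V} {a b : V} {α β : I → W} {w w' : W} :
    ¬ (Am G a b α β).Adj (Sum.inl w) (Sum.inl w') := fun h => h

private theorem am_lr56 {V W I : Type} {G : SimpleGraph V} {a b : V} {α β : I → W} {w : W} {i : I} {x : V}
    (h : (Am G a b α β).Adj (Sum.inl w) (Sum.inr (i, x))) :
    x ≠ a ∧ x ≠ b ∧ ((w = α i ∧ G.Adj a x) ∨ (w = β i ∧ G.Adj b x)) := h

private theorem am_rr56 {V W I : Type} {G : SimpleGraph V} {a b : V} {α β : I → W} {i j : I} {x y : V}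
    (h : (Am G a b α β).Adj (Sum.inr (i, x)) (Sum.inr (j, y))) :
    i = j ∧ G.Adj x y ∧ x ≠ a ∧ x ≠ b ∧ y ≠ a ∧ y ≠ b := h

/-- connectivity of a part attached at two points, after the addition of an edge -/
private theorem cn_part56 {V : Type} (G H' : SimpleGraph V) (B X Z : Set V) (u v : V) (hXB : X ⊆ B)
    (hsep : ∀ x ∈ X, x ≠ u → x ≠ v → ∀ y ∈ B, y ∉ X → ¬ G.Adj x y) (hu : u ∈ X) (hv : v ∈ X)
    (huv : H'.Adj u v) (hH : ∀ x ∈ X, ∀ y ∈ X, G.Adj x y → H'.Adj x y) (hZ : Z ⊆ X) (hc : Cn G (B \ Z)) :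
    Cn H' (X \ Z) := by
  intro T hT hTn hcl
  have hsep2 : ∀ x ∈ X, ∀ y ∈ B, y ∉ X → G.Adj x y → x = u ∨ x = v := by
    intro x hx y hy hy' hxy
    by_contra hcon
    push Not at hcon
    exact hsep x hx hcon.1 hcon.2 y hy hy' hxy
  have hS : T ∪ {y | y ∈ B ∧ y ∉ X ∧ (u ∈ T ∨ v ∈ T)} = B \ Z := by
    apply hc
    · rintro y (hy | ⟨hy, hy', -⟩)
      · exact ⟨hXB (hT hy).1, (hT hy).2⟩
      · exact ⟨hy, fun h => hy' (hZ h)⟩
    · exact hTn.mono Set.subset_union_left
    · rintro x hx y ⟨hyB, hyZ⟩ hxy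
      by_cases hyX : y ∈ X
      · left
        rcases hx with hx | ⟨hxB, hxX, hx⟩
        · exact hcl x hx y ⟨hyX, hyZ⟩ (hH x (hT hx).1 y hyX hxy)
        · rcases hsep2 y hyX x hxB hxX hxy.symm with rfl | rfl
          · rcases hx with hx | hx
            · exact hx
            · exact hcl _ hx _ ⟨hyX, hyZ⟩ huv.symm
          · rcases hx with hx | hx
            · exact hcl _ hx _ ⟨hyX, hyZ⟩ huv
            · exact hx
      · right
        refine ⟨hyB, hyX, ?_⟩
        rcases hx with hx | ⟨-, -, hx⟩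
        · rcases hsep2 x (hT hx).1 y hyB hyX hxy with rfl | rfl
          · exact Or.inl hx
          · exact Or.inr hx
        · exact hx
  apply Set.Subset.antisymm hT
  intro y hy
  have h1 : y ∈ T ∪ {y | y ∈ B ∧ y ∉ X ∧ (u ∈ T ∨ v ∈ T)} := by
    rw [hS]
    exact ⟨hXB hy.1, hy.2⟩
  rcases h1 with h | h
  · exact h
  · exact absurd hy.1 h.2.1

/-- the version without a removed point -/
private theorem cn_part0_56 {V : Type} (G H' : SimpleGraph V) (B X : Set V) (u v : V) (hXB : X ⊆ B)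
    (hsep : ∀ x ∈ X, x ≠ u → x ≠ v → ∀ y ∈ B, y ∉ X → ¬ G.Adj x y) (hu : u ∈ X) (hv : v ∈ X)
    (huv : H'.Adj u v) (hH : ∀ x ∈ X, ∀ y ∈ X, G.Adj x y → H'.Adj x y) (hc : Cn G B) :
    Cn H' X := by
  have hB : B \ (∅ : Set V) = B := Set.sdiff_empty
  have hX : X \ (∅ : Set V) = X := Set.sdiff_empty
  have h := cn_part56 G H' B X ∅ u v hXB hsep hu hv huv hH (Set.empty_subset _) (by rw [hB]; exact hc)
  rw [hX] at h
  exact h

/-- the version with one point removed, which may be outside `X` -/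
private theorem cn_part1_56 {V : Type} (G H' : SimpleGraph V) (B X : Set V) (u v : V) (hXB : X ⊆ B)
    (hsep : ∀ x ∈ X, x ≠ u → x ≠ v → ∀ y ∈ B, y ∉ X → ¬ G.Adj x y) (hu : u ∈ X) (hv : v ∈ X)
    (huv : H'.Adj u v) (hH : ∀ x ∈ X, ∀ y ∈ X, G.Adj x y → H'.Adj x y) (hc : Cn G B)
    (w : V) (hw : Cn G (B \ {w})) : Cn H' (X \ {w}) := by
  by_cases h : w ∈ X
  · exact cn_part56 G H' B X {w} u v hXB hsep hu hv huv hH (Set.singleton_subset_iff.2 h) hw
  · rw [Set.sdiff_singleton_eq_self h]
    exact cn_part0_56 G H' B X u v hXB hsep hu hv huv hH hc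

theorem claim3 {V : Type} [Finite V] {G : SimpleGraph V} {B D : Set V} {c a b : V} (hC : Choice G B D c)
    (ha : a ∈ B) (hb : b ∈ B) (hac : a ≠ c) (hbc : b ≠ c) (hab : G.Adj a b) {W I : Type} (α β : I → W)
    (hαβ : ∀ i, α i ≠ β i) (f : V → W ⊕ (I × V)) (hf : Set.InjOn f B)
    (hom : ∀ x ∈ B, ∀ y ∈ B, G.Adj x y → (Am G a b α β).Adj (f x) (f y)) :
    ∃ i, ∀ x ∈ B, ∃ y, y ∉ D ∧ f x = Sum.inr (i, y) := by
  classical
  have haD : a ∈ D := (hC.BD ha).resolve_left hac
  have hbD : b ∈ D := (hC.BD hb).resolve_left hbc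
  have hTc := hC.mx.1
  have hCn : Cn G B := hTc.cn
  have hlabel : ∀ x ∈ B, ∀ i y, f x = Sum.inr (i, y) → y ≠ a ∧ y ≠ b := by
    intro x hx i y hfx
    obtain ⟨z, hz, hxz⟩ := hTc.exists_adj hx
    have h := hom x hx z hz hxz
    rcases hfz : f z with w | ⟨j, y'⟩
    · rw [hfx, hfz] at h
      have h1 := am_lr56 h.symm
      exact ⟨h1.1, h1.2.1⟩
    · rw [hfx, hfz] at h
      have h1 := am_rr56 h
      exact ⟨h1.2.2.1, h1.2.2.2.1⟩
  by_cases hU : ∃ x ∈ B, ∃ w, f x = Sum.inl w
  · -- case 2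
    exfalso
    -- the point `e0`
    obtain ⟨e0, e1, he0, he1, he01, i, y0, hfe0⟩ : ∃ e0 e1, e0 ∈ B ∧ e1 ∈ B ∧
        ((e0 = a ∧ e1 = b) ∨ (e0 = b ∧ e1 = a)) ∧ ∃ i y, f e0 = Sum.inr (i, y) := by
      rcases hfa : f a with w | ⟨i, y⟩
      · rcases hfb : f b with w' | ⟨i, y⟩
        · have h := hom a ha b hb hab
          rw [hfa, hfb] at h
          exact absurd h am_ll56
        · exact ⟨b, a, hb, ha, Or.inr ⟨rfl, rfl⟩, i, y, hfb⟩
      · exact ⟨a, b, ha, hb, Or.inl ⟨rfl, rfl⟩, i, y, hfa⟩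
    have he01adj : G.Adj e0 e1 := by
      rcases he01 with ⟨rfl, rfl⟩ | ⟨rfl, rfl⟩
      · exact hab
      · exact hab.symm
    -- the set `K`
    obtain ⟨K, hKdef⟩ : ∃ K : Set V, K = {x | ∀ T : Set V, e0 ∈ T →
        (∀ p ∈ T, ∀ q ∈ B, (∀ w, f q ≠ Sum.inl w) → G.Adj p q → q ∈ T) → x ∈ T} := ⟨_, rfl⟩
    have hKe : e0 ∈ K := by
      rw [hKdef]
      exact fun T hT _ => hT
    have hKcl : ∀ p ∈ K, ∀ q ∈ B, (∀ w, f q ≠ Sum.inl w) → G.Adj p q → q ∈ K := by
      intro p hp q hq hqU hpq
      rw [hKdef] at hp ⊢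
      intro T hT hTcl
      exact hTcl p (hp T hT hTcl) q hq hqU hpq
    have hKi : ∀ x ∈ K, x ∈ B ∧ ∃ y, f x = Sum.inr (i, y) := by
      intro x hx
      rw [hKdef] at hx
      apply hx {x | x ∈ B ∧ ∃ y, f x = Sum.inr (i, y)} ⟨he0, y0, hfe0⟩
      rintro p ⟨hp, y, hy⟩ q hq hqU hpq
      refine ⟨hq, ?_⟩
      rcases hfq : f q with w | ⟨j, y'⟩
      · exact absurd hfq (hqU w)
      · have h := hom p hp q hq hpq
        rw [hy, hfq] at h
        have h1 := am_rr56 h
        exact ⟨y', by rw [h1.1]⟩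
    -- the set `X`
    obtain ⟨X, hXdef⟩ : ∃ X : Set V, X = K ∪ {x | x ∈ B ∧ (∃ w, f x = Sum.inl w) ∧ ∃ z ∈ K, G.Adj x z} :=
      ⟨_, rfl⟩
    have hKX : K ⊆ X := by
      rw [hXdef]
      exact Set.subset_union_left
    have hXB : X ⊆ B := by
      intro x hx
      rw [hXdef] at hx
      rcases hx with hx | hx
      · exact (hKi x hx).1
      · exact hx.1
    have hXU : ∀ x ∈ X, ∀ w, f x = Sum.inl w → w = α i ∨ w = β i := by
      intro x hx w hw
      rw [hXdef] at hx
      rcases hx with hx | ⟨hxB, -, z, hz, hxz⟩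
      · obtain ⟨-, y, hy⟩ := hKi x hx
        rw [hy] at hw
        exact absurd hw (by simp)
      · obtain ⟨hzB, y, hy⟩ := hKi z hz
        have h := hom x hxB z hzB hxz
        rw [hw, hy] at h
        rcases (am_lr56 h).2.2 with h1 | h1
        · exact Or.inl h1.1
        · exact Or.inr h1.1
    have hXK : ∀ x ∈ X, (∀ w, f x ≠ Sum.inl w) → x ∈ K := by
      intro x hx hxU
      rw [hXdef] at hx
      rcases hx with hx | ⟨-, ⟨w, hw⟩, -⟩
      · exact hx
      · exact absurd hw (hxU w)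
    have hKnbr : ∀ x ∈ K, ∀ y ∈ B, G.Adj x y → y ∈ X := by
      intro x hx y hy hxy
      by_cases hyU : ∃ w, f y = Sum.inl w
      · rw [hXdef]
        exact Or.inr ⟨hy, hyU, x, hx, hxy.symm⟩
      · push Not at hyU
        exact hKX (hKcl x hx y hy hyU hxy)
    have he0X : e0 ∈ X := hKX hKe
    have he1X : e1 ∈ X := hKnbr e0 hKe e1 he1 he01adj
    have haX : a ∈ X := by
      rcases he01 with ⟨rfl, rfl⟩ | ⟨rfl, rfl⟩
      · exact he0X
      · exact he1X
    have hbX : b ∈ X := by
      rcases he01 with ⟨rfl, rfl⟩ | ⟨rfl, rfl⟩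
      · exact he1X
      · exact he0X
    -- the map `θ`
    obtain ⟨θ, hθdef⟩ : ∃ θ : V → V, θ = fun x => Sum.elim (fun w => if w = α i then a else b) Prod.snd (f x) :=
      ⟨_, rfl⟩
    have hθr : ∀ x j y, f x = Sum.inr (j, y) → θ x = y := by
      intro x j y h
      rw [hθdef]
      simp only [h, Sum.elim_inr]
    have hθa : ∀ x, f x = Sum.inl (α i) → θ x = a := by
      intro x h
      rw [hθdef]
      simp only [h, Sum.elim_inl, if_true]
    have hθb : ∀ x, f x = Sum.inl (β i) → θ x = b := by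
      intro x h
      rw [hθdef]
      simp only [h, Sum.elim_inl, if_neg (hαβ i).symm]
    have hθK : ∀ x ∈ K, f x = Sum.inr (i, θ x) ∧ θ x ≠ a ∧ θ x ≠ b := by
      intro x hx
      obtain ⟨hxB, y, hy⟩ := hKi x hx
      rw [hθr x i y hy]
      exact ⟨hy, hlabel x hxB i y hy⟩
    have hθU : ∀ x ∈ X, (∃ w, f x = Sum.inl w) → (f x = Sum.inl (α i) ∧ θ x = a) ∨ (f x = Sum.inl (β i) ∧ θ x = b) := by
      rintro x hx ⟨w, hw⟩
      rcases hXU x hx w hw with rfl | rfl
      · exact Or.inl ⟨hw, hθa x hw⟩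
      · exact Or.inr ⟨hw, hθb x hw⟩
    have hθinj : Set.InjOn θ X := by
      intro x hx y hy hxy
      by_cases hxU : ∃ w, f x = Sum.inl w
      · by_cases hyU : ∃ w, f y = Sum.inl w
        · rcases hθU x hx hxU with ⟨h1, h2⟩ | ⟨h1, h2⟩
          · rcases hθU y hy hyU with ⟨h3, h4⟩ | ⟨h3, h4⟩
            · exact hf (hXB hx) (hXB hy) (h1.trans h3.symm)
            · exact absurd (h2.symm.trans (hxy.trans h4)) hab.ne
          · rcases hθU y hy hyU with ⟨h3, h4⟩ | ⟨h3, h4⟩
            · exact absurd (h2.symm.trans (hxy.trans h4)) hab.ne.symm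
            · exact hf (hXB hx) (hXB hy) (h1.trans h3.symm)
        · push Not at hyU
          have h1 := hθK y (hXK y hy hyU)
          rcases hθU x hx hxU with ⟨-, h2⟩ | ⟨-, h2⟩
          · exact absurd (hxy.symm.trans h2) h1.2.1
          · exact absurd (hxy.symm.trans h2) h1.2.2
      · push Not at hxU
        have h1 := hθK x (hXK x hx hxU)
        by_cases hyU : ∃ w, f y = Sum.inl w
        · rcases hθU y hy hyU with ⟨-, h2⟩ | ⟨-, h2⟩
          · exact absurd (hxy.trans h2) h1.2.1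
          · exact absurd (hxy.trans h2) h1.2.2
        · push Not at hyU
          have h3 := hθK y (hXK y hy hyU)
          apply hf (hXB hx) (hXB hy)
          rw [h1.1, h3.1, hxy]
    have hθ1 : ∀ x ∈ X, ∀ y ∈ K, G.Adj x y → (∃ w, f x = Sum.inl w) → G.Adj (θ x) (θ y) := by
      intro x hx y hy hxy hxU
      have h := hom x (hXB hx) y (hXB (hKX hy)) hxy
      have h1 := hθK y hy
      rcases hθU x hx hxU with ⟨h2, h3⟩ | ⟨h2, h3⟩
      · rw [h2, h1.1] at h
        rcases (am_lr56 h).2.2 with h4 | h4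
        · rw [h3]
          exact h4.2
        · exact absurd h4.1 (hαβ i)
      · rw [h2, h1.1] at h
        rcases (am_lr56 h).2.2 with h4 | h4
        · exact absurd h4.1.symm (hαβ i)
        · rw [h3]
          exact h4.2
    have hθhom : ∀ x ∈ X, ∀ y ∈ X, G.Adj x y → G.Adj (θ x) (θ y) := by
      intro x hx y hy hxy
      by_cases hxU : ∃ w, f x = Sum.inl w
      · by_cases hyU : ∃ w, f y = Sum.inl w
        · obtain ⟨w, hw⟩ := hxU
          obtain ⟨w', hw'⟩ := hyU
          have h := hom x (hXB hx) y (hXB hy) hxy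
          rw [hw, hw'] at h
          exact absurd h am_ll56
        · push Not at hyU
          exact hθ1 x hx y (hXK y hy hyU) hxy hxU
      · by_cases hyU : ∃ w, f y = Sum.inl w
        · push Not at hxU
          exact (hθ1 y hy x (hXK x hx hxU) hxy.symm hyU).symm
        · push Not at hxU hyU
          have h := hom x (hXB hx) y (hXB hy) hxy
          rw [(hθK x (hXK x hx hxU)).1, (hθK y (hXK y hy hyU)).1] at h
          exact (am_rr56 h).2.1
    by_cases h2b : ∃ u ∈ X, ∃ v ∈ X, u ≠ v ∧ (∃ w, f u = Sum.inl w) ∧ (∃ w, f v = Sum.inl w)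
    · -- case 2b
      obtain ⟨u, hu, v, hv, huv, huU, hvU⟩ := h2b
      have huvab : (θ u = a ∧ θ v = b) ∨ (θ u = b ∧ θ v = a) := by
        have hne : θ u ≠ θ v := fun h => huv (hθinj hu hv h)
        rcases hθU u hu huU with ⟨-, h2⟩ | ⟨-, h2⟩
        · rcases hθU v hv hvU with ⟨-, h4⟩ | ⟨-, h4⟩
          · exact absurd (h2.trans h4.symm) hne
          · exact Or.inl ⟨h2, h4⟩
        · rcases hθU v hv hvU with ⟨-, h4⟩ | ⟨-, h4⟩
          · exact Or.inr ⟨h2, h4⟩
          · exact absurd (h2.trans h4.symm) hne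
      have hXuv : ∀ x ∈ X, x ≠ u → x ≠ v → x ∈ K := by
        intro x hx hxu hxv
        apply hXK x hx
        intro w hw
        have h1 : θ x = θ u ∨ θ x = θ v := by
          rcases hθU x hx ⟨w, hw⟩ with ⟨-, h2⟩ | ⟨-, h2⟩
          · rcases huvab with ⟨h3, h4⟩ | ⟨h3, h4⟩
            · exact Or.inl (h2.trans h3.symm)
            · exact Or.inr (h2.trans h4.symm)
          · rcases huvab with ⟨h3, h4⟩ | ⟨h3, h4⟩
            · exact Or.inr (h2.trans h4.symm)
            · exact Or.inl (h2.trans h3.symm)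
        rcases h1 with h1 | h1
        · exact hxu (hθinj hx hu h1)
        · exact hxv (hθinj hx hv h1)
      have hsep : ∀ x ∈ X, x ≠ u → x ≠ v → ∀ y ∈ B, y ∉ X → ¬ G.Adj x y := by
        intro x hx hxu hxv y hy hyX hxy
        exact hyX (hKnbr x (hXuv x hx hxu hxv) y hy hxy)
      have hθadj : G.Adj (θ u) (θ v) := by
        rcases huvab with ⟨h3, h4⟩ | ⟨h3, h4⟩
        · rw [h3, h4]
          exact hab
        · rw [h3, h4]
          exact hab.symm
      have hedge : (G ⊔ SimpleGraph.edge u v).Adj u v := by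
        right
        rw [SimpleGraph.edge_adj]
        exact ⟨Or.inl ⟨rfl, rfl⟩, huv⟩
      have hXTc : Tc (G ⊔ SimpleGraph.edge u v) X := by
        refine ⟨?_, fun w => ?_⟩
        · have hue : u ≠ e0 := by
            rintro rfl
            obtain ⟨w, hw⟩ := huU
            rw [hfe0] at hw
            exact absurd hw (by simp)
          have hve : v ≠ e0 := by
            rintro rfl
            obtain ⟨w, hw⟩ := hvU
            rw [hfe0] at hw
            exact absurd hw (by simp)
          have hsub : ({u, v, e0} : Set V) ⊆ X := by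
            rintro x (rfl | rfl | hx)
            · exact hu
            · exact hv
            · rw [Set.mem_singleton_iff] at hx
              rw [hx]
              exact he0X
          have h3 : ({u, v, e0} : Set V).ncard = 3 := by
            rw [Set.ncard_eq_toFinset_card']
            simp [huv, hue, hve]
          rw [← h3]
          exact Set.ncard_le_ncard hsub X.toFinite
        · exact cn_part1_56 G _ B X u v hXB hsep hu hv hedge (fun x _ y _ h => Or.inl h) hCn w (hTc.2 w)
      have hTcθ : Tc G (θ '' X) := by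
        refine hXTc.map θ hθinj fun x hx y hy h => ?_
        rcases h with h | h
        · exact hθhom x hx y hy h
        · rw [SimpleGraph.edge_adj] at h
          rcases h.1 with ⟨rfl, rfl⟩ | ⟨rfl, rfl⟩
          · exact hθadj
          · exact hθadj.symm
      have haθ : a ∈ θ '' X := by
        rcases huvab with ⟨h3, h4⟩ | ⟨h3, h4⟩
        · exact ⟨u, hu, h3⟩
        · exact ⟨v, hv, h4⟩
      have hbθ : b ∈ θ '' X := by
        rcases huvab with ⟨h3, h4⟩ | ⟨h3, h4⟩
        · exact ⟨v, hv, h4⟩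
        · exact ⟨u, hu, h3⟩
      have hunion : B ∪ θ '' X = B :=
        hC.mx.eq_of_subset (hTc.union hTcθ hab.ne ⟨ha, haθ⟩ ⟨hb, hbθ⟩) Set.subset_union_left
      have hθB : ∀ x ∈ X, θ x ∈ B := by
        intro x hx
        rw [← hunion]
        exact Or.inr ⟨x, hx, rfl⟩
      let H : SimpleGraph V :=
        { Adj := fun x y => G.Adj x y ∧ x ∈ B ∧ y ∈ B
          symm := ⟨fun x y h => ⟨h.1.symm, h.2.2, h.2.1⟩⟩
          loopless := ⟨fun x h => G.loopless.irrefl x h.1⟩ }
      have hHedge : (H ⊔ SimpleGraph.edge u v).Adj u v := by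
        right
        rw [SimpleGraph.edge_adj]
        exact ⟨Or.inl ⟨rfl, rfl⟩, huv⟩
      have hHG : ∀ x ∈ X, ∀ y ∈ X, G.Adj x y → (H ⊔ SimpleGraph.edge u v).Adj x y :=
        fun x hx y hy h => Or.inl ⟨h, hXB hx, hXB hy⟩
      have hθuX : θ u ∈ X := by
        rcases huvab with ⟨h3, h4⟩ | ⟨h3, h4⟩
        · rw [h3]
          exact haX
        · rw [h3]
          exact hbX
      have hθvX : θ v ∈ X := by
        rcases huvab with ⟨h3, h4⟩ | ⟨h3, h4⟩
        · rw [h4]
          exact hbX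
        · rw [h4]
          exact haX
      refine descent H X u v θ hu hv huv ?_ ?_ hθinj ?_ hθuX hθvX ⟨hθadj, hXB hθuX, hXB hθvX⟩ ?_ ?_
      · rintro ⟨h, -, -⟩
        obtain ⟨w, hw⟩ := huU
        obtain ⟨w', hw'⟩ := hvU
        have h1 := hom u (hXB hu) v (hXB hv) h
        rw [hw, hw'] at h1
        exact absurd h1 am_ll56
      · rintro x hx hxu hxv y hy ⟨h, -, hyB⟩
        exact hsep x hx hxu hxv y hyB hy h
      · rintro x hx y hy ⟨h, -, -⟩
        exact ⟨hθhom x hx y hy h, hθB x hx, hθB y hy⟩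
      · exact cn_part0_56 G _ B X u v hXB hsep hu hv hHedge hHG hCn
      · intro w
        exact cn_part1_56 G _ B X u v hXB hsep hu hv hHedge hHG hCn w (hTc.2 w)
    · -- case 2a
      push Not at h2b
      by_cases hXU1 : ∃ w1 ∈ X, ∃ w, f w1 = Sum.inl w
      · obtain ⟨w1, hw1X, hw1U⟩ := hXU1
        have hKw1 : w1 ∉ K := by
          intro h
          obtain ⟨-, y, hy⟩ := hKi w1 h
          obtain ⟨w, hw⟩ := hw1U
          rw [hy] at hw
          exact absurd hw (by simp)
        have hXw1 : ∀ x ∈ X, x ≠ w1 → x ∈ K := by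
          intro x hx hxw
          apply hXK x hx
          intro w hw
          obtain ⟨w', hw'⟩ := hw1U
          exact h2b x hx w1 hw1X hxw ⟨w, hw⟩ w' hw'
        have hKB : K = B \ {w1} := by
          apply hTc.2 w1 K
          · intro x hx
            refine ⟨hXB (hKX hx), fun h => hKw1 ?_⟩
            rw [Set.mem_singleton_iff] at h
            rw [← h]
            exact hx
          · exact ⟨e0, hKe⟩
          · rintro x hx y ⟨hy, hyw⟩ hxy
            exact hXw1 y (hKnbr x hx y hy hxy) (fun h => hyw h)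
        have hXeq : X = B := by
          apply Set.Subset.antisymm hXB
          intro x hx
          by_cases hxw : x = w1
          · rw [hxw]
            exact hw1X
          · apply hKX
            rw [hKB]
            exact ⟨hx, hxw⟩
        rw [hXeq] at hθinj hθhom hXw1 hθU
        have hw1B : w1 ∈ B := hXeq ▸ hw1X
        have hMx := hC.mx.map θ hθinj hθhom
        have hθw1 : θ w1 = a ∨ θ w1 = b := by
          rcases hθU w1 hw1B hw1U with ⟨-, h⟩ | ⟨-, h⟩
          · exact Or.inl h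
          · exact Or.inr h
        have hnab : ∀ x ∈ B, x ≠ w1 → θ x ≠ a ∧ θ x ≠ b := fun x hx hxw => (hθK x (hXw1 x hx hxw)).2
        have hne : θ '' B ≠ B := by
          intro h
          rcases hθw1 with h1 | h1
          · have h2 : b ∈ θ '' B := by
              rw [h]
              exact hb
            obtain ⟨x, hx, hxb⟩ := h2
            by_cases hxw : x = w1
            · rw [hxw, h1] at hxb
              exact hab.ne hxb
            · exact (hnab x hx hxw).2 hxb
          · have h2 : a ∈ θ '' B := by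
              rw [h]
              exact ha
            obtain ⟨x, hx, hxa⟩ := h2
            by_cases hxw : x = w1
            · rw [hxw, h1] at hxa
              exact hab.ne hxa.symm
            · exact (hnab x hx hxw).1 hxa
        have h3 := hC.un _ hMx hne ⟨w1, hw1B, rfl⟩
        rcases hθw1 with h1 | h1
        · rw [h1] at h3
          exact h3 haD
        · rw [h1] at h3
          exact h3 hbD
      · push Not at hXU1
        have hKB : K = B := by
          apply hCn K
          · exact fun x hx => hXB (hKX hx)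
          · exact ⟨e0, hKe⟩
          · intro x hx y hy hxy
            have hyX := hKnbr x hx y hy hxy
            exact hXK y hyX (hXU1 y hyX)
        obtain ⟨x, hx, w, hw⟩ := hU
        rw [← hKB] at hx
        exact hXU1 x (hKX hx) w hw
  · -- case 1
    push Not at hU
    have hex : ∀ x ∈ B, ∃ i y, f x = Sum.inr (i, y) := by
      intro x hx
      rcases hfx : f x with w | ⟨i, y⟩
      · exact absurd hfx (hU x hx w)
      · exact ⟨i, y, rfl⟩
    obtain ⟨i0, y0, hfa⟩ := hex a ha
    have hT : {x | x ∈ B ∧ ∃ y, f x = Sum.inr (i0, y)} = B := by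
      apply hCn
      · exact fun x hx => hx.1
      · exact ⟨a, ha, y0, hfa⟩
      · rintro x ⟨hx, y, hy⟩ z hz hxz
        refine ⟨hz, ?_⟩
        obtain ⟨j, y', hy'⟩ := hex z hz
        have h := hom x hx z hz hxz
        rw [hy, hy'] at h
        have h1 := am_rr56 h
        exact ⟨y', by rw [hy', h1.1]⟩
    have hex2 : ∀ x ∈ B, ∃ y, f x = Sum.inr (i0, y) := by
      intro x hx
      rw [← hT] at hx
      exact hx.2
    obtain ⟨g, hgdef⟩ : ∃ g : V → V, g = fun x => Sum.elim (fun _ => a) Prod.snd (f x) := ⟨_, rfl⟩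
    have hg : ∀ x ∈ B, f x = Sum.inr (i0, g x) := by
      intro x hx
      obtain ⟨y, hy⟩ := hex2 x hx
      rw [hgdef]
      simp only [hy, Sum.elim_inr]
    have hginj : Set.InjOn g B := by
      intro x hx y hy hxy
      apply hf hx hy
      rw [hg x hx, hg y hy, hxy]
    have hghom : ∀ x ∈ B, ∀ y ∈ B, G.Adj x y → G.Adj (g x) (g y) := by
      intro x hx y hy hxy
      have h := hom x hx y hy hxy
      rw [hg x hx, hg y hy] at h
      exact (am_rr56 h).2.1
    have hMx := hC.mx.map g hginj hghom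
    have hne : g '' B ≠ B := by
      intro h
      have h1 : a ∈ g '' B := by
        rw [h]
        exact ha
      obtain ⟨x, hx, hxa⟩ := h1
      exact (hlabel x hx i0 (g x) (hg x hx)).1 hxa
    have h3 := hC.un _ hMx hne
    exact ⟨i0, fun x hx => ⟨g x, h3 ⟨x, hx, rfl⟩, hg x hx⟩⟩

end WC
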