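import Pool.Agent.Helper30.WC.Defs

/-!
# Block WC-C4a: the orbit lemma (MP_722e70_co)

PROOF.  `d = G.dist`.  `z` separates `S \ {z}` from the complement of `S`.
(1) For `x ∈ S`, `y ∉ S`: `d x y = d x z + d z y` (a walk from `x` to `y` passes through `z`: the first vertex outside `S` comes after `z`).
(2) For `x, y ∈ S`: `d (ψ x) (ψ y) ≤ d x y`: a shortest walk from `x` to `y` stays in `S` (otherwise it leaves `S` after `z` and comes back through `z`, and
can be shortened; or: by induction on the length, every walk in `G` between points of `S` can be replaced by one in `S` which is not longer), and `ψ` maps it to a walk.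
(3) Suppose some iterate leaves `S`; let `N` be minimal with `y_N := ψ^[N] z ∉ S`.  `N ≥ 2` since `y_0 = z`, `y_1 = c ∈ S`.
 Let `k = d z c = d y_0 y_1`.  By (2), `d y_{N-1} y_N ≤ d y_{N-2} y_{N-1} ≤ ... ≤ k`.  By (1) `d y_{N-1} z + d z y_N = d y_{N-1} y_N ≤ k`.
 By (1) and (2) `k + d z y_N = d c z + d z y_N = d c y_N = d (ψ z) (ψ y_{N-1}) ≤ d z y_{N-1}`.  Together `2 d z y_N ≤ 0`, so `y_N = z ∈ S`, a contradiction.
(4) So all iterates are in `S`; `V` is finite, so `ψ^[m] z = ψ^[m'] z` for some `m < m'`, and by injectivity on `S` `z = ψ^[m' - m] z`.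
-/

set_option autoImplicit false

namespace WC

open SimpleGraph

private theorem lenA42 {V : Type} {G : SimpleGraph V} {S : Set V} {z : V} (hG : G.Connected)
    (hsep : ∀ x ∈ S, x ≠ z → ∀ y, y ∉ S → ¬ G.Adj x y) {x y : V} (w : G.Walk x y) :
    x ∈ S → y ∉ S → G.dist x z + G.dist z y ≤ w.length := by
  induction w with
  | nil => exact fun h h' => absurd h h'
  | @cons u v t hadj rest ih =>
    intro hx hy
    by_cases hxz : u = z
    · subst hxz
      rw [SimpleGraph.dist_self, zero_add]
      exact SimpleGraph.dist_le _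
    · have hv : v ∈ S := by
        by_contra hc
        exact hsep u hx hxz v hc hadj
      have h1 := ih hv hy
      have h2 := hG.dist_triangle (u := u) (v := v) (w := z)
      have h3 : G.dist u v = 1 := SimpleGraph.dist_eq_one_iff_adj.2 hadj
      rw [SimpleGraph.Walk.length_cons]
      omega

private theorem lenB42 {V : Type} {G : SimpleGraph V} {S : Set V} {z : V} {ψ : V → V} (hG : G.Connected) (hz : z ∈ S)
    (hsep : ∀ x ∈ S, x ≠ z → ∀ y, y ∉ S → ¬ G.Adj x y)
    (hhom : ∀ x ∈ S, ∀ y ∈ S, G.Adj x y → G.Adj (ψ x) (ψ y)) (n : ℕ) :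
    ∀ (x y : V) (w : G.Walk x y), w.length ≤ n → x ∈ S → y ∈ S → G.dist (ψ x) (ψ y) ≤ w.length := by
  induction n with
  | zero =>
    intro x y w hw _ _
    have h1 := SimpleGraph.Walk.eq_of_length_eq_zero (Nat.le_zero.1 hw)
    subst h1
    rw [SimpleGraph.dist_self]
    exact Nat.zero_le _
  | succ n ih =>
    intro x y w hw hx hy
    cases w with
    | nil =>
      rw [SimpleGraph.dist_self]
      exact Nat.zero_le _
    | @cons _ v _ hadj rest =>
      rw [SimpleGraph.Walk.length_cons] at hw ⊢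
      by_cases hv : v ∈ S
      · have h1 := ih v y rest (by omega) hv hy
        have h2 := hG.dist_triangle (u := ψ x) (v := ψ v) (w := ψ y)
        have h3 : G.dist (ψ x) (ψ v) = 1 := SimpleGraph.dist_eq_one_iff_adj.2 (hhom x hx v hv hadj)
        omega
      · have hxz : x = z := by
          by_contra hc
          exact hsep x hx hc v hv hadj
        subst hxz
        have h1 := lenA42 hG hsep rest.reverse hy hv
        rw [SimpleGraph.Walk.length_reverse] at h1
        obtain ⟨w', hw'⟩ := hG.exists_walk_length_eq_dist x y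
        have h2 := ih x y w' (by
          rw [hw', SimpleGraph.dist_comm]
          omega) hx hy
        have h3 : G.dist x y = G.dist y x := SimpleGraph.dist_comm
        omega

theorem orbit {V : Type} [Finite V] (G : SimpleGraph V) (hG : G.Connected) (S : Set V) (z : V) (ψ : V → V) (hz : z ∈ S)
    (hc : ψ z ∈ S) (hsep : ∀ x ∈ S, x ≠ z → ∀ y, y ∉ S → ¬ G.Adj x y) (hinj : Set.InjOn ψ S)
    (hhom : ∀ x ∈ S, ∀ y ∈ S, G.Adj x y → G.Adj (ψ x) (ψ y)) :
    (∀ n : ℕ, ψ^[n] z ∈ S) ∧ ∃ p : ℕ, 1 ≤ p ∧ ψ^[p] z = z := by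
  classical
  have hd : ∀ x ∈ S, ∀ y, y ∉ S → G.dist x z + G.dist z y ≤ G.dist x y := by
    intro x hx y hy
    obtain ⟨w, hw⟩ := hG.exists_walk_length_eq_dist x y
    rw [← hw]
    exact lenA42 hG hsep w hx hy
  have hl : ∀ x ∈ S, ∀ y ∈ S, G.dist (ψ x) (ψ y) ≤ G.dist x y := by
    intro x hx y hy
    obtain ⟨w, hw⟩ := hG.exists_walk_length_eq_dist x y
    rw [← hw]
    exact lenB42 hG hz hsep hhom _ x y w le_rfl hx hy
  have hall : ∀ n : ℕ, ψ^[n] z ∈ S := by
    by_contra hcon
    push Not at hcon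
    have hN : ψ^[Nat.find hcon] z ∉ S := Nat.find_spec hcon
    have hm : ∀ m, m < Nat.find hcon → ψ^[m] z ∈ S := fun m hm => by
      have := Nat.find_min hcon hm
      exact not_not.1 this
    obtain ⟨N, hNe⟩ : ∃ N, N = Nat.find hcon := ⟨_, rfl⟩
    rw [← hNe] at hN hm
    have h2 : 2 ≤ N := by
      by_contra h
      have h3 : N = 0 ∨ N = 1 := by omega
      rcases h3 with h3 | h3
      · rw [h3] at hN
        exact hN hz
      · rw [h3] at hN
        exact hN hc
    have hk : ∀ m, m + 1 ≤ N → G.dist (ψ^[m] z) (ψ^[m + 1] z) ≤ G.dist z (ψ z) := by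
      intro m
      induction m with
      | zero => exact fun _ => le_rfl
      | succ m ih =>
        intro hmN
        refine le_trans ?_ (ih (by omega))
        rw [Function.iterate_succ_apply' ψ (m + 1), Function.iterate_succ_apply' ψ m]
        have h4 := hl (ψ^[m] z) (hm m (by omega)) (ψ^[m + 1] z) (hm (m + 1) (by omega))
        rw [Function.iterate_succ_apply' ψ m] at h4
        exact h4
    obtain ⟨M, rfl⟩ : ∃ M, N = M + 1 := ⟨N - 1, by omega⟩
    have h3 := hk M le_rfl
    have h4 := hd (ψ^[M] z) (hm M (by omega)) _ hN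
    have h5 := hd (ψ z) hc _ hN
    have h6 : G.dist (ψ z) (ψ^[M + 1] z) ≤ G.dist z (ψ^[M] z) := by
      rw [Function.iterate_succ_apply' ψ M]
      exact hl z hz (ψ^[M] z) (hm M (by omega))
    have h7 : G.dist z (ψ z) = G.dist (ψ z) z := SimpleGraph.dist_comm
    have h8 : G.dist z (ψ^[M] z) = G.dist (ψ^[M] z) z := SimpleGraph.dist_comm
    have h9 : G.dist z (ψ^[M + 1] z) = 0 := by omega
    have h10 : z = ψ^[M + 1] z := (hG z (ψ^[M + 1] z)).dist_eq_zero_iff.1 h9
    rw [← h10] at hN
    exact hN hz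
  refine ⟨hall, ?_⟩
  have hni : ¬ Function.Injective fun n : ℕ => ψ^[n] z := not_injective_infinite_finite _
  have key : ∀ m m' : ℕ, ψ^[m] z = ψ^[m + m'] z → z = ψ^[m'] z := by
    intro m
    induction m with
    | zero =>
      intro m' h
      rwa [zero_add] at h
    | succ m ih =>
      intro m' h
      refine ih m' (hinj (hall m) (hall (m + m')) ?_)
      rw [← Function.iterate_succ_apply' ψ m, ← Function.iterate_succ_apply' ψ (m + m'), h]
      congr 2
      omega
  have hex : ∃ m m' : ℕ, m < m' ∧ ψ^[m] z = ψ^[m'] z := by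
    by_contra hcon
    push Not at hcon
    refine hni fun x y hxy => ?_
    rcases lt_trichotomy x y with h | h | h
    · exact absurd hxy (hcon x y h)
    · exact h
    · exact absurd hxy.symm (hcon y x h)
  obtain ⟨m, m', hmm, he⟩ := hex
  refine ⟨m' - m, by omega, (key m (m' - m) ?_).symm⟩
  rw [he]
  congr 2
  omega

end WC
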