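import Pool.Agent.Helper30.WC.C2d
import Pool.Agent.Helper30.WC.C3
import Pool.Agent.Helper30.WC.C4a

/-!
# Block WC-C4b: Theorem A (MP_722e70_co)

PROOF.  `exists_Tc` and `exists_choice` give `B, D, c`.  `B \ {c}` is connected (`Mx.1.2 c`) with at least two points, so it contains
an edge `ab` (take `a ∈ B \ {c}`; if `a` had no neighbour in `B \ {c}` then `{a}` would be closed).  `a, b ∈ D` by `BD`.
Suppose `G ⊑ Am G a b α β`, i.e. there is an injective homomorphism `φ : V → W ⊕ (I × V)`.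
Every vertex of `G` has a neighbour (`G` is connected and has at least two vertices), so `φ x = inr (i, y)` implies `y ≠ a, b`.
By `claim3` for `φ` there is `i` with `φ '' B ⊆ {inr (i, y) | y ∉ D}`.  Let `S = {x | ∃ y, y ∉ D ∧ φ x = inr (i, y)}`; `B ⊆ S`, so `c ∈ S`.
`ψ x = y` if `φ x = inr (i, y)` (anything otherwise): `ψ` is injective on `S`, a homomorphism on `S`, and `ψ x ∉ D` for `x ∈ S`.
`S ≠ univ`: otherwise `ψ` is an injective map of the finite set `V` into `Dᶜ`, but `a ∈ D`.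
If `x ∈ S`, `y ∉ S`, `G.Adj x y` then `ψ x = c`: `φ x = inr (i, x')`, `x' ∉ D`; `φ y = inl w` with `G.Adj a x'` or `G.Adj b x'`: as `a, b ∈ D` and
`D` is closed at `c`, `x' = c`; or `φ y = inr (i, y')` with `y' ∈ D`, `G.Adj x' y'`: again `x' = c`.  As `G` is connected and `S` is neither empty
nor everything there is such a pair; so there is `z ∈ S` with `ψ z = c`, and it is unique; `hsep` holds.  `ψ z = c ∈ S`.
`orbit` applies: `y_n = ψ^[n] z ∈ S`, `y_p = z`, `p ≥ 1`.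
For `x : V` let `μ x` be the number of sets `T` with `x ∈ T` which are copies: `T = g '' B`, `g : V → V` injective on `B`, mapping edges of `G` in `B` to edges.
 Such a `T` satisfies `Mx G T` (`Mx.map`).
 (i) If `x ∈ S` and `T` is a copy with `x ∈ T` then `T ⊆ S`: if `x ≠ z`, use `Tc.side`-like argument (`T` meets `S \ {z}`; if `y ∈ T \ S` then `T ∩ S \ {z}` is closed in
 `T \ {z}`, nonempty, and misses `y`).  If `x = z`: `claim3` for `φ ∘ g` gives `j` with `φ '' T ⊆ {inr (j, y) | y ∉ D}`, and `φ z = inr (i, c)`, so `j = i` and `T ⊆ S`.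
 (ii) For a copy `T ⊆ S`, `ψ '' T` is a copy contained in `Dᶜ`.
 So `T ↦ ψ '' T` is injective from the copies containing `x` to the copies containing `ψ x`, for `x ∈ S`: `μ x ≤ μ (ψ x)`; and for `x = z` the set `B` (a
 copy containing `c = ψ z`, not contained in `Dᶜ`) is not in the image, so `μ z < μ (ψ z)`.
 Hence `μ z < μ y_1 ≤ μ y_2 ≤ ... ≤ μ y_p = μ z`, a contradiction.
-/

set_option autoImplicit false

namespace WC

open SimpleGraph

private theorem exit63 {V : Type} {G : SimpleGraph V} (hG : G.Connected) {S : Set V} {x y : V} (hx : x ∈ S) (hy : y ∉ S) :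
    ∃ u v, u ∈ S ∧ v ∉ S ∧ G.Adj u v := by
  obtain ⟨p⟩ := hG.preconnected x y
  obtain ⟨d, -, h1, h2⟩ := p.exists_boundary_dart S hx hy
  exact ⟨d.fst, d.snd, h1, h2, d.adj⟩

/-- The set `T` is a copy of `B`. -/
private def Cop63 {V : Type} (G : SimpleGraph V) (B T : Set V) : Prop :=
  ∃ g : V → V, Set.InjOn g B ∧ (∀ x ∈ B, ∀ y ∈ B, G.Adj x y → G.Adj (g x) (g y)) ∧ T = g '' B

private theorem edge63 {V : Type} [Finite V] {G : SimpleGraph V} {B : Set V} (hB : Tc G B) (c : V) :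
    ∃ a b, a ∈ B ∧ b ∈ B ∧ a ≠ c ∧ b ≠ c ∧ G.Adj a b := by
  have h2 : 2 ≤ (B \ {c}).ncard := by
    have h3 := Set.ncard_le_ncard_sdiff_add_ncard B {c} (Set.toFinite _)
    rw [Set.ncard_singleton] at h3
    have h4 := hB.1
    omega
  obtain ⟨a, ha⟩ : (B \ {c}).Nonempty := by
    rw [Set.nonempty_iff_ne_empty]
    intro h
    rw [h, Set.ncard_empty] at h2
    omega
  by_contra hcon
  push Not at hcon
  have h3 := hB.2 c {a} (Set.singleton_subset_iff.2 ha) (Set.singleton_nonempty a) (by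
    intro x hx y hy hxy
    rw [Set.mem_singleton_iff] at hx
    subst hx
    exact absurd hxy (hcon x y ha.1 hy.1 ha.2 hy.2))
  rw [← h3, Set.ncard_singleton] at h2
  omega

theorem exists_edge {V : Type} [Finite V] (G : SimpleGraph V) (hG : G.Connected) (h : ¬ G.IsAcyclic) :
    ∃ a b, G.Adj a b ∧ ∀ (W I : Type) (α β : I → W), (∀ i, α i ≠ β i) → ¬ G ⊑ Am G a b α β := by
  classical
  obtain ⟨B, D, c, hC⟩ := exists_choice G hG (exists_Tc G h)
  obtain ⟨a, b, ha, hb, hac, hbc, hab⟩ := edge63 hC.mx.1 c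
  have haD : a ∈ D := (hC.BD ha).resolve_left hac
  have hbD : b ∈ D := (hC.BD hb).resolve_left hbc
  refine ⟨a, b, hab, ?_⟩
  rintro W I α β hαβ ⟨φ⟩
  obtain ⟨f, hf, hom⟩ : ∃ f : V → W ⊕ (I × V), Function.Injective f ∧ ∀ x y, G.Adj x y → (Am G a b α β).Adj (f x) (f y) :=
    ⟨φ, φ.injective, fun x y hxy => φ.toHom.map_adj hxy⟩
  obtain ⟨i, hi⟩ := claim3 hC ha hb hac hbc hab α β hαβ f hf.injOn fun x _ y _ hxy => hom x y hxy
  obtain ⟨S, hSdef⟩ : ∃ S : Set V, S = {x | ∃ y, y ∉ D ∧ f x = Sum.inr (i, y)} := ⟨_, rfl⟩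
  have hBS : B ⊆ S := fun x hx => by
    rw [hSdef]
    exact hi x hx
  have hcS : c ∈ S := hBS hC.cB
  obtain ⟨ψ, hψdef⟩ : ∃ ψ : V → V, ψ = fun x => Sum.elim (fun _ => c) Prod.snd (f x) := ⟨_, rfl⟩
  have hS : ∀ x ∈ S, f x = Sum.inr (i, ψ x) ∧ ψ x ∉ D := by
    intro x hx
    rw [hSdef] at hx
    obtain ⟨y, hy, h1⟩ := hx
    have h2 : ψ x = y := by
      rw [hψdef]
      change Sum.elim (fun _ => c) Prod.snd (f x) = y
      rw [h1]
      rfl
    rw [h2]
    exact ⟨h1, hy⟩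
  have hS' : ∀ x y, y ∉ D → f x = Sum.inr (i, y) → x ∈ S := by
    intro x y hy h1
    rw [hSdef]
    exact ⟨y, hy, h1⟩
  have hinj : Set.InjOn ψ S := by
    intro x hx y hy hxy
    apply hf
    rw [(hS x hx).1, (hS y hy).1, hxy]
  have hhom : ∀ x ∈ S, ∀ y ∈ S, G.Adj x y → G.Adj (ψ x) (ψ y) := by
    intro x hx y hy hxy
    have h1 := hom x y hxy
    rw [(hS x hx).1, (hS y hy).1] at h1
    exact h1.2.1
  have hSne : ∃ y0, y0 ∉ S := by
    by_contra hcon
    push Not at hcon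
    have h1 : Function.Injective ψ := fun x y hxy => hinj (hcon x) (hcon y) hxy
    obtain ⟨x, hx⟩ := Finite.surjective_of_injective h1 a
    apply (hS x (hcon x)).2
    rw [hx]
    exact haD
  have hexit : ∀ x ∈ S, ∀ y, y ∉ S → G.Adj x y → ψ x = c := by
    intro x hx y hy hxy
    have h1 := hom x y hxy
    obtain ⟨h2, h3⟩ := hS x hx
    rw [h2] at h1
    have key : ∀ d ∈ D, G.Adj d (ψ x) → ψ x = c := fun d hd h4 => (hC.cl d hd _ h4).resolve_left h3
    rcases hfy : f y with w | ⟨j, y'⟩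
    · rw [hfy] at h1
      rcases h1.2.2 with h4 | h4
      · exact key a haD h4.2
      · exact key b hbD h4.2
    · rw [hfy] at h1
      obtain ⟨hij, h4, -⟩ := h1
      subst hij
      have hy' : y' ∈ D := by
        by_contra h5
        exact hy (hS' y y' h5 hfy)
      exact key y' hy' h4.symm
  obtain ⟨y0, hy0⟩ := hSne
  obtain ⟨z, v, hz, hv, hzv⟩ := exit63 hG hcS hy0
  have hzc : ψ z = c := hexit z hz v hv hzv
  have hsep : ∀ x ∈ S, x ≠ z → ∀ y, y ∉ S → ¬ G.Adj x y := by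
    intro x hx hxz y hy hxy
    exact hxz (hinj hx hz ((hexit x hx y hy hxy).trans hzc.symm))
  obtain ⟨horb, p, hp1, hp⟩ := orbit G hG S z ψ hz (by rw [hzc]; exact hcS) hsep hinj hhom
  -- copies
  have hside : ∀ x ∈ S, ∀ T, Cop63 G B T → x ∈ T → T ⊆ S := by
    rintro x hx T ⟨g, hg, hgh, rfl⟩ hxT
    by_cases hxz : x = z
    · subst hxz
      obtain ⟨j, hj⟩ := claim3 hC ha hb hac hbc hab α β hαβ (fun x => f (g x))
        (fun x hx y hy hxy => hg hx hy (hf hxy)) (fun x hx y hy hxy => hom _ _ (hgh x hx y hy hxy))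
      obtain ⟨x0, hx0, hx0z⟩ := hxT
      obtain ⟨y, hy, h1⟩ := hj x0 hx0
      have h2 : f x = Sum.inr (j, y) := by
        rw [← hx0z]
        exact h1
      rw [(hS x hx).1] at h2
      have h3 : i = j := congrArg Prod.fst (Sum.inr_injective h2)
      subst h3
      rintro _ ⟨x1, hx1, rfl⟩
      obtain ⟨y1, hy1, h4⟩ := hj x1 hx1
      exact hS' _ y1 hy1 h4
    · have hM : Tc G (g '' B) := (hC.mx.map g hg hgh).1
      intro y hy
      by_contra hyS
      have hyz : y ≠ z := fun h1 => hyS (h1 ▸ hz)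
      have h1 := hM.2 z ((g '' B ∩ S) \ {z}) (fun t ht => ⟨ht.1.1, ht.2⟩) ⟨x, ⟨hxT, hx⟩, hxz⟩ (by
        rintro t ⟨⟨ht1, ht2⟩, ht3⟩ t' ⟨ht'1, ht'2⟩ htt
        refine ⟨⟨ht'1, ?_⟩, ht'2⟩
        by_contra h2
        exact hsep t ht2 ht3 t' h2 htt)
      have h2 : y ∈ (g '' B ∩ S) \ {z} := by
        rw [h1]
        exact ⟨hy, hyz⟩
      exact hyS h2.1.2
  have himg : ∀ T, Cop63 G B T → T ⊆ S → Cop63 G B (ψ '' T) := by
    rintro T ⟨g, hg, hgh, rfl⟩ hTS
    refine ⟨fun x => ψ (g x), fun x hx y hy hxy => hg hx hy (hinj (hTS ⟨x, hx, rfl⟩) (hTS ⟨y, hy, rfl⟩) hxy),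
      fun x hx y hy hxy => hhom _ (hTS ⟨x, hx, rfl⟩) _ (hTS ⟨y, hy, rfl⟩) (hgh x hx y hy hxy), ?_⟩
    rw [Set.image_image]
  obtain ⟨μ, hμ⟩ : ∃ μ : V → ℕ, μ = fun x => {T : Set V | x ∈ T ∧ Cop63 G B T}.ncard := ⟨_, rfl⟩
  have hInj : ∀ x ∈ S, Set.InjOn (fun T : Set V => ψ '' T) {T : Set V | x ∈ T ∧ Cop63 G B T} := by
    intro x hx T hT T' hT' hTT
    exact (hinj.image_eq_image_iff (hside x hx T hT.2 hT.1) (hside x hx T' hT'.2 hT'.1)).1 hTT
  have hMaps : ∀ x ∈ S, (fun T : Set V => ψ '' T) '' {T : Set V | x ∈ T ∧ Cop63 G B T} ⊆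
      {T : Set V | ψ x ∈ T ∧ Cop63 G B T} := by
    rintro x hx _ ⟨T, hT, rfl⟩
    exact ⟨⟨x, hT.1, rfl⟩, himg T hT.2 (hside x hx T hT.2 hT.1)⟩
  have hle : ∀ x ∈ S, μ x ≤ μ (ψ x) := by
    intro x hx
    rw [hμ]
    change Set.ncard _ ≤ Set.ncard _
    rw [← Set.InjOn.ncard_image (hInj x hx)]
    exact Set.ncard_le_ncard (hMaps x hx) (Set.toFinite _)
  have hlt : μ z < μ (ψ z) := by
    rw [hμ]
    change Set.ncard _ < Set.ncard _
    rw [← Set.InjOn.ncard_image (hInj z hz)]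
    refine Set.ncard_lt_ncard ⟨hMaps z hz, fun hcon => ?_⟩ (Set.toFinite _)
    have h1 : B ∈ {T : Set V | ψ z ∈ T ∧ Cop63 G B T} := by
      refine ⟨?_, fun x => x, Set.injOn_id B, fun x _ y _ hxy => hxy, ?_⟩
      · rw [hzc]
        exact hC.cB
      · exact (Set.image_id' B).symm
    obtain ⟨T, hT, hTB⟩ := hcon h1
    have h2 : a ∈ ψ '' T := by
      change a ∈ (fun T : Set V => ψ '' T) T
      rw [hTB]
      exact ha
    obtain ⟨x, hx, hxa⟩ := h2
    apply (hS x (hside z hz T hT.2 hT.1 hx)).2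
    rw [hxa]
    exact haD
  have hall : ∀ n : ℕ, μ z < μ (ψ^[n + 1] z) := by
    intro n
    induction n with
    | zero => exact hlt
    | succ n ih =>
      rw [Function.iterate_succ_apply']
      exact ih.trans_le (hle _ (horb (n + 1)))
  have hfin := hall (p - 1)
  rw [Nat.sub_add_cancel hp1, hp] at hfin
  exact lt_irrefl _ hfin

end WC
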