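import Mathlib
import Pool.Agent.Helper29.WV.Defs

/-!
# MP_722e70_co, connected graphs with a cycle: definitions
-/

set_option autoImplicit false

namespace WC

open SimpleGraph

/-- `S` is connected in `G`: a nonempty subset of `S` closed under adjacency inside `S` is `S`. -/
def Cn {V : Type} (G : SimpleGraph V) (S : Set V) : Prop :=
  ∀ T : Set V, T ⊆ S → T.Nonempty → (∀ x ∈ T, ∀ y ∈ S, G.Adj x y → y ∈ T) → T = S

/-- `S` is a 2-connected set of vertices of `G`. -/
def Tc {V : Type} (G : SimpleGraph V) (S : Set V) : Prop := 3 ≤ S.ncard ∧ ∀ w, Cn G (S \ {w})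

/-- the number of ordered adjacent pairs in `S` -/
noncomputable def En {V : Type} (G : SimpleGraph V) (S : Set V) : ℕ :=
  {p : V × V | G.Adj p.1 p.2 ∧ p.1 ∈ S ∧ p.2 ∈ S}.ncard

/-- `S` is a 2-connected set with the maximal number of edges. -/
def Mx {V : Type} (G : SimpleGraph V) (S : Set V) : Prop := Tc G S ∧ ∀ T, Tc G T → En G T ≤ En G S

/-- The choice made in the proof: `B` is a maximal 2-connected set, `c ∈ B`, `D` is closed at `c`, `B` is in `D ∪ {c}` and
all other maximal 2-connected sets are disjoint from `D`. -/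
structure Choice {V : Type} (G : SimpleGraph V) (B D : Set V) (c : V) : Prop where
  mx : Mx G B
  cB : c ∈ B
  cD : c ∉ D
  BD : B ⊆ insert c D
  cl : ∀ x ∈ D, ∀ y, G.Adj x y → y ∈ D ∨ y = c
  un : ∀ T, Mx G T → T ≠ B → T ⊆ Dᶜ

/-- The amalgam of the petals `G - ab`: the vertices `(i, x)`, `x ≠ a, b`, form the petal `i`, which is glued to
`α i` (in the place of `a`) and to `β i` (in the place of `b`). -/
def Am {V W I : Type} (G : SimpleGraph V) (a b : V) (α β : I → W) : SimpleGraph (W ⊕ (I × V)) where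
  Adj p q := match p, q with
    | .inl _, .inl _ => False
    | .inl w, .inr (i, x) => x ≠ a ∧ x ≠ b ∧ ((w = α i ∧ G.Adj a x) ∨ (w = β i ∧ G.Adj b x))
    | .inr (i, x), .inl w => x ≠ a ∧ x ≠ b ∧ ((w = α i ∧ G.Adj a x) ∨ (w = β i ∧ G.Adj b x))
    | .inr (i, x), .inr (j, y) => i = j ∧ G.Adj x y ∧ x ≠ a ∧ x ≠ b ∧ y ≠ a ∧ y ≠ b
  symm := ⟨by
    rintro (w | ⟨i, x⟩) (w' | ⟨j, y⟩) h
    · exact h
    · exact h
    · exact h
    · exact ⟨h.1.symm, h.2.1.symm, h.2.2.2.2.1, h.2.2.2.2.2, h.2.2.1, h.2.2.2.1⟩⟩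
  loopless := ⟨by
    rintro (w | ⟨i, x⟩) h
    · exact h
    · exact G.loopless.irrefl x h.2.1⟩

/-- The labels: the vertices of `G` (without `a`, `b`) and the vertices of the helper graph `H`; the graph inside a place. -/
def Inn {V U : Type} (G : SimpleGraph V) (a b : V) (H : SimpleGraph U) : SimpleGraph (V ⊕ U) where
  Adj p q := match p, q with
    | .inl x, .inl y => G.Adj x y ∧ x ≠ a ∧ x ≠ b ∧ y ≠ a ∧ y ≠ b
    | .inr x, .inr y => H.Adj x y
    | .inl _, .inr _ => False
    | .inr _, .inl _ => False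
  symm := ⟨by
    rintro (x | x) (y | y) h
    · exact ⟨h.1.symm, h.2.2.2.1, h.2.2.2.2, h.2.1, h.2.2.1⟩
    · exact h
    · exact h
    · exact h.symm⟩
  loopless := ⟨by
    rintro (x | x) h
    · exact G.loopless.irrefl x h.1
    · exact H.loopless.irrefl x h⟩

/-- The labels which are joined to the vertex in the place of `e` (`e = a` or `e = b`). -/
def Mk {V : Type} (U : Type) (G : SimpleGraph V) (a b e : V) : V ⊕ U → Prop
  | .inl x => x ≠ a ∧ x ≠ b ∧ G.Adj e x
  | .inr _ => False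

/-- The pairs `i < j` in `Fin t`. -/
abbrev Pr (t : ℕ) : Type := {q : Fin t × Fin t // q.1 < q.2}

/-- The graph `F`, red part of the reference colouring.  Vertices: `inl i` is `w_i`, `inr (J, p, m, x)` is the vertex with
label `x` in the place `(p, m)` of the frame of the pair `J`. -/
def FRed {V U : Type} (G : SimpleGraph V) (a b : V) (H : SimpleGraph U) (t N L : ℕ) :
    SimpleGraph (Fin t ⊕ (Pr t × Fin N × Fin L × (V ⊕ U))) where
  Adj p q := match p, q with
    | .inl _, .inl _ => False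
    | .inl i, .inr (J, _, _, x) => (i = J.1.1 ∧ Mk U G a b a x) ∨ (i = J.1.2 ∧ Mk U G a b b x)
    | .inr (J, _, _, x), .inl i => (i = J.1.1 ∧ Mk U G a b a x) ∨ (i = J.1.2 ∧ Mk U G a b b x)
    | .inr (J, p, m, x), .inr (J', p', m', y) => J = J' ∧ p = p' ∧ m = m' ∧ (Inn G a b H).Adj x y
  symm := ⟨by
    rintro (i | ⟨J, p, m, x⟩) (i' | ⟨J', p', m', y⟩) h
    · exact h
    · exact h
    · exact h
    · exact ⟨h.1.symm, h.2.1.symm, h.2.2.1.symm, h.2.2.2.symm⟩⟩
  loopless := ⟨by
    rintro (i | ⟨J, p, m, x⟩) h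
    · exact h
    · exact (Inn G a b H).loopless.irrefl x h.2.2.2⟩

/-- The graph `F`, blue part of the reference colouring: the complete graph on the `w_i`, and the frames. -/
def FBlue (V U : Type) {N : ℕ} (P : SimpleGraph (Fin N)) (t L : ℕ) :
    SimpleGraph (Fin t ⊕ (Pr t × Fin N × Fin L × (V ⊕ U))) where
  Adj p q := match p, q with
    | .inl i, .inl j => i ≠ j
    | .inl _, .inr _ => False
    | .inr _, .inl _ => False
    | .inr (J, p, _, _), .inr (J', p', _, _) => J = J' ∧ P.Adj p p'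
  symm := ⟨by
    rintro (i | ⟨J, p, m, x⟩) (i' | ⟨J', p', m', y⟩) h
    · exact h.symm
    · exact h
    · exact h
    · exact ⟨h.1.symm, h.2.symm⟩⟩
  loopless := ⟨by
    rintro (i | ⟨J, p, m, x⟩) h
    · exact h rfl
    · exact P.loopless.irrefl p h.2⟩

/-- Typed frames: a graph on `w_i` (`inl false`), `w_j` (`inl true`) and the places `(q, m)`, `q : Fin M`, `m : Fin s`, with
labels.  `σ x y`: the edges inside the places; `mat x y`: the edges from the label `x` on a level `q` to the label `y` on a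
higher level `q'` adjacent in `Q`; `μ`, `ν`: the edges at `w_i` and `w_j`; `e`: whether `w_i w_j` is an edge. -/
def Typ {Λ : Type} {M : ℕ} (s : ℕ) (Q : SimpleGraph (Fin M)) (σ : SimpleGraph Λ) (mat : Λ → Λ → Prop) (μ ν : Λ → Prop)
    (e : Prop) : SimpleGraph (Bool ⊕ (Fin M × Fin s × Λ)) where
  Adj p q := match p, q with
    | .inl i, .inl j => i ≠ j ∧ e
    | .inl i, .inr (_, _, x) => (i = false ∧ μ x) ∨ (i = true ∧ ν x)
    | .inr (_, _, x), .inl i => (i = false ∧ μ x) ∨ (i = true ∧ ν x)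
    | .inr (q, m, x), .inr (q', m', y) => (q = q' ∧ m = m' ∧ σ.Adj x y) ∨
        (Q.Adj q q' ∧ ((q < q' ∧ mat x y) ∨ (q' < q ∧ mat y x)))
  symm := ⟨by
    rintro (i | ⟨q, m, x⟩) (i' | ⟨q', m', y⟩) h
    · exact ⟨h.1.symm, h.2⟩
    · exact h
    · exact h
    · rcases h with h | h
      · exact Or.inl ⟨h.1.symm, h.2.1.symm, h.2.2.symm⟩
      · exact Or.inr ⟨h.1.symm, h.2.symm⟩⟩
  loopless := ⟨by
    rintro (i | ⟨q, m, x⟩) h
    · exact h.1 rfl
    · rcases h with h | h
      · exact σ.loopless.irrefl x h.2.2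
      · exact Q.loopless.irrefl q h.1⟩

end WC
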