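import Pool.Agent.Helper30.WC.HYP

/-!
# Block WC-HELP: the helper graph (MP_722e70_co)

PROOF.  Uses `hyp` (proved in parallel).  If `A` is empty, `H` = the empty graph on `Empty`... : then `G ⊑ H` is false if `B` is nonempty, and `B` is nonempty since
`G` is not `k`-colourable (the empty graph is `k`-colourable for every `k`); the map `Copy X H` from the empty type exists; but a colour `m : Fin q` is needed
(`hq`).  Now let `A` be nonempty, `N = Nat.card A ≥ 1`, and let `n` be the number of edges of `G` (`G.edgeSet.ncard`).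
Take `(U, E)` from `hyp N q (n + 1)`.  For `e ∈ E` fix a bijection `b_e : A ≃ e`.  `H.Adj x y` iff there are `e ∈ E` and `p, p' : A` with `X.Adj p p'`, `x = b_e p`, `y = b_e p'`.
Second claim: `c` is constant on some `e ∈ E`, and `b_e` is a copy of `X` in `H`.
First claim: suppose `f : Copy G H`.  For every edge of `G` choose an `e ∈ E` carrying its image; let `F ⊆ E` be the set of the chosen `e`, `F.card ≤ n`.
We show: for every `F ⊆ E` with `F.card ≤ n` there is a map `χ : U → Fin k` (`k ≥ 1` because `X.Colorable k` and `A` is nonempty) such that for all `e ∈ F` and `p, p'`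
with `X.Adj p p'`: `χ (b_e p) ≠ χ (b_e p')`.  Then `χ ∘ f` is a proper colouring of `G`, a contradiction.
Induction on `F.card`.  `F = ∅`: anything.  Otherwise there is `e ∈ F` which meets the union of the other members of `F` in at most one point (LEAF).  Let `χ` be a map for `F \ {e}`,
and `γ : A → Fin k` a proper colouring of `X`; if `e` meets the union of the others in `y = b_e p` compose `γ` with a permutation of `Fin k` such that `γ p = χ y`;
redefine `χ` on `e` by `χ (b_e p) = γ p`; this changes nothing at the points of the other members of `F`.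
LEAF: for `y : U` let `deg y` be the number of `e ∈ F` containing `y`.  `∑_{e ∈ F} |e| = ∑_y deg y`, `|⋃ F| = #{y | deg y ≥ 1}`, and `hyp` gives
`∑_y (deg y - 1) over {deg y ≥ 1} = ∑_{e ∈ F} |e| - |⋃ F| ≤ |F| - 1`.  If every `e ∈ F` contained at least two points with `deg ≥ 2` then
`∑_{deg y ≥ 2} deg y ≥ 2 |F|` and `∑_{deg y ≥ 2} (deg y - 1) ≥ (1/2) ∑_{deg y ≥ 2} deg y ≥ |F|`, a contradiction.
-/

set_option autoImplicit false

namespace WC

open SimpleGraph

/-- double counting -/
private theorem dc30 {U : Type} [DecidableEq U] (F : Finset (Finset U)) (T : Finset U) :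
    ∑ e ∈ F, (T.filter (fun y => y ∈ e)).card = ∑ y ∈ T, (F.filter (fun e => y ∈ e)).card :=
  Finset.sum_card_bipartiteAbove_eq_sum_card_bipartiteBelow (fun (e : Finset U) (y : U) => y ∈ e)

/-- a leaf -/
private theorem leaf30 {U : Type} [DecidableEq U] (F : Finset (Finset U)) (hF : F.Nonempty) (h1 : ∀ e ∈ F, 1 ≤ e.card)
    (h : 1 + ∑ e ∈ F, (e.card - 1) ≤ (F.biUnion id).card) :
    ∃ e ∈ F, (e ∩ (F.erase e).biUnion id).card ≤ 1 := by
  classical
  by_contra hcon
  push Not at hcon
  let T := F.biUnion id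
  have hsub : ∀ e ∈ F, T.filter (fun y => y ∈ e) = e := by
    intro e he
    ext y
    rw [Finset.mem_filter]
    constructor
    · exact fun h => h.2
    · exact fun h => ⟨Finset.mem_biUnion.2 ⟨e, he, h⟩, h⟩
  have hA : ∑ e ∈ F, e.card = ∑ y ∈ T, (F.filter (fun e => y ∈ e)).card := by
    rw [← dc30 F T]
    exact Finset.sum_congr rfl fun e he => by rw [hsub e he]
  let S := T.filter (fun y => 2 ≤ (F.filter (fun e => y ∈ e)).card)
  have hS : ∀ e ∈ F, 2 ≤ (S.filter (fun y => y ∈ e)).card := by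
    intro e he
    refine le_trans (hcon e he) (Finset.card_le_card ?_)
    intro y hy
    rw [Finset.mem_inter, Finset.mem_biUnion] at hy
    obtain ⟨hye, e', he', hye'⟩ := hy
    rw [Finset.mem_erase] at he'
    rw [Finset.mem_filter, Finset.mem_filter]
    refine ⟨⟨Finset.mem_biUnion.2 ⟨e, he, hye⟩, ?_⟩, hye⟩
    have hsub2 : ({e, e'} : Finset (Finset U)) ⊆ F.filter (fun e => y ∈ e) := by
      intro z hz
      rw [Finset.mem_insert, Finset.mem_singleton] at hz
      rw [Finset.mem_filter]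
      rcases hz with rfl | rfl
      · exact ⟨he, hye⟩
      · exact ⟨he'.2, hye'⟩
    calc 2 = ({e, e'} : Finset (Finset U)).card := (Finset.card_pair he'.1.symm).symm
      _ ≤ _ := Finset.card_le_card hsub2
  have hB : 2 * F.card ≤ ∑ y ∈ S, (F.filter (fun e => y ∈ e)).card := by
    rw [← dc30 F S]
    calc 2 * F.card = ∑ _e ∈ F, 2 := by rw [Finset.sum_const, smul_eq_mul, mul_comm]
      _ ≤ _ := Finset.sum_le_sum hS
  have hC : ∑ y ∈ S, (F.filter (fun e => y ∈ e)).card =
      ∑ y ∈ T, (if 2 ≤ (F.filter (fun e => y ∈ e)).card then (F.filter (fun e => y ∈ e)).card else 0) := by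
    rw [Finset.sum_filter]
  have hD : 2 * T.card + ∑ y ∈ T, (if 2 ≤ (F.filter (fun e => y ∈ e)).card then (F.filter (fun e => y ∈ e)).card else 0) ≤
      2 * ∑ y ∈ T, (F.filter (fun e => y ∈ e)).card := by
    have h2 : 2 * T.card = ∑ _y ∈ T, 2 := by rw [Finset.sum_const, smul_eq_mul, mul_comm]
    rw [h2, ← Finset.sum_add_distrib, Finset.mul_sum]
    apply Finset.sum_le_sum
    intro y hy
    obtain ⟨e, he, hye⟩ := Finset.mem_biUnion.1 hy
    have h3 : 1 ≤ (F.filter (fun e => y ∈ e)).card :=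
      Finset.card_pos.2 ⟨e, Finset.mem_filter.2 ⟨he, hye⟩⟩
    split_ifs with h4
    · omega
    · omega
  have hE : ∑ e ∈ F, (e.card - 1) + F.card = ∑ e ∈ F, e.card := by
    have h2 : F.card = ∑ _e ∈ F, 1 := by rw [Finset.sum_const, smul_eq_mul, mul_one]
    rw [h2, ← Finset.sum_add_distrib]
    exact Finset.sum_congr rfl fun e he => by
      have := h1 e he
      omega
  have hT : T.card = (F.biUnion id).card := rfl
  omega

private theorem col30 {A U : Type} [DecidableEq U] (X : SimpleGraph A) (k : ℕ) (hk : 1 ≤ k) (γ : A → Fin k)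
    (hγ : ∀ p p', X.Adj p p' → γ p ≠ γ p') (E : Finset (Finset U)) (b : Finset U → A → U)
    (hb : ∀ e ∈ E, Function.Injective (b e) ∧ ∀ x, x ∈ e ↔ ∃ p, b e p = x)
    (h1 : ∀ e ∈ E, 1 ≤ e.card) (n : ℕ)
    (hL : ∀ F ⊆ E, F.Nonempty → F.card ≤ n → 1 + ∑ e ∈ F, (e.card - 1) ≤ (F.biUnion id).card) :
    ∀ m : ℕ, ∀ F ⊆ E, F.card = m → m ≤ n → ∃ χ : U → Fin k, ∀ e ∈ F, ∀ p p', X.Adj p p' → χ (b e p) ≠ χ (b e p') := by
  classical
  intro m
  induction m with
  | zero =>
    intro F hF hc _
    rw [Finset.card_eq_zero] at hc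
    subst hc
    exact ⟨fun _ => ⟨0, hk⟩, fun e he => absurd he (Finset.notMem_empty e)⟩
  | succ m ih =>
    intro F hF hc hm
    have hne : F.Nonempty := Finset.card_pos.1 (by omega)
    obtain ⟨e, he, hle⟩ := leaf30 F hne (fun e he => h1 e (hF he)) (hL F hF hne (by omega))
    obtain ⟨χ', hχ'⟩ := ih (F.erase e) ((Finset.erase_subset e F).trans hF) (by rw [Finset.card_erase_of_mem he]; omega) (by omega)
    obtain ⟨hbi, hbe⟩ := hb e (hF he)
    -- the adapted colouring of the leaf
    obtain ⟨γ', hγ', hag⟩ : ∃ γ' : A → Fin k, (∀ p p', X.Adj p p' → γ' p ≠ γ' p') ∧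
        ∀ p, b e p ∈ (F.erase e).biUnion id → γ' p = χ' (b e p) := by
      by_cases hy : ∃ p, b e p ∈ (F.erase e).biUnion id
      · obtain ⟨p0, hp0⟩ := hy
        refine ⟨fun p => Equiv.swap (γ p0) (χ' (b e p0)) (γ p), fun p p' h h2 => hγ p p' h ((Equiv.swap _ _).injective h2), fun p hp => ?_⟩
        have hpp : p = p0 := by
          apply hbi
          apply Finset.card_le_one.1 hle
          · exact Finset.mem_inter.2 ⟨(hbe _).2 ⟨p, rfl⟩, hp⟩
          · exact Finset.mem_inter.2 ⟨(hbe _).2 ⟨p0, rfl⟩, hp0⟩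
        rw [hpp]
        exact Equiv.swap_apply_left _ _
      · exact ⟨γ, hγ, fun p hp => absurd ⟨p, hp⟩ hy⟩
    let χ : U → Fin k := fun x => if h : ∃ p, b e p = x then γ' h.choose else χ' x
    have hχe : ∀ p, χ (b e p) = γ' p := by
      intro p
      have hex : ∃ p', b e p' = b e p := ⟨p, rfl⟩
      have : χ (b e p) = γ' hex.choose := dif_pos hex
      rw [this, hbi hex.choose_spec]
    have hχo : ∀ x ∈ (F.erase e).biUnion id, χ x = χ' x := by
      intro x hx
      by_cases hex : ∃ p, b e p = x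
      · obtain ⟨p, rfl⟩ := hex
        rw [hχe, hag p hx]
      · exact dif_neg hex
    refine ⟨χ, fun e' he' p p' hpp' => ?_⟩
    by_cases hee : e' = e
    · subst hee
      rw [hχe, hχe]
      exact hγ' p p' hpp'
    · have he'' : e' ∈ F.erase e := Finset.mem_erase.2 ⟨hee, he'⟩
      have hmem : ∀ p, b e' p ∈ (F.erase e).biUnion id := fun p =>
        Finset.mem_biUnion.2 ⟨e', he'', ((hb e' (hF he')).2 _).2 ⟨p, rfl⟩⟩
      rw [hχo _ (hmem p), hχo _ (hmem p')]
      exact hχ' e' he'' p p' hpp'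

theorem exists_helper {A B : Type} [Finite A] [Finite B] (X : SimpleGraph A) (G : SimpleGraph B) (k q : ℕ)
    (hX : X.Colorable k) (hG : ¬ G.Colorable k) (hq : 1 ≤ q) :
    ∃ (U : Type) (_ : Finite U) (H : SimpleGraph U), ¬ G ⊑ H ∧
      ∀ c : U → Fin q, ∃ (f : Copy X H) (m : Fin q), ∀ x, c (f x) = m := by
  classical
  have := Fintype.ofFinite A
  have := Fintype.ofFinite B
  rcases isEmpty_or_nonempty A with hA | hA
  · refine ⟨Empty, inferInstance, ⊥, ?_, fun c => ?_⟩
    · rintro ⟨f⟩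
      apply hG
      exact ⟨SimpleGraph.Coloring.mk (fun v => (f v).elim) (fun {v w} _ => (f v).elim)⟩
    · refine ⟨⟨⟨fun a => isEmptyElim a, fun {a b} _ => isEmptyElim a⟩, fun a => isEmptyElim a⟩, ⟨0, hq⟩, fun x => isEmptyElim x⟩
  · obtain ⟨γ⟩ := hX
    have hk : 1 ≤ k := by
      obtain ⟨a⟩ := hA
      have := (γ a).isLt
      omega
    obtain ⟨U, fU, dU, E, hcard, hL, hc⟩ := hyp (Fintype.card A) q (Fintype.card (B × B)) Fintype.card_pos hq
    have hb : ∀ e : Finset U, ∃ g : A → U, e ∈ E → (Function.Injective g ∧ ∀ x, x ∈ e ↔ ∃ p, g p = x) := by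
      intro e
      by_cases he : e ∈ E
      · have h1 : Fintype.card A = Fintype.card e := by rw [Fintype.card_coe, hcard e he]
        obtain ⟨φ⟩ : Nonempty (A ≃ e) := Fintype.card_eq.1 h1
        refine ⟨fun a => (φ a : U), fun _ => ⟨fun a a' h => φ.injective (Subtype.ext h), fun x => ⟨fun hx => ?_, ?_⟩⟩⟩
        · exact ⟨φ.symm ⟨x, hx⟩, by simp⟩
        · rintro ⟨p, rfl⟩
          exact (φ p).2
      · obtain ⟨e', he'⟩ : ∃ e', e' ∈ E := by
          obtain ⟨e', he', _⟩ := hc (fun _ => ⟨0, hq⟩)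
          exact ⟨e', he'⟩
        have hne : e'.Nonempty := Finset.card_pos.1 (by rw [hcard e' he']; exact Fintype.card_pos)
        exact ⟨fun _ => hne.choose, fun h => absurd h he⟩
    choose b hb using hb
    have h1 : ∀ e ∈ E, 1 ≤ e.card := fun e he => by
      rw [hcard e he]
      exact Fintype.card_pos
    let H : SimpleGraph U :=
      { Adj := fun x y => ∃ e ∈ E, ∃ p p', X.Adj p p' ∧ x = b e p ∧ y = b e p'
        symm := ⟨by
          rintro x y ⟨e, he, p, p', h, hx, hy⟩
          exact ⟨e, he, p', p, h.symm, hy, hx⟩⟩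
        loopless := ⟨by
          rintro x ⟨e, he, p, p', h, hx, hy⟩
          exact h.ne ((hb e he).1 (hx.symm.trans hy))⟩ }
    refine ⟨U, inferInstance, H, ?_, fun c => ?_⟩
    · rintro ⟨f⟩
      apply hG
      -- the hyperedges which carry the edges of the copy
      have hp : ∀ vw : B × B, ∃ e : Finset U, G.Adj vw.1 vw.2 → e ∈ E ∧ ∃ p p', X.Adj p p' ∧ f vw.1 = b e p ∧ f vw.2 = b e p' := by
        rintro ⟨v, w⟩
        by_cases h : G.Adj v w
        · obtain ⟨e, he, p, p', h1, h2, h3⟩ : H.Adj (f v) (f w) := f.toHom.map_adj h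
          exact ⟨e, fun _ => ⟨he, p, p', h1, h2, h3⟩⟩
        · exact ⟨∅, fun h' => absurd h' h⟩
      choose pick hpick using hp
      let F : Finset (Finset U) := ((Finset.univ : Finset (B × B)).filter (fun vw => G.Adj vw.1 vw.2)).image pick
      have hF : F ⊆ E := by
        intro e he
        obtain ⟨vw, hvw, rfl⟩ := Finset.mem_image.1 he
        exact (hpick vw (Finset.mem_filter.1 hvw).2).1
      have hFc : F.card ≤ Fintype.card (B × B) := by
        refine Finset.card_image_le.trans ?_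
        rw [← Finset.card_univ]
        exact Finset.card_le_card (Finset.filter_subset _ _)
      obtain ⟨χ, hχ⟩ := col30 X k hk γ (fun p p' h => γ.valid h) E b hb h1 _ hL F.card F hF rfl hFc
      refine ⟨SimpleGraph.Coloring.mk (fun v => χ (f v)) ?_⟩
      intro v w h
      obtain ⟨-, p, p', hpp, hv, hw⟩ := hpick (v, w) h
      have hmem : pick (v, w) ∈ F := Finset.mem_image.2 ⟨(v, w), Finset.mem_filter.2 ⟨Finset.mem_univ _, h⟩, rfl⟩
      have := hχ _ hmem p p' hpp
      rw [← hv, ← hw] at this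
      exact this
    · obtain ⟨e, he, m, hm⟩ := hc c
      refine ⟨⟨⟨b e, fun {p p'} h => ⟨e, he, p, p', h, rfl, rfl⟩⟩, (hb e he).1⟩, m, fun p => ?_⟩
      exact hm _ (((hb e he).2 _).2 ⟨p, rfl⟩)

end WC
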