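import Mathlib
import Pool.Agent.Helper31.NR.Ord

/-!
# Block WC-NRW: Nesetril-Rodl for ordered `K_t`-free graphs (MP_722e70_co)

PROOF.  Use `Pool.Agent.Helper31.NR.ramsey_ordered` (Helper31/NR/Ord.lean, proved) for the signature with one binary symbol (`S = Unit`, `ar = fun _ => 2`) and the class
`K n I` iff `I () ![x, y]` is irreflexive and symmetric and there is no injective (or strictly monotone) `g : Fin t → Fin n` with `I () ![g i, g j]` for all `i ≠ j`.
`OHered K`: clear.  `Completable K`: given a symmetric `E` and `I`, put `J () t ↔ t 0 ≠ t 1 ∧ E (t 0) (t 1) ∧ I () t`; an edge `x < y` of `J` is a clique of `E` with two points, so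
`I` is symmetric there; a clique with `t` points of `J` is a clique of `E`, so it is excluded by the hypothesis on `I`; `pull f J = pull f I` for a clique
`f` of `E` (for the tuples with `t 0 = t 1` use that `K` is irreflexive on the one-point substructure).
Step 1: `A` = the edge on `Fin 2`, `B` = the structure of `Q`, colours `κ'`: get `C1` on `Fin c1`.  (`A ∈ K` because `3 ≤ t`.)
Step 2: `A` = the one-point structure on `Fin 1`, `B = C1`, colours `κ`: get `C2` on `Fin N`; `P` = the graph of `C2`.
Given `cv`, `ce`: by step 2 for `χ e = cv (e 0)` there is a strictly monotone `f2 : Fin c1 → Fin N` with `pull f2 C2 = C1` and `cv ∘ f2` constant (all the maps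
`Fin 1 → Fin c1` are strictly monotone and copies of the one-point structure).  By step 1 for `χ e = ce (f2 (e 0)) (f2 (e 1))` there is `f1 : Fin M → Fin c1`; `f = f2 ∘ f1`.
`P.CliqueFree t`: from the definition of `K` (a clique given by a finset of `t` vertices gives the strictly monotone map `orderEmbOfFin`).
-/

set_option autoImplicit false

namespace WC

open SimpleGraph

open Pool.Agent.Helper31.NR in
/-- the class of the ordered `K_t`-free graphs -/
private def KK23 (t : ℕ) : Cls (fun _ : Unit => 2) := fun n I =>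
  (∀ x : Fin n, ¬ I () ![x, x]) ∧ (∀ x y : Fin n, I () ![x, y] → I () ![y, x]) ∧
    ∀ g : Fin t → Fin n, StrictMono g → ¬ ∀ i j, i ≠ j → I () ![g i, g j]

private theorem pair23 {V W : Type} (f : V → W) (x y : V) :
    (fun k : Fin 2 => f ((![x, y] : Fin 2 → V) k)) = ![f x, f y] := by
  funext k
  fin_cases k <;> rfl

private theorem eta23 {V : Type} (s : Fin 2 → V) : s = ![s 0, s 1] := by
  funext k
  fin_cases k <;> rfl

open Pool.Agent.Helper31.NR in
private theorem pull23 {V W : Type} (f : W → V) (I : Str (fun _ : Unit => 2) V) (x y : W) :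
    pull f I () ![x, y] ↔ I () ![f x, f y] := by
  have h : pull f I () ![x, y] = I () (fun k : Fin 2 => f ((![x, y] : Fin 2 → W) k)) := rfl
  rw [h, pair23]

open Pool.Agent.Helper31.NR in
private theorem oh23 (t : ℕ) : OHered (KK23 t) := by
  intro m n f I hf hI
  refine ⟨fun x => ?_, fun x y => ?_, fun g hg hc => ?_⟩
  · rw [pull23]
    exact hI.1 _
  · rw [pull23, pull23]
    exact hI.2.1 _ _
  · exact hI.2.2 (f ∘ g) (hf.comp hg) fun i j hij => (pull23 f I (g i) (g j)).1 (hc i j hij)

open Pool.Agent.Helper31.NR in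
private theorem co23 (t : ℕ) : Completable (KK23 t) := by
  intro n E I hE hI
  have hsym : ∀ x y, x ≠ y → E x y → I () ![x, y] → I () ![y, x] := by
    have key : ∀ x y, x < y → E x y → (I () ![x, y] ↔ I () ![y, x]) := by
      intro x y hxy hE'
      have h1 := hI 2 ![x, y] (by
        intro i j hij
        fin_cases i <;> fin_cases j
        · exact absurd hij (lt_irrefl _)
        · exact hxy
        · exact absurd hij (by decide)
        · exact absurd hij (lt_irrefl _)) (by
        intro i j hij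
        fin_cases i <;> fin_cases j
        · exact absurd rfl hij
        · exact hE'
        · exact hE _ _ hE'
        · exact absurd rfl hij)
      have h2 := h1.2.1 0 1
      have h3 := h1.2.1 1 0
      rw [pull23, pull23] at h2 h3
      exact ⟨h2, h3⟩
    intro x y hne hE' h
    rcases lt_or_gt_of_ne hne with h1 | h1
    · exact (key x y h1 hE').1 h
    · exact (key y x h1 (hE _ _ hE')).2 h
  refine ⟨fun _ s => s 0 ≠ s 1 ∧ E (s 0) (s 1) ∧ I () s, ⟨fun x h => ?_, fun x y h => ?_, fun g hg hc => ?_⟩, fun m f hf hcl => ?_⟩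
  · exact h.1 rfl
  · have h1 : x ≠ y := h.1
    have h2 : E x y := h.2.1
    exact ⟨h1.symm, hE _ _ h2, hsym x y h1 h2 h.2.2⟩
  · have h1 := hI t g hg fun i j hij => (hc i j hij).2.1
    exact h1.2.2 id strictMono_id fun i j hij => (pull23 g I i j).2 (hc i j hij).2.2
  · funext u s
    have h1 := hI m f hf hcl
    refine propext ⟨fun h => h.2.2, fun h => ?_⟩
    have hs : s 0 ≠ s 1 := by
      intro h2
      have h3 : pull f I () ![s 0, s 0] := by
        have h4 : (s : Fin 2 → Fin m) = ![s 0, s 0] := by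
          conv_lhs => rw [eta23 s]
          rw [← h2]
        rw [← h4]
        exact h
      exact h1.1 _ h3
    exact ⟨fun h2 => hs (hf.injective h2), hcl _ _ hs, h⟩

theorem nr {t M : ℕ} (ht : 3 ≤ t) (Q : SimpleGraph (Fin M)) (hQ : Q.CliqueFree t) (κ κ' : Type) [Finite κ] [Finite κ']
    [Nonempty κ] [Nonempty κ'] : ∃ (N : ℕ) (P : SimpleGraph (Fin N)), P.CliqueFree t ∧
      ∀ (cv : Fin N → κ) (ce : Fin N → Fin N → κ'), ∃ f : Fin M → Fin N, StrictMono f ∧
        (∀ i j, Q.Adj i j → P.Adj (f i) (f j)) ∧ (∀ i j, cv (f i) = cv (f j)) ∧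
        ∀ i j i' j', i < j → Q.Adj i j → i' < j' → Q.Adj i' j' → ce (f i) (f j) = ce (f i') (f j') := by
  have hK := oh23 t
  have hC := co23 t
  -- the structures
  have kA : KK23 t 2 (fun _ s => s 0 ≠ s 1) := by
    refine ⟨fun x h => h rfl, fun x y h => Ne.symm h, fun g hg _ => ?_⟩
    have h1 := Fintype.card_le_of_injective g hg.injective
    rw [Fintype.card_fin, Fintype.card_fin] at h1
    omega
  have kB : KK23 t M (fun _ s => Q.Adj (s 0) (s 1)) := by
    refine ⟨fun x h => Q.loopless.irrefl x h, fun x y h => SimpleGraph.Adj.symm h, fun g hg hc => ?_⟩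
    refine hQ (Finset.univ.map ⟨g, hg.injective⟩) ⟨?_, by rw [Finset.card_map, Finset.card_univ, Fintype.card_fin]⟩
    rintro _ hx _ hy hne
    obtain ⟨i, -, rfl⟩ := Finset.mem_map.1 (Finset.mem_coe.1 hx)
    obtain ⟨j, -, rfl⟩ := Finset.mem_map.1 (Finset.mem_coe.1 hy)
    exact hc i j fun h => hne (by rw [h])
  have kO : KK23 t 1 (fun _ _ => False) := ⟨fun x h => h, fun x y h => h, fun g _ hc =>
    hc ⟨0, by omega⟩ ⟨1, by omega⟩ (by intro h; exact absurd (congrArg Fin.val h) (by norm_num))⟩
  obtain ⟨c1, C1, hC1, r1⟩ := Pool.Agent.Helper31.NR.ramsey_ordered (KK23 t) hK hC _ _ kA kB κ'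
  obtain ⟨c2, C2, hC2, r2⟩ := Pool.Agent.Helper31.NR.ramsey_ordered (KK23 t) hK hC _ _ kO hC1 κ
  let P : SimpleGraph (Fin c2) := { Adj := fun x y => C2 () ![x, y], symm := ⟨fun x y h => hC2.2.1 x y h⟩, loopless := ⟨fun x h => hC2.1 x h⟩ }
  refine ⟨c2, P, fun s hs => ?_, fun cv ce => ?_⟩
  · refine hC2.2.2 (s.orderEmbOfFin hs.card_eq) (OrderEmbedding.strictMono _) fun i j hij => ?_
    exact hs.isClique (Finset.mem_coe.2 (s.orderEmbOfFin_mem hs.card_eq i)) (Finset.mem_coe.2 (s.orderEmbOfFin_mem hs.card_eq j))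
      fun h => hij ((s.orderEmbOfFin hs.card_eq).injective h)
  obtain ⟨f2, hf2, hp2, hc2⟩ := r2 fun e => cv (e 0)
  obtain ⟨f1, hf1, hp1, hc1⟩ := r1 fun e => ce (f2 (e 0)) (f2 (e 1))
  have hv : ∀ x y : Fin c1, cv (f2 x) = cv (f2 y) := by
    intro x y
    have sm : ∀ z : Fin c1, StrictMono (fun _ : Fin 1 => z) := fun z i j hij => absurd hij (by rw [Subsingleton.elim i j]; exact lt_irrefl _)
    have pl : ∀ z : Fin c1, Pool.Agent.Helper31.NR.pull (fun _ : Fin 1 => z) C1 = fun _ _ => False := by
      intro z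
      funext u s
      refine propext ⟨fun h => hC1.1 z ?_, False.elim⟩
      have h1 : C1 () (fun _ : Fin 2 => z) := h
      have h2 : (fun _ : Fin 2 => z) = ![z, z] := by
        funext k
        fin_cases k <;> rfl
      rwa [h2] at h1
    exact hc2 _ _ (sm x) (sm y) (pl x) (pl y)
  refine ⟨f2 ∘ f1, hf2.comp hf1, fun i j hij => ?_, fun i j => hv _ _, fun i j i' j' hij hQ1 hij' hQ2 => ?_⟩
  · have h1 : Pool.Agent.Helper31.NR.pull f1 C1 () ![i, j] := by
      rw [hp1]
      exact hij
    rw [pull23, ← hp2, pull23] at h1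
    exact h1
  · have sm : ∀ i j : Fin M, i < j → StrictMono (![i, j] : Fin 2 → Fin M) := by
      intro i j hij k l hkl
      fin_cases k <;> fin_cases l
      · exact absurd hkl (lt_irrefl _)
      · exact hij
      · exact absurd hkl (by decide)
      · exact absurd hkl (lt_irrefl _)
    have pl : ∀ i j : Fin M, Q.Adj i j → Pool.Agent.Helper31.NR.pull (![i, j] : Fin 2 → Fin M)
        (fun (_ : Unit) (s : Fin 2 → Fin M) => Q.Adj (s 0) (s 1)) = fun _ s => s 0 ≠ s 1 := by
      intro i j hij
      funext u s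
      refine propext ?_
      change Q.Adj ((![i, j] : Fin 2 → Fin M) (s 0)) ((![i, j] : Fin 2 → Fin M) (s 1)) ↔ s 0 ≠ s 1
      have key : ∀ a b : Fin 2, Q.Adj ((![i, j] : Fin 2 → Fin M) a) ((![i, j] : Fin 2 → Fin M) b) ↔ a ≠ b := by
        intro a b
        fin_cases a <;> fin_cases b
        · exact ⟨fun h => absurd h (Q.loopless.irrefl i), fun h => absurd rfl h⟩
        · exact ⟨fun _ => by decide, fun _ => hij⟩
        · exact ⟨fun _ => by decide, fun _ => SimpleGraph.Adj.symm hij⟩
        · exact ⟨fun h => absurd h (Q.loopless.irrefl j), fun h => absurd rfl h⟩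
      exact key _ _
    exact hc1 _ _ (sm i j hij) (sm i' j' hij') (pl i j hQ1) (pl i' j' hQ2)

end WC
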