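import Mathlib
import Pool.Agent.Helper31.NR.Ram

/-!
# Block WC-REG: Ramsey in the index `m` (MP_722e70_co)

PROOF.  Let `b = N * s + 1` and let `L` be given by `Pool.Agent.Helper31.NR.ramsey_sets 2 b` (proved) for the finite colour set
`(Fin N → κ) × (Fin N → Fin N → κ')`.  Given `cv`, `ce`, colour a map `e : Fin 2 → Fin L` by `(fun p => cv p (e 0), fun p p' => ce p (e 0) p' (e 1))`.  Get a strictly monotone
`h : Fin b → Fin L` such that the colour of `h ∘ k` is the same for all strictly monotone `k : Fin 2 → Fin b`.  So for `x < y` in `Fin b`: `cv p (h x)` does not depend on `x` (for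
`x` not the last point), and `ce p (h x) p' (h y)` does not depend on `x < y`.  Put `g p m = h (p * s + m)` (as an element of `Fin b`; it is `< N * s`, so it is not the last point):
injective in `m`; for `p < p'`: `p * s + m < p' * s + n` for all `m, n : Fin s`.
-/

set_option autoImplicit false

namespace WC

theorem reg (N s : ℕ) (κ κ' : Type) [Finite κ] [Finite κ'] [Nonempty κ] [Nonempty κ'] : ∃ L : ℕ,
    ∀ (cv : Fin N → Fin L → κ) (ce : Fin N → Fin L → Fin N → Fin L → κ'),
      ∃ g : Fin N → Fin s → Fin L, (∀ p, Function.Injective (g p)) ∧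
        (∀ p m m', cv p (g p m) = cv p (g p m')) ∧
        ∀ p p', p < p' → ∀ m m' n n', ce p (g p m) p' (g p' n) = ce p (g p m') p' (g p' n') := by
  obtain ⟨L, hL⟩ := Pool.Agent.Helper31.NR.ramsey_sets 2 (N * s + 1)
    ((Fin N → κ) × (Fin N → Fin N → κ'))
  refine ⟨L, fun cv ce => ?_⟩
  obtain ⟨h, hmono, hcol⟩ := hL fun e => (fun p => cv p (e 0), fun p p' => ce p (e 0) p' (e 1))
  have hsm : ∀ x y : Fin (N * s + 1), x < y → StrictMono ![x, y] := by
    intro x y hxy i j hij
    fin_cases i <;> fin_cases j <;> simp_all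
  have key : ∀ x y x' y' : Fin (N * s + 1), x < y → x' < y' →
      (∀ p, cv p (h x) = cv p (h x')) ∧
        ∀ p p', ce p (h x) p' (h y) = ce p (h x') p' (h y') := by
    intro x y x' y' hxy hxy'
    have h1 := hcol _ _ (hsm x y hxy) (hsm x' y' hxy')
    have h2 := (Prod.ext_iff.mp h1).1
    have h3 := (Prod.ext_iff.mp h1).2
    refine ⟨fun p => ?_, fun p p' => ?_⟩
    · simpa using congrFun h2 p
    · simpa using congrFun (congrFun h3 p) p'
  have hlt : ∀ (p : Fin N) (m : Fin s), (p : ℕ) * s + m < N * s := by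
    intro p m
    have h1 : ((p : ℕ) + 1) * s ≤ N * s := Nat.mul_le_mul_right s p.2
    have h2 := m.2
    rw [Nat.add_mul, Nat.one_mul] at h1
    omega
  let f : Fin N → Fin s → Fin (N * s + 1) := fun p m => ⟨(p : ℕ) * s + m, by
    have := hlt p m
    omega⟩
  have hlast : ∀ p m, f p m < ⟨N * s, Nat.lt_succ_self _⟩ := fun p m => by
    rw [Fin.lt_def]
    exact hlt p m
  have hff : ∀ p p' m n, p < p' → f p m < f p' n := by
    intro p p' m n hp
    rw [Fin.lt_def]
    change (p : ℕ) * s + m < (p' : ℕ) * s + n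
    have h1 : ((p : ℕ) + 1) * s ≤ (p' : ℕ) * s := Nat.mul_le_mul_right s hp
    have h2 := m.2
    rw [Nat.add_mul, Nat.one_mul] at h1
    omega
  refine ⟨fun p m => h (f p m), ?_, ?_, ?_⟩
  · intro p m m' hm
    have h1 : f p m = f p m' := hmono.injective hm
    have h2 : (p : ℕ) * s + m = (p : ℕ) * s + m' := congrArg Fin.val h1
    exact Fin.ext (by omega)
  · intro p m m'
    exact (key _ _ _ _ (hlast p m) (hlast p m')).1 p
  · intro p p' hp m m' n n'
    exact (key _ _ _ _ (hff p p' m n hp) (hff p p' m' n' hp)).2 p p'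

end WC
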