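import Pool.Agent.Helper30.WC.ANA
import Pool.Agent.Helper30.WC.HELP
import Pool.Agent.Helper30.WC.NRW
import Pool.Agent.Helper30.WC.REG

/-!
# Block WC-FARR: the arrow (MP_722e70_co)

PROOF.  Uses `ana`, `exists_helper`, `nr`, `reg` (proved in parallel).
Let `k + 1 = χ(G)`: the least number with `G.Colorable (k + 1)`; `G` is not `k`-colourable (`V` is nonempty, so `G` is not `0`-colourable; take the least `r` with `G.Colorable r`,
`r = k + 1`).  Let `cl : V → Fin (k + 1)` be a proper colouring.  `X = G.induce {v | cl v ≠ 0}` is `k`-colourable.  `exists_helper X G k (2 ^ (k + 1))` gives `U, H`.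
Let `n = Nat.card V` and `Q` the following graph on `Fin (n + (t - 1))`: choose a bijection `e0 : V ≃ Fin n` with `cl v < cl w → e0 v < e0 w` (sort by `cl`), `e = castAdd ∘ e0`; `kq l = natAdd n l`; the edges of `Q`
are the images of the edges of `G` under `e` and all pairs `kq l, kq l'`, `l ≠ l'`; no edges between the two parts.  `Q.CliqueFree t`: a clique with `t ≥ 2` points is in one of
the parts; `hfree`; the second part has `t - 1` points.
`s = n`.  Labels `Λ = V ⊕ U`.  Edge patterns: `κ' = Λ → Λ → Prop` (or `Bool`), vertex patterns: `κ = (Λ → Λ → Prop) × (Λ → Prop) × (Λ → Prop)`; all finite.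
`nr` for `Q` with `κ, κ'` gives `N, P`; `reg N s κ κ'` gives `L`.
Arrow: let `R ≤ F := FRed G a b H t N L ⊔ FBlue V U P t L` be given.  If all the pairs `inl i, inl j`, `i ≠ j`, are not in `R` then `⊤ ⊑ F \ R` by `inl`.  Otherwise let `i < j` with `R.Adj (inl i) (inl j)`, `J = (i, j)`.
 `cv p m = (fun x y => R.Adj (inr (J, p, m, x)) (inr (J, p, m, y)), fun x => R.Adj (inl i) (inr (J, p, m, x)), fun x => R.Adj (inl j) (inr (J, p, m, x)))`,
 `ce p m p' m' = fun x y => R.Adj (inr (J, p, m, x)) (inr (J, p', m', y))`.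
 `reg` gives `g`.  If `s = 0`... (`s = n ≥ 1`).  Then `nr` for `p ↦ cv p (g p 0)` and `(p, p') ↦ ce p (g p 0) p' (g p' 0)` gives `f : Fin M → Fin N`, strictly monotone, mapping `Q` to `P`.
 Let `σ` be the graph on `Λ` of the first component of the constant pattern, intersected with `Inn G a b H`; `mat` = the constant edge pattern on the edges `q < q'` of `Q` (if there is an edge; there is one: `kq 0 < kq 1`);
 `μ x`, `ν x` = the constant marks patterns and `Mk U G a b a x` (resp. `b`).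
 The map `ι : Bool ⊕ (Fin M × Fin s × Λ) → F`, `inl false ↦ inl i`, `inl true ↦ inl j`, `inr (q, m, x) ↦ inr (J, f q, g (f q) m, x)` is injective, maps the edges of the red typed graph to edges of
 `R`, and the edges of the blue typed graph to edges of `F \ R`.  `ana` and composition of copies finish the proof.
-/

set_option autoImplicit false

namespace WC

open SimpleGraph WV

/-- the least number of colours -/
private theorem chi30 {V : Type} [Finite V] [Nonempty V] (G : SimpleGraph V) :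
    ∃ k : ℕ, G.Colorable (k + 1) ∧ ¬ G.Colorable k := by
  classical
  have := Fintype.ofFinite V
  have hex : ∃ r : ℕ, G.Colorable r := ⟨_, G.colorable_of_fintype⟩
  have h0 : ¬ G.Colorable 0 := by
    rintro ⟨c⟩
    obtain ⟨v⟩ := ‹Nonempty V›
    exact (c v).elim0
  have h1 : Nat.find hex ≠ 0 := by
    intro h
    apply h0
    have := Nat.find_spec hex
    rwa [h] at this
  obtain ⟨k, hk⟩ := Nat.exists_eq_succ_of_ne_zero h1
  refine ⟨k, ?_, ?_⟩
  · have := Nat.find_spec hex
    rwa [hk] at this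
  · exact Nat.find_min hex (by omega)

/-- an ordering by colours -/
private theorem ord30 {V : Type} [Finite V] {k : ℕ} (cl : V → Fin k) :
    ∃ e : V ≃ Fin (Nat.card V), ∀ v w, cl v < cl w → e v < e w := by
  classical
  let e1 : V ≃ Fin (Nat.card V) := Finite.equivFin V
  let f : Fin (Nat.card V) → Fin k := fun i => cl (e1.symm i)
  refine ⟨e1.trans (Tuple.sort f).symm, fun v w h => ?_⟩
  by_contra hcon
  push Not at hcon
  have h1 := Tuple.monotone_sort f hcon
  have h2 : ∀ u : V, (f ∘ (Tuple.sort f)) ((e1.trans (Tuple.sort f).symm) u) = cl u := by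
    intro u
    simp [f]
  rw [h2, h2] at h1
  exact absurd h (not_lt.2 h1)

/-- the graph `G + K_{t-1}` is `K_t`-free -/
private theorem sumfree30 {V : Type} (G : SimpleGraph V) {t : ℕ} (ht : 3 ≤ t) (hfree : G.CliqueFree t) :
    (G ⊕g (⊤ : SimpleGraph (Fin (t - 1)))).CliqueFree t := by
  classical
  rw [cliqueFree_iff]
  refine ⟨fun f => ?_⟩
  by_cases h0 : ∃ v, f ⟨0, by omega⟩ = Sum.inl v
  · -- all the points are on the left side
    have h1 : ∀ i, ∃ v, f i = Sum.inl v := by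
      intro i
      obtain ⟨v, hv⟩ := h0
      by_cases hi : i = ⟨0, by omega⟩
      · exact ⟨v, by rw [hi, hv]⟩
      · have h2 : (G ⊕g (⊤ : SimpleGraph (Fin (t - 1)))).Adj (f i) (f ⟨0, by omega⟩) := f.toHom.map_adj hi
        rw [hv] at h2
        rcases hfi : f i with w | w
        · exact ⟨w, rfl⟩
        · rw [hfi] at h2
          simp at h2
    choose g hg using h1
    rw [cliqueFree_iff] at hfree
    refine hfree.false ⟨⟨g, fun {i j} hij => ?_⟩, fun i j hij => ?_⟩
    · have h2 : (G ⊕g (⊤ : SimpleGraph (Fin (t - 1)))).Adj (f i) (f j) := f.toHom.map_adj hij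
      rw [hg, hg, sum_adj_inl] at h2
      exact h2
    · apply f.injective
      show f i = f j
      rw [hg, hg, show g i = g j from hij]
  · -- all the points are on the right side
    have h1 : ∀ i, ∃ v, f i = Sum.inr v := by
      intro i
      rcases hf0 : f ⟨0, by omega⟩ with v | v
      · exact absurd ⟨v, hf0⟩ h0
      · by_cases hi : i = ⟨0, by omega⟩
        · exact ⟨v, by rw [hi, hf0]⟩
        · have h2 : (G ⊕g (⊤ : SimpleGraph (Fin (t - 1)))).Adj (f i) (f ⟨0, by omega⟩) := f.toHom.map_adj hi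
          rw [hf0] at h2
          rcases hfi : f i with w | w
          · rw [hfi] at h2
            simp at h2
          · exact ⟨w, rfl⟩
    choose g hg using h1
    have h2 : Function.Injective g := fun i j hij => by
      apply f.injective
      show f i = f j
      rw [hg, hg, hij]
    have h3 := Fintype.card_le_of_injective g h2
    rw [Fintype.card_fin, Fintype.card_fin] at h3
    omega

/-- the ordered pattern graph -/
private theorem patt30 {V : Type} [Finite V] (G : SimpleGraph V) {k t : ℕ} (ht : 3 ≤ t) (hfree : G.CliqueFree t)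
    (cl : V → Fin k) : ∃ (M : ℕ) (Q : SimpleGraph (Fin M)) (e : V → Fin M) (kq : Fin (t - 1) → Fin M),
      Q.CliqueFree t ∧ Function.Injective e ∧ (∀ v w, G.Adj v w → Q.Adj (e v) (e w)) ∧
      (∀ v w, cl v < cl w → e v < e w) ∧ StrictMono kq ∧ ∀ i j, i ≠ j → Q.Adj (kq i) (kq j) := by
  classical
  obtain ⟨e0, he0⟩ := ord30 cl
  let φ : V ⊕ Fin (t - 1) ≃ Fin (Nat.card V + (t - 1)) := (Equiv.sumCongr e0 (Equiv.refl _)).trans finSumFinEquiv
  let S := G ⊕g (⊤ : SimpleGraph (Fin (t - 1)))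
  refine ⟨Nat.card V + (t - 1), S.comap φ.symm, fun v => φ (Sum.inl v), fun l => φ (Sum.inr l), ?_, ?_, ?_, ?_, ?_, ?_⟩
  · exact (sumfree30 G ht hfree).comap ⟨(SimpleGraph.Iso.comap φ.symm S).toEmbedding.toCopy⟩
  · intro v w h
    exact Sum.inl_injective (φ.injective h)
  · intro v w h
    show S.Adj (φ.symm (φ (Sum.inl v))) (φ.symm (φ (Sum.inl w)))
    rw [φ.symm_apply_apply, φ.symm_apply_apply]
    exact sum_adj_inl.2 h
  · intro v w h
    have h1 := he0 v w h
    show finSumFinEquiv (Sum.inl (e0 v)) < finSumFinEquiv (Sum.inl (e0 w))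
    rw [finSumFinEquiv_apply_left, finSumFinEquiv_apply_left, Fin.lt_def, Fin.val_castAdd, Fin.val_castAdd]
    exact h1
  · intro i j h
    show finSumFinEquiv (Sum.inr i) < finSumFinEquiv (Sum.inr j)
    rw [finSumFinEquiv_apply_right, finSumFinEquiv_apply_right, Fin.lt_def, Fin.val_natAdd, Fin.val_natAdd]
    exact Nat.add_lt_add_left h _
  · intro i j h
    show S.Adj (φ.symm (φ (Sum.inr i))) (φ.symm (φ (Sum.inr j)))
    rw [φ.symm_apply_apply, φ.symm_apply_apply]
    exact sum_adj_inr.2 h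

theorem farr {V : Type} [Finite V] (G : SimpleGraph V) (hG : G.Connected) (a b : V) (hab : G.Adj a b) {t : ℕ} (ht : 3 ≤ t)
    (hfree : G.CliqueFree t) : ∃ (U : Type) (_ : Finite U) (H : SimpleGraph U) (N : ℕ) (P : SimpleGraph (Fin N)) (L : ℕ),
      ¬ G ⊑ H ∧ P.CliqueFree t ∧ Arrows (FRed G a b H t N L ⊔ FBlue V U P t L) G (⊤ : SimpleGraph (Fin t)) := by
  classical
  have : Nonempty V := hG.nonempty
  obtain ⟨k, ⟨cl⟩, hk⟩ := chi30 G
  -- the helper graph
  have hX : (G.induce {v | cl v ≠ 0}).Colorable k := by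
    refine ⟨SimpleGraph.Coloring.mk (fun v => (cl v.1).pred v.2) ?_⟩
    intro v w hvw h
    have h1 : cl v.1 = cl w.1 := Fin.pred_inj.1 h
    exact cl.valid hvw h1
  obtain ⟨U, hU, H, hGH, hHr⟩ := exists_helper (G.induce {v | cl v ≠ 0}) G k (2 ^ (k + 1)) hX hk Nat.one_le_two_pow
  -- the pattern graph
  obtain ⟨M, Q, e, kq, hQ, he, heQ, hecl, hkq, hkQ⟩ := patt30 G ht hfree (fun v => cl v)
  let κ : Type := (V ⊕ U → V ⊕ U → Prop) × (V ⊕ U → Prop) × (V ⊕ U → Prop)
  let κ' : Type := V ⊕ U → V ⊕ U → Prop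
  have : Finite κ := inferInstance
  have : Finite κ' := inferInstance
  have : Nonempty κ := inferInstance
  have : Nonempty κ' := inferInstance
  obtain ⟨N, P, hP, hPr⟩ := nr ht Q hQ κ κ'
  obtain ⟨L, hL⟩ := reg N (Nat.card V) κ κ'
  refine ⟨U, hU, H, N, P, L, hGH, hP, fun R hR => ?_⟩
  by_cases hall : ∀ i j : Fin t, i ≠ j → ¬ R.Adj (Sum.inl i) (Sum.inl j)
  · right
    refine ⟨⟨⟨Sum.inl, fun {i j} hij => ⟨Or.inr hij, hall i j hij⟩⟩, Sum.inl_injective⟩⟩
  -- the red edge
  obtain ⟨i, j, hij, hRij⟩ : ∃ i j : Fin t, i < j ∧ R.Adj (Sum.inl i) (Sum.inl j) := by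
    push Not at hall
    obtain ⟨i, j, hij, h⟩ := hall
    rcases lt_or_gt_of_ne hij with h1 | h1
    · exact ⟨i, j, h1, h⟩
    · exact ⟨j, i, h1, h.symm⟩
  let J : Pr t := ⟨(i, j), hij⟩
  let z : Fin N → Fin L → V ⊕ U → Fin t ⊕ (Pr t × Fin N × Fin L × (V ⊕ U)) := fun p m x => Sum.inr (J, p, m, x)
  let cv : Fin N → Fin L → κ := fun p m =>
    (fun x y => R.Adj (z p m x) (z p m y), fun x => R.Adj (Sum.inl i) (z p m x), fun x => R.Adj (Sum.inl j) (z p m x))
  let ce : Fin N → Fin L → Fin N → Fin L → κ' := fun p m p' m' x y => R.Adj (z p m x) (z p' m' y)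
  obtain ⟨g, hg, hgv, hge⟩ := hL cv ce
  have hn : 0 < Nat.card V := Nat.card_pos
  let o : Fin (Nat.card V) := ⟨0, hn⟩
  obtain ⟨f, hf, hfQ, hfv, hfe⟩ := hPr (fun p => cv p (g p o)) (fun p p' => ce p (g p o) p' (g p' o))
  -- the typed colouring
  have hM : ∃ q0 : Fin M, ∃ q1 : Fin M, q0 < q1 ∧ Q.Adj q0 q1 := by
    have h0 : (⟨0, by omega⟩ : Fin (t - 1)) < ⟨1, by omega⟩ := by
      rw [Fin.lt_def]
      exact Nat.zero_lt_one
    exact ⟨kq ⟨0, by omega⟩, kq ⟨1, by omega⟩, hkq h0, hkQ _ _ h0.ne⟩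
  obtain ⟨q0, q1, hq01, hQ01⟩ := hM
  let σ : SimpleGraph (V ⊕ U) := Inn G a b H ⊓ R.comap (z (f q0) (g (f q0) o))
  let mat : V ⊕ U → V ⊕ U → Prop := ce (f q0) (g (f q0) o) (f q1) (g (f q1) o)
  let μ : V ⊕ U → Prop := fun x => R.Adj (Sum.inl i) (z (f q0) (g (f q0) o) x) ∧ Mk U G a b a x
  let ν : V ⊕ U → Prop := fun x => R.Adj (Sum.inl j) (z (f q0) (g (f q0) o) x) ∧ Mk U G a b b x
  -- the constancy statements
  have c1 : ∀ q m, cv (f q) (g (f q) m) = cv (f q0) (g (f q0) o) := by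
    intro q m
    rw [hgv (f q) m o]
    exact hfv q q0
  have c2 : ∀ q q' m n, q < q' → Q.Adj q q' → ce (f q) (g (f q) m) (f q') (g (f q') n) = mat := by
    intro q q' m n h h'
    rw [hge (f q) (f q') (hf h) m o n o]
    exact hfe q q' q0 q1 h h' hq01 hQ01
  have c1a : ∀ q m x y, R.Adj (z (f q) (g (f q) m) x) (z (f q) (g (f q) m) y) ↔
      R.Adj (z (f q0) (g (f q0) o) x) (z (f q0) (g (f q0) o) y) := by
    intro q m x y
    have := congrFun (congrFun (congrArg Prod.fst (c1 q m)) x) y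
    exact iff_of_eq this
  have c1b : ∀ q m x, R.Adj (Sum.inl i) (z (f q) (g (f q) m) x) ↔ R.Adj (Sum.inl i) (z (f q0) (g (f q0) o) x) := by
    intro q m x
    have := congrFun (congrArg (fun p => p.2.1) (c1 q m)) x
    exact iff_of_eq this
  have c1c : ∀ q m x, R.Adj (Sum.inl j) (z (f q) (g (f q) m) x) ↔ R.Adj (Sum.inl j) (z (f q0) (g (f q0) o) x) := by
    intro q m x
    have := congrFun (congrArg (fun p => p.2.2) (c1 q m)) x
    exact iff_of_eq this
  have c2a : ∀ q q' m n x y, q < q' → Q.Adj q q' → (R.Adj (z (f q) (g (f q) m) x) (z (f q') (g (f q') n) y) ↔ mat x y) := by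
    intro q q' m n x y h h'
    exact iff_of_eq (congrFun (congrFun (c2 q q' m n h h') x) y)
  -- the map
  let ι : Bool ⊕ (Fin M × Fin (Nat.card V) × (V ⊕ U)) → Fin t ⊕ (Pr t × Fin N × Fin L × (V ⊕ U)) := fun p =>
    match p with
    | .inl false => Sum.inl i
    | .inl true => Sum.inl j
    | .inr (q, m, x) => z (f q) (g (f q) m) x
  have hι : Function.Injective ι := by
    rintro (u | ⟨q, m, x⟩) (u' | ⟨q', m', x'⟩) h
    · cases u <;> cases u'
      · rfl
      · exact absurd (Sum.inl_injective h) hij.ne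
      · exact absurd (Sum.inl_injective h).symm hij.ne
      · rfl
    · cases u <;> cases h
    · cases u' <;> cases h
    · have h1 : (J, f q, g (f q) m, x) = (J, f q', g (f q') m', x') := Sum.inr_injective h
      have h2 : f q = f q' := congrArg (fun p => p.2.1) h1
      have h3 : q = q' := hf.injective h2
      subst h3
      have h4 : g (f q) m = g (f q) m' := congrArg (fun p => p.2.2.1) h1
      have h5 : m = m' := hg _ h4
      subst h5
      have h6 : x = x' := congrArg (fun p => p.2.2.2) h1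
      rw [h6]
  have main := ana G a b hab H cl (fun v w h => cl.valid h) hHr ht le_rfl Q e he heQ hecl kq hkq hkQ σ inf_le_left mat μ ν
  rcases main with F | F
  · -- red copy
    obtain ⟨F⟩ := F
    left
    have hom : ∀ p p', (Typ (Nat.card V) Q σ mat μ ν True).Adj p p' → R.Adj (ι p) (ι p') := by
      have key1 : ∀ (u : Bool) q m x, (Typ (Nat.card V) Q σ mat μ ν True).Adj (Sum.inl u) (Sum.inr (q, m, x)) →
          R.Adj (ι (Sum.inl u)) (ι (Sum.inr (q, m, x))) := by
        intro u q m x h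
        rcases h with ⟨rfl, h⟩ | ⟨rfl, h⟩
        · exact (c1b q m x).2 h.1
        · exact (c1c q m x).2 h.1
      rintro (u | ⟨q, m, x⟩) (u' | ⟨q', m', x'⟩) h
      · have h1 : u ≠ u' := h.1
        cases u <;> cases u'
        · exact absurd rfl h1
        · exact hRij
        · exact hRij.symm
        · exact absurd rfl h1
      · exact key1 _ _ _ _ h
      · exact (key1 _ _ _ _ h.symm).symm
      · rcases h with ⟨rfl, rfl, h⟩ | ⟨h, ⟨h1, h2⟩ | ⟨h1, h2⟩⟩
        · exact (c1a q m x x').2 h.2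
        · exact (c2a q q' m m' x x' h1 h).2 h2
        · exact ((c2a q' q m' m x' x h1 h.symm).2 h2).symm
    exact ⟨⟨⟨fun v => ι (F v), fun {v w} h => hom _ _ (F.toHom.map_adj h)⟩, hι.comp F.injective⟩⟩
  · -- blue copy
    obtain ⟨F⟩ := F
    right
    have hom : ∀ p p', (Typ (Nat.card V) Q (Inn G a b H \ σ) (fun x y => ¬ mat x y)
        (fun x => Mk U G a b a x ∧ ¬ μ x) (fun x => Mk U G a b b x ∧ ¬ ν x) False).Adj p p' →
        ((FRed G a b H t N L ⊔ FBlue V U P t L) \ R).Adj (ι p) (ι p') := by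
      have key1 : ∀ (u : Bool) q m x, (Typ (Nat.card V) Q (Inn G a b H \ σ) (fun x y => ¬ mat x y)
        (fun x => Mk U G a b a x ∧ ¬ μ x) (fun x => Mk U G a b b x ∧ ¬ ν x) False).Adj (Sum.inl u) (Sum.inr (q, m, x)) →
          ((FRed G a b H t N L ⊔ FBlue V U P t L) \ R).Adj (ι (Sum.inl u)) (ι (Sum.inr (q, m, x))) := by
        intro u q m x h
        rcases h with ⟨rfl, h⟩ | ⟨rfl, h⟩
        · refine ⟨Or.inl (Or.inl ⟨rfl, h.1⟩), fun h1 => h.2 ⟨(c1b q m x).1 h1, h.1⟩⟩
        · refine ⟨Or.inl (Or.inr ⟨rfl, h.1⟩), fun h1 => h.2 ⟨(c1c q m x).1 h1, h.1⟩⟩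
      rintro (u | ⟨q, m, x⟩) (u' | ⟨q', m', x'⟩) h
      · exact h.2.elim
      · exact key1 _ _ _ _ h
      · exact (key1 _ _ _ _ h.symm).symm
      · rcases h with ⟨rfl, rfl, h⟩ | ⟨h, ⟨h1, h2⟩ | ⟨h1, h2⟩⟩
        · exact ⟨Or.inl ⟨rfl, rfl, rfl, h.1⟩, fun h1 => h.2 ⟨h.1, (c1a q m x x').1 h1⟩⟩
        · exact ⟨Or.inr ⟨rfl, hfQ _ _ h⟩, fun h3 => h2 ((c2a q q' m m' x x' h1 h).1 h3)⟩
        · exact ⟨Or.inr ⟨rfl, hfQ _ _ h⟩, fun h3 => h2 ((c2a q' q m' m x' x h1 h.symm).1 h3.symm)⟩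
    exact ⟨⟨⟨fun v => ι (F v), fun {v w} h => hom _ _ (F.toHom.map_adj h)⟩, hι.comp F.injective⟩⟩

end WC
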