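import Pool.Agent.Helper30.WC.Defs

/-!
# Block WC-FREF: the reference colouring (MP_722e70_co)

PROOF.  Take the red graph `R = FRed G a b H t N L`.  The blue graph `(FRed ⊔ FBlue) \ FRed` is contained in `FBlue`.
(1) `¬ G ⊑ FRed`.  Let `φ` be a copy.  `G` is connected with at least two vertices (`hab`), so every vertex has a neighbour.  If some `φ x` is
`inr (J, p, m, inr u)` then by connectedness all `φ y` are of this form with the same `J, p, m` (the neighbours in `FRed` of such a vertex are of this form), and `u` gives a copy of `G` in `H`: `hH`.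
Otherwise all `φ x` are `inl i` or `inr (J, p, m, inl y)`.  This gives a copy of `G` in `Am G a b α β` with `W = Fin t`, `I = Pr t × Fin N × Fin L`, `α (J, p, m) = J.1.1`,
`β (J, p, m) = J.1.2` (`α ≠ β` since `J.1.1 < J.1.2`): send `inl i ↦ inl i`, `inr (J, p, m, inl y) ↦ inr ((J, p, m), y)`.  Contradiction to `hA`.
(2) `¬ KPend t ⊑ FBlue`.  Let `φ` be a copy of `KPend t` (`Option (Fin t)`, `none` is adjacent to `some 0`), `t ≥ 3`.  If `φ (some 0) = inl i`: all neighbours in `FBlue` of `inl i` are
`inl j`, so all `φ (some j)` (adjacent to `some 0`, or equal) and `φ none` are in the range of `inl : Fin t → _`; `t + 1` different elements of a set with `t` elements.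
If `φ (some 0) = inr (J, p, m, x)`: all `φ (some j)` are `inr (J, p_j, _, _)` and `p_i`, `p_j` are adjacent in `P` for `i ≠ j`, so `{p_j}` is a clique with `t` points: `hP`.
-/

set_option autoImplicit false

namespace WC

open SimpleGraph WV

/-- forget the labels in `U` -/
private def h80_g {V U : Type} (a : V) {t N L : ℕ} :
    Fin t ⊕ (Pr t × Fin N × Fin L × (V ⊕ U)) → Fin t ⊕ ((Pr t × Fin N × Fin L) × V)
  | .inl i => .inl i
  | .inr (J, p, m, .inl y) => .inr ((J, p, m), y)
  | .inr (J, p, m, .inr _) => .inr ((J, p, m), a)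

private theorem h80_red {V U : Type} (G : SimpleGraph V) (hG : G.Connected) (a b : V)
    (hA : ∀ (W I : Type) (α β : I → W), (∀ i, α i ≠ β i) → ¬ G ⊑ Am G a b α β)
    (H : SimpleGraph U) (hH : ¬ G ⊑ H) {t N L : ℕ} : ¬ G ⊑ FRed G a b H t N L := by
  rintro ⟨φ⟩
  have hadj : ∀ {x y : V}, G.Adj x y → (FRed G a b H t N L).Adj (φ x) (φ y) := fun h =>
    φ.toHom.map_rel h
  have hinj : Function.Injective φ := φ.injective'
  by_cases hu : ∃ (x : V) (J : Pr t) (p : Fin N) (m : Fin L) (u : U), φ x = .inr (J, p, m, .inr u)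
  · obtain ⟨x, J, p, m, u, hx⟩ := hu
    have step : ∀ y z : V, G.Adj y z → (∃ u : U, φ y = .inr (J, p, m, .inr u)) →
        ∃ u : U, φ z = .inr (J, p, m, .inr u) := by
      rintro y z hyz ⟨u, hu⟩
      have h := hadj hyz
      rw [hu] at h
      rcases hz : φ z with i | ⟨J', p', m', v | u'⟩
      · rw [hz] at h
        rcases h with h | h
        · exact h.2.elim
        · exact h.2.elim
      · rw [hz] at h
        exact h.2.2.2.elim
      · rw [hz] at h
        obtain ⟨h1, h2, h3, -⟩ := h
        subst h1 h2 h3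
        exact ⟨u', rfl⟩
    have hall : ∀ z : V, ∃ u : U, φ z = .inr (J, p, m, .inr u) := by
      intro z
      obtain ⟨w⟩ := hG.preconnected x z
      have : ∀ (y z : V), G.Walk y z → (∃ u : U, φ y = .inr (J, p, m, .inr u)) →
          ∃ u : U, φ z = .inr (J, p, m, .inr u) := by
        intro y z w
        induction w with
        | nil => exact id
        | cons h _ ih => exact fun hy => ih (step _ _ h hy)
      exact this x z w ⟨u, hx⟩
    choose f hf using hall
    refine hH ⟨⟨⟨f, ?_⟩, ?_⟩⟩
    · intro y z hyz
      have h := hadj hyz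
      rw [hf y, hf z] at h
      exact h.2.2.2
    · intro y z hyz
      apply hinj
      change f y = f z at hyz
      rw [hf y, hf z, hyz]
  · push Not at hu
    refine hA (Fin t) (Pr t × Fin N × Fin L) (fun q => q.1.1.1) (fun q => q.1.1.2)
      (fun q => q.1.2.ne) ⟨⟨⟨fun x => h80_g a (φ x), ?_⟩, ?_⟩⟩
    · intro x y hxy
      have h := hadj hxy
      rcases hx : φ x with i | ⟨J, p, m, v | u⟩
      · rcases hy : φ y with i' | ⟨J', p', m', v' | u'⟩
        · rw [hx, hy] at h
          exact h.elim
        · rw [hx, hy] at h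
          change (i = J'.1.1 ∧ _) ∨ (i = J'.1.2 ∧ _) at h
          rcases h with ⟨h1, h2, h3, h4⟩ | ⟨h1, h2, h3, h4⟩
          · exact ⟨h2, h3, Or.inl ⟨h1, h4⟩⟩
          · exact ⟨h2, h3, Or.inr ⟨h1, h4⟩⟩
        · exact absurd hy (hu _ _ _ _ _)
      · rcases hy : φ y with i' | ⟨J', p', m', v' | u'⟩
        · rw [hx, hy] at h
          change (i' = J.1.1 ∧ _) ∨ (i' = J.1.2 ∧ _) at h
          rcases h with ⟨h1, h2, h3, h4⟩ | ⟨h1, h2, h3, h4⟩
          · exact ⟨h2, h3, Or.inl ⟨h1, h4⟩⟩
          · exact ⟨h2, h3, Or.inr ⟨h1, h4⟩⟩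
        · rw [hx, hy] at h
          obtain ⟨h1, h2, h3, h4, h5, h6, h7, h8⟩ := h
          exact ⟨by rw [h1, h2, h3], h4, h5, h6, h7, h8⟩
        · exact absurd hy (hu _ _ _ _ _)
      · exact absurd hx (hu _ _ _ _ _)
    · intro x y hxy
      apply hinj
      change h80_g a (φ x) = h80_g a (φ y) at hxy
      rcases hx : φ x with i | ⟨J, p, m, v | u⟩
      · rcases hy : φ y with i' | ⟨J', p', m', v' | u'⟩
        · rw [hx, hy] at hxy
          exact congrArg Sum.inl (Sum.inl.inj hxy)
        · rw [hx, hy] at hxy
          exact Sum.inl_ne_inr hxy |>.elim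
        · exact absurd hy (hu _ _ _ _ _)
      · rcases hy : φ y with i' | ⟨J', p', m', v' | u'⟩
        · rw [hx, hy] at hxy
          exact Sum.inr_ne_inl hxy |>.elim
        · rw [hx, hy] at hxy
          have h := Sum.inr.inj hxy
          simp only [Prod.mk.injEq] at h
          obtain ⟨⟨h1, h2, h3⟩, h4⟩ := h
          rw [h1, h2, h3, h4]
        · exact absurd hy (hu _ _ _ _ _)
      · exact absurd hx (hu _ _ _ _ _)

private theorem h80_blue {V U : Type} {t N : ℕ} (ht : 3 ≤ t) (P : SimpleGraph (Fin N))
    (hP : P.CliqueFree t) (L : ℕ) : ¬ KPend t ⊑ FBlue V U P t L := by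
  rintro ⟨φ⟩
  have hadj : ∀ {x y : Option (Fin t)}, (KPend t).Adj x y →
      (FBlue V U P t L).Adj (φ x) (φ y) := fun h => φ.toHom.map_rel h
  have hinj : Function.Injective φ := φ.injective'
  let z : Fin t := ⟨0, by omega⟩
  rcases hz : φ (some z) with i | ⟨J, p, m, x⟩
  · have hall : ∀ y : Option (Fin t), ∃ j : Fin t, φ y = .inl j := by
      intro y
      by_cases hy : y = some z
      · exact ⟨i, by rw [hy, hz]⟩
      · have h : (KPend t).Adj (some z) y := by
          cases y with
          | none => exact (rfl : z.val = 0)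
          | some j => exact fun h => hy (by rw [h])
        have h' := hadj h
        rw [hz] at h'
        rcases hw : φ y with j | ⟨J, p, m, x⟩
        · exact ⟨j, rfl⟩
        · rw [hw] at h'
          exact h'.elim
    choose f hf using hall
    have hfi : Function.Injective f := by
      intro y y' h
      apply hinj
      rw [hf y, hf y', h]
    have hc := Fintype.card_le_of_injective f hfi
    simp at hc
  · have hall : ∀ j : Fin t, ∃ (q : Fin N) (m' : Fin L) (x' : V ⊕ U),
        φ (some j) = .inr (J, q, m', x') := by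
      intro j
      by_cases hj : j = z
      · exact ⟨p, m, x, by rw [hj, hz]⟩
      · have h' := hadj (x := some z) (y := some j) (fun h => hj h.symm)
        rw [hz] at h'
        rcases hw : φ (some j) with i' | ⟨J', p', m', x'⟩
        · rw [hw] at h'
          exact h'.elim
        · rw [hw] at h'
          obtain ⟨h1, -⟩ := h'
          subst h1
          exact ⟨p', m', x', rfl⟩
    choose f m' x' hf using hall
    have hP' : ∀ i j : Fin t, i ≠ j → P.Adj (f i) (f j) := by
      intro i j hij
      have h' := hadj (x := some i) (y := some j) hij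
      rw [hf i, hf j] at h'
      exact h'.2
    have hfi : Function.Injective f := by
      intro i j hij
      by_contra h
      have := hP' i j h
      rw [hij] at this
      exact P.loopless.irrefl _ this
    let F : (⊤ : SimpleGraph (Fin t)) ↪g P :=
      { toFun := f
        inj' := hfi
        map_rel_iff' := by
          intro i j
          constructor
          · intro h hij
            subst hij
            exact P.loopless.irrefl _ h
          · exact fun h => hP' i j h }
    exact SimpleGraph.IsContained.not_cliqueFree ⟨F.toCopy⟩ hP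

theorem fref {V U : Type} [Finite V] [Finite U] (G : SimpleGraph V) (hG : G.Connected) (a b : V) (hab : G.Adj a b)
    (hA : ∀ (W I : Type) (α β : I → W), (∀ i, α i ≠ β i) → ¬ G ⊑ Am G a b α β) (H : SimpleGraph U) (hH : ¬ G ⊑ H)
    {t N : ℕ} (ht : 3 ≤ t) (P : SimpleGraph (Fin N)) (hP : P.CliqueFree t) (L : ℕ) :
    ¬ Arrows (FRed G a b H t N L ⊔ FBlue V U P t L) G (KPend t) := by
  intro h
  rcases h (FRed G a b H t N L) le_sup_left with h | h
  · exact h80_red G hG a b hA H hH h
  · refine h80_blue ht P hP L (h.trans (IsContained.of_le ?_))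
    intro x y hxy
    rw [SimpleGraph.sdiff_adj, SimpleGraph.sup_adj] at hxy
    rcases hxy with ⟨h1 | h1, h2⟩
    · exact (h2 h1).elim
    · exact h1

end WC
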