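import Mathlib

/-!
# Block WC-HYP: hypergraphs which are locally hyperforests and not `q`-colourable (MP_722e70_co)

PROOF (Nesetril-Rodl amalgamation).  Property `L(n)` of a finite set `E` of finite sets: every nonempty `F ⊆ E` with `F.card ≤ n` satisfies
`1 + ∑ (|e| - 1) ≤ |⋃ F|`.  Induction on `n`, for all `N` and `q` (the theorem for `n`).
`n = 0, 1`: `L(1)` is trivial (`e.card = N ≥ 1`); take all `N`-subsets of a set with `(N - 1) * q + 1` points (pigeonhole).  (`L(0)` is weaker.)
Step `n → n + 1`, `n ≥ 1`.  Let `a = (N - 1) * q + 1`.  An `a`-partite system is a finite type `U` with a map `π : U → Fin a` and a set `E` of `N`-subsets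
of `U` on which `π` is injective.  We construct systems `P_0, ..., P_a` with `L(n + 1)` such that: for every colouring `c : U → Fin q` such that `c` is ...
precisely: (C_i) for every `c : U → Fin q` there is an injective map `j : U_0 → U` from `P_0` with `π ∘ j = π`, mapping edges to edges, such that for every
`k < i` (`k : Fin a`) `c ∘ j` is constant on the points of `P_0` in part `k`... 
It is convenient to use the following chain: (D_i) for every `c : U_i → Fin q` there is an injective map `j : U_{i-1} → U_i` compatible with `π`, mapping edges to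
edges, such that `c ∘ j` is constant on the part `i - 1` of `P_{i-1}`.
 `P_0`: points `(s, x)`, `s` an `N`-subset of `Fin a`, `x ∈ s`, `π (s, x) = x`; edges `{(s, x) | x ∈ s}`, pairwise disjoint, so `L` for all `n`.
 `P_{i+1}` from `P_i`: let `X` be the part `i` of `P_i` (points with `π = i`).  If `X` is empty put `P_{i+1} = P_i`.  Otherwise let `(Y, E_Y)` be given by the induction
 hypothesis for `n`, `|X|` and `q`: an `|X|`-uniform hypergraph with `L(n)` which is not `q`-colourable.  For `e ∈ E_Y` fix a bijection `b_e : X ≃ e`.  The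
 points of `P_{i+1}`: the points of `Y` (in part `i`) and the points `(e, u)`, `e ∈ E_Y`, `u ∈ U_i \ X`.  The copy `j_e : U_i → U_{i+1}` is `b_e` on `X` and
 `u ↦ (e, u)` outside.  Edges: the images of the edges of `P_i` under all `j_e`.
 (D) holds: a colouring of `U_{i+1}` restricted to `Y` is constant on some `e ∈ E_Y`.
 `L(n + 1)`: let `F` be a nonempty set of at most `n + 1` edges, by induction on `|F|`.  An edge `f` of the copy `j_e` has at most one point in `Y`
 (as `π` is injective on edges), and if `N ≥ 2` it belongs to exactly one copy (`N = 1` is trivial: `L` says that the number of points of a union is at least 1; treat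
 `N = 1` separately: one point, one edge).  Let `F_e` be the edges of `F` in copy `e`, `M = {e | F_e ≠ ∅}`.
 If `|M| = 1`: `L(n + 1)` of `P_i`, transported by the injective `j_e`.
 If `|M| ≥ 2` and some `F_e = {f}`: `f` meets the other edges of `F` in at most one point, so `|⋃ F| ≥ |⋃ (F \ {f})| + N - 1`; induction (`F \ {f}` is nonempty).
 Otherwise `|F_e| ≥ 2` for `e ∈ M`, so `2 |M| ≤ n + 1`, `|M| ≤ n`.  `L(n)` for `E_Y` and `M`: `1 + ∑_{e ∈ M} (|e| - 1) ≤ |⋃ M|`.  Let `Y_e = Y ∩ ⋃ F_e ⊆ e`.
 For a family of sets, `∑ |e| - |⋃ e| = ∑_y (deg y - 1)^+` is monotone in the sets: `∑_{e ∈ M} |Y_e| - |⋃ Y_e| ≤ ∑_{e ∈ M} |e| - |⋃ M| ≤ |M| - 1` (as integers).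
 `|⋃ F| = ∑_{e ∈ M} |(⋃ F_e) \ Y| + |⋃ Y_e| ≥ ∑ (|⋃ F_e| - |Y_e|) + ∑ |Y_e| - (|M| - 1) ≥ ∑_{e ∈ M} (1 + ∑_{f ∈ F_e} (N - 1)) - |M| + 1 = 1 + ∑_{f ∈ F} (N - 1)`.
Conclusion: take `E` = the edges of `P_a`.  Given `c : U_a → Fin q`, use (D_a), (D_{a-1}), ..., (D_1) to get an injective `j : U_0 → U_a`, mapping edges to edges, such that `c ∘ j` is
constant on every part of `P_0` (composition: constancy on part `i - 1` of `P_{i-1}` passes to the later embeddings since these respect the parts).  `a = (N - 1) q + 1` parts: by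
pigeonhole there is an `N`-subset `s` of `Fin a` of parts with the same colour (an empty part is impossible if `N ≤ a`, which holds), and the edge `{(s, x) | x ∈ s}` is
monochromatic.
It may be more convenient to work with edges as maps or with `Finset (Finset U)` and `Finset.image`; any proof of the statement is fine.
-/

set_option autoImplicit false

namespace WC

private def LL94 (n N : ℕ) {U I : Type} [DecidableEq U] (ed : I → Finset U) : Prop :=
  ∀ F : Finset I, F.Nonempty → F.card ≤ n → 1 + F.card * (N - 1) ≤ (F.biUnion ed).card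

private theorem mono94 {J Y : Type} [DecidableEq J] [DecidableEq Y] (A B : J → Finset Y)
    (hAB : ∀ e, A e ⊆ B e) (M : Finset J) :
    ∑ e ∈ M, (A e).card + (M.biUnion B).card ≤ ∑ e ∈ M, (B e).card + (M.biUnion A).card := by
  induction M using Finset.induction_on with
  | empty => simp
  | insert e M he ih =>
    rw [Finset.sum_insert he, Finset.sum_insert he, Finset.biUnion_insert, Finset.biUnion_insert]
    have h1 := Finset.card_union_add_card_inter (B e) (M.biUnion B)
    have h2 := Finset.card_union_add_card_inter (A e) (M.biUnion A)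
    have h3 : (A e ∩ M.biUnion A).card ≤ (B e ∩ M.biUnion B).card := by
      apply Finset.card_le_card
      intro y hy
      rw [Finset.mem_inter, Finset.mem_biUnion] at hy ⊢
      obtain ⟨hy1, f, hf, hy2⟩ := hy
      exact ⟨hAB e hy1, f, hf, hAB f hy2⟩
    omega

private theorem amalg94 {U I J Y : Type} [DecidableEq U] [DecidableEq I] [DecidableEq J]
    [DecidableEq Y] {a : ℕ} (N n c : ℕ) (π : U → Fin a) (k : Fin a) (ed : I → Finset U)
    (crd : ∀ i, (ed i).card = N + 1)
    (inj : ∀ i, ∀ x ∈ ed i, ∀ y ∈ ed i, π x = π y → x = y)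
    (edY : J → Finset Y) (crdY : ∀ e, (edY e).card = c + 1) (j : J → U → Y ⊕ (J × U))
    (j1 : ∀ e u, π u = k → ∃ y ∈ edY e, j e u = Sum.inl y)
    (j2 : ∀ e u, π u ≠ k → j e u = Sum.inr (e, u)) (j3 : ∀ e, Function.Injective (j e))
    (hL : LL94 (n + 1) (N + 1) ed) (hY : LL94 n (c + 1) edY) :
    LL94 (n + 1) (N + 1) (fun p : J × I => (ed p.2).image (j p.1)) := by
  intro F
  induction hm : F.card using Nat.strong_induction_on generalizing F with
  | _ m ih =>
  intro hne hle
  simp only [Nat.add_sub_cancel] at *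
  have hinl : ∀ (e : J) (u : U) (y : Y), j e u = Sum.inl y → π u = k := by
    intro e u y h
    by_contra hk
    rw [j2 e u hk] at h
    exact absurd h (by simp)
  by_cases h1 : ∃ p ∈ F, (∀ q ∈ F, q.1 = p.1 → q = p) ∧ ∃ q ∈ F, q.1 ≠ p.1
  · -- a copy with a single edge
    obtain ⟨p, hp, hp1, q, hq, hqp⟩ := h1
    have hcard : (F.erase p).card = m - 1 := by rw [Finset.card_erase_of_mem hp, hm]
    have hmpos : 0 < m := by rw [← hm]; exact Finset.card_pos.mpr ⟨p, hp⟩
    have hne' : (F.erase p).Nonempty := ⟨q, Finset.mem_erase.mpr ⟨fun h => hqp (by rw [h]), hq⟩⟩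
    have hI := ih (m - 1) (by omega) (F.erase p) hcard hne' (by omega)
    have hF : F.biUnion (fun p : J × I => (ed p.2).image (j p.1)) =
        (ed p.2).image (j p.1) ∪ (F.erase p).biUnion (fun p : J × I => (ed p.2).image (j p.1)) := by
      conv_lhs => rw [← Finset.insert_erase hp]
      rw [Finset.biUnion_insert]
    have hcu := Finset.card_union_add_card_inter ((ed p.2).image (j p.1))
      ((F.erase p).biUnion (fun p : J × I => (ed p.2).image (j p.1)))
    have hci : ((ed p.2).image (j p.1) ∩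
        (F.erase p).biUnion (fun p : J × I => (ed p.2).image (j p.1))).card ≤ 1 := by
      rw [Finset.card_le_one]
      have key : ∀ z ∈ (ed p.2).image (j p.1) ∩
          (F.erase p).biUnion (fun p : J × I => (ed p.2).image (j p.1)),
          ∃ u ∈ ed p.2, π u = k ∧ j p.1 u = z := by
        intro z hz
        rw [Finset.mem_inter, Finset.mem_image, Finset.mem_biUnion] at hz
        obtain ⟨⟨u, hu, huz⟩, r, hr, hz2⟩ := hz
        rw [Finset.mem_image] at hz2
        obtain ⟨v, hv, hvz⟩ := hz2
        rw [Finset.mem_erase] at hr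
        refine ⟨u, hu, ?_, huz⟩
        by_contra hk
        rw [j2 p.1 u hk] at huz
        by_cases hkv : π v = k
        · obtain ⟨y, -, hy⟩ := j1 r.1 v hkv
          rw [hy, ← huz] at hvz
          exact absurd hvz (by simp)
        · rw [j2 r.1 v hkv, ← huz] at hvz
          have h5 : r.1 = p.1 := (Prod.mk.inj (Sum.inr.inj hvz)).1
          exact hr.1 (hp1 r hr.2 h5)
      intro z hz z' hz'
      obtain ⟨u, hu, huk, huz⟩ := key z hz
      obtain ⟨u', hu', huk', huz'⟩ := key z' hz'
      rw [← huz, ← huz', inj p.2 u hu u' hu' (huk.trans huk'.symm)]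
    have hce : ((ed p.2).image (j p.1)).card = N + 1 := by
      rw [Finset.card_image_of_injective _ (j3 p.1), crd]
    rw [hF]
    rw [hce] at hcu
    have h9 : m * N = (m - 1) * N + N := by
      obtain ⟨m', rfl⟩ : ∃ m', m = m' + 1 := ⟨m - 1, by omega⟩
      simp only [Nat.add_sub_cancel]; ring
    rw [h9]
    omega
  by_cases h2 : ∃ e, ∀ q ∈ F, q.1 = e
  · -- one copy
    obtain ⟨e, he⟩ := h2
    have hinjF : Set.InjOn Prod.snd (F : Set (J × I)) := by
      intro p hp q hq h
      exact Prod.ext ((he p hp).trans (he q hq).symm) h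
    have hc1 : (F.image Prod.snd).card = m := by rw [Finset.card_image_of_injOn hinjF, hm]
    have h3 := hL (F.image Prod.snd) (hne.image _) (by omega)
    have h4 : F.biUnion (fun p : J × I => (ed p.2).image (j p.1)) =
        ((F.image Prod.snd).biUnion ed).image (j e) := by
      ext z
      simp only [Finset.mem_biUnion, Finset.mem_image]
      constructor
      · rintro ⟨p, hp, u, hu, rfl⟩
        exact ⟨u, ⟨p.2, ⟨p, hp, rfl⟩, hu⟩, by rw [he p hp]⟩
      · rintro ⟨u, ⟨i, ⟨p, hp, rfl⟩, hu⟩, rfl⟩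
        exact ⟨p, hp, u, hu, by rw [he p hp]⟩
    rw [h4, Finset.card_image_of_injective _ (j3 e)]
    rw [hc1] at h3
    simpa using h3
  -- general case
  push Not at h1 h2
  have h5 : ∀ p ∈ F, ∃ q ∈ F, q.1 = p.1 ∧ q ≠ p := by
    intro p hp
    by_contra hcon
    push Not at hcon
    obtain ⟨q, hq, hqe⟩ := h2 p.1
    exact hqe (h1 p hp hcon q hq)
  set M := F.image Prod.fst with hM
  have hfib : ∀ e ∈ M, 2 ≤ (F.filter (fun p => p.1 = e)).card := by
    intro e he
    rw [hM, Finset.mem_image] at he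
    obtain ⟨p, hp, rfl⟩ := he
    obtain ⟨q, hq, hq1, hq2⟩ := h5 p hp
    have : 1 < (F.filter (fun r => r.1 = p.1)).card := by
      rw [Finset.one_lt_card]
      exact ⟨p, Finset.mem_filter.mpr ⟨hp, rfl⟩, q, Finset.mem_filter.mpr ⟨hq, hq1⟩, hq2.symm⟩
    exact this
  have hsum : F.card = ∑ e ∈ M, (F.filter (fun p => p.1 = e)).card :=
    Finset.card_eq_sum_card_image Prod.fst F
  have hM2 : M.card * 2 ≤ m := by
    rw [← hm, hsum]
    exact Finset.card_nsmul_le_sum _ _ _ hfib
  have hMne : M.Nonempty := hne.image _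
  have hMpos : 0 < M.card := hMne.card_pos
  have hYM := hY M hMne (by omega)
  simp only [Nat.add_sub_cancel] at hYM
  let Fe : J → Finset I := fun e => (F.filter (fun p => p.1 = e)).image Prod.snd
  have hFec : ∀ e, (Fe e).card = (F.filter (fun p => p.1 = e)).card := by
    intro e
    apply Finset.card_image_of_injOn
    intro p hp q hq h
    rw [Finset.mem_coe, Finset.mem_filter] at hp hq
    exact Prod.ext (hp.2.trans hq.2.symm) h
  let G : J → Finset U := fun e => (Fe e).biUnion ed
  have hG : ∀ e ∈ M, 1 + (Fe e).card * N ≤ (G e).card := by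
    intro e he
    have h6 := hfib e he
    have h7 : (F.filter (fun p => p.1 = e)).card ≤ F.card := Finset.card_filter_le _ _
    have h8 := hL (Fe e) (by rw [← Finset.card_pos, hFec]; omega) (by rw [hFec]; omega)
    simpa using h8
  let A : J → Finset Y := fun e => (edY e).filter (fun y => Sum.inl y ∈ (G e).image (j e))
  let Z : J → Finset U := fun e => (G e).filter (fun u => π u ≠ k)
  have hGle : ∀ e, (G e).card ≤ (A e).card + (Z e).card := by
    intro e
    have h6 : (G e).image (j e) ⊆ (A e).image Sum.inl ∪ (Z e).image (fun u => Sum.inr (e, u)) := by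
      intro z hz
      have hz0 := hz
      rw [Finset.mem_image] at hz
      obtain ⟨u, hu, rfl⟩ := hz
      rw [Finset.mem_union, Finset.mem_image, Finset.mem_image]
      by_cases hk : π u = k
      · obtain ⟨y, hy, hy2⟩ := j1 e u hk
        left
        exact ⟨y, Finset.mem_filter.mpr ⟨hy, by rw [← hy2]; exact hz0⟩, hy2.symm⟩
      · right
        exact ⟨u, Finset.mem_filter.mpr ⟨hu, hk⟩, (j2 e u hk).symm⟩
    calc (G e).card = ((G e).image (j e)).card := (Finset.card_image_of_injective _ (j3 e)).symm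
      _ ≤ _ := Finset.card_le_card h6
      _ ≤ _ := Finset.card_union_le _ _
      _ ≤ _ := Nat.add_le_add Finset.card_image_le Finset.card_image_le
  have hmono := mono94 A edY (fun e => Finset.filter_subset _ _) M
  have hsB : ∑ e ∈ M, (edY e).card = M.card * (c + 1) := by
    rw [Finset.sum_congr rfl (fun e _ => crdY e), Finset.sum_const, smul_eq_mul]
  -- lower bound for the union
  have hW : (M.biUnion A).image Sum.inl ∪ M.biUnion (fun e => (Z e).image (fun u => Sum.inr (e, u)))
      ⊆ F.biUnion (fun p : J × I => (ed p.2).image (j p.1)) := by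
    have hGF : ∀ e, ∀ u ∈ G e, j e u ∈ F.biUnion (fun p : J × I => (ed p.2).image (j p.1)) := by
      intro e u hu
      simp only [G, Fe, Finset.mem_biUnion, Finset.mem_image, Finset.mem_filter] at hu
      obtain ⟨i, ⟨p, ⟨hp, hpe⟩, hpi⟩, hui⟩ := hu
      rw [Finset.mem_biUnion]
      refine ⟨p, hp, ?_⟩
      rw [Finset.mem_image]
      exact ⟨u, by rw [hpi]; exact hui, by rw [hpe]⟩
    intro z hz
    rw [Finset.mem_union] at hz
    rcases hz with hz | hz
    · rw [Finset.mem_image] at hz
      obtain ⟨y, hy, rfl⟩ := hz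
      rw [Finset.mem_biUnion] at hy
      obtain ⟨e, he, hy⟩ := hy
      have h6 := (Finset.mem_filter.mp hy).2
      rw [Finset.mem_image] at h6
      obtain ⟨u, hu, hu2⟩ := h6
      rw [← hu2]
      exact hGF e u hu
    · rw [Finset.mem_biUnion] at hz
      obtain ⟨e, he, hz⟩ := hz
      rw [Finset.mem_image] at hz
      obtain ⟨u, hu, rfl⟩ := hz
      have h6 := Finset.mem_filter.mp hu
      have h7 := hGF e u h6.1
      rw [j2 e u h6.2] at h7
      exact h7
  have hWc := Finset.card_le_card hW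
  have hdis : Disjoint ((M.biUnion A).image (Sum.inl : Y → Y ⊕ (J × U)))
      (M.biUnion (fun e => (Z e).image (fun u => Sum.inr (e, u)))) := by
    rw [Finset.disjoint_left]
    intro z hz hz'
    rw [Finset.mem_image] at hz
    obtain ⟨y, -, rfl⟩ := hz
    simp at hz'
  rw [Finset.card_union_of_disjoint hdis, Finset.card_image_of_injective _ Sum.inl_injective] at hWc
  have hZc : (M.biUnion (fun e => (Z e).image (fun u => (Sum.inr (e, u) : Y ⊕ (J × U))))).card =
      ∑ e ∈ M, (Z e).card := by
    rw [Finset.card_biUnion]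
    · apply Finset.sum_congr rfl
      intro e _
      apply Finset.card_image_of_injective
      intro u v h
      exact (Prod.mk.inj (Sum.inr.inj h)).2
    · intro e _ e' _ hee
      change Disjoint _ _
      rw [Finset.disjoint_left]
      intro z hz hz'
      rw [Finset.mem_image] at hz hz'
      obtain ⟨u, -, rfl⟩ := hz
      obtain ⟨v, -, hv⟩ := hz'
      exact hee (Prod.mk.inj (Sum.inr.inj hv)).1.symm
  rw [hZc] at hWc
  have hGs : ∑ e ∈ M, (G e).card ≤ ∑ e ∈ M, (A e).card + ∑ e ∈ M, (Z e).card := by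
    rw [← Finset.sum_add_distrib]
    exact Finset.sum_le_sum (fun e _ => hGle e)
  have hGs2 : M.card + m * N ≤ ∑ e ∈ M, (G e).card := by
    have h6 : M.card + m * N = ∑ e ∈ M, (1 + (Fe e).card * N) := by
      rw [Finset.sum_add_distrib, Finset.sum_const, smul_eq_mul, mul_one, ← Finset.sum_mul,
        Finset.sum_congr rfl (fun e _ => hFec e), ← hsum, hm]
    rw [h6]
    exact Finset.sum_le_sum hG
  rw [hsB] at hmono
  have h10 : M.card * (c + 1) = M.card * c + M.card := by ring
  rw [h10] at hmono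
  omega

private structure Sys94 (a N : ℕ) : Type 1 where
  U : Type
  I : Type
  fU : Fintype U
  fI : Fintype I
  dU : DecidableEq U
  dI : DecidableEq I
  π : U → Fin a
  ed : I → Finset U
  crd : ∀ i, (ed i).card = N + 1
  inj : ∀ i, ∀ x ∈ ed i, ∀ y ∈ ed i, π x = π y → x = y

attribute [local instance] Sys94.fU Sys94.fI Sys94.dU Sys94.dI

private def HH94 (n : ℕ) : Prop := ∀ c q : ℕ, 1 ≤ q → ∃ (Y J : Type) (_ : Fintype Y) (_ : Fintype J)
  (_ : DecidableEq Y) (_ : DecidableEq J) (edY : J → Finset Y), (∀ e, (edY e).card = c + 1) ∧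
    LL94 n (c + 1) edY ∧ ∀ f : Y → Fin q, ∃ e, ∃ m, ∀ y ∈ edY e, f y = m

private theorem step94 {a N n q : ℕ} (hq : 1 ≤ q) (H : HH94 n) (P : Sys94 a N)
    (hP : LL94 (n + 1) (N + 1) P.ed) (k : Fin a) :
    ∃ Q : Sys94 a N, LL94 (n + 1) (N + 1) Q.ed ∧ ∀ f : Q.U → Fin q, ∃ (j : P.U → Q.U) (φ : P.I → Q.I),
      (∀ u, Q.π (j u) = P.π u) ∧ (∀ i, Q.ed (φ i) = (P.ed i).image j) ∧
      ∃ m, ∀ u, P.π u = k → f (j u) = m := by
  by_cases hX : ∃ u, P.π u = k
  · have hXc : 0 < Fintype.card {u // P.π u = k} :=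
      Fintype.card_pos_iff.mpr ⟨⟨hX.choose, hX.choose_spec⟩⟩
    obtain ⟨c, hc⟩ : ∃ c, Fintype.card {u // P.π u = k} = c + 1 := ⟨_, (Nat.succ_pred_eq_of_pos hXc).symm⟩
    obtain ⟨Y, J, fY, fJ, dY, dJ, edY, crdY, hYL, hYc⟩ := H c q hq
    have hb : ∀ e : J, Nonempty ({u // P.π u = k} ≃ {y // y ∈ edY e}) := by
      intro e
      apply Fintype.card_eq.mp
      rw [hc, Fintype.card_coe, crdY e]
    let b : ∀ e : J, {u // P.π u = k} ≃ {y // y ∈ edY e} := fun e => (hb e).some
    let j : J → P.U → Y ⊕ (J × P.U) := fun e u =>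
      if h : P.π u = k then Sum.inl (b e ⟨u, h⟩).1 else Sum.inr (e, u)
    have j1' : ∀ e u (h : P.π u = k), j e u = Sum.inl (b e ⟨u, h⟩).1 := by
      intro e u h
      simp only [j, dif_pos h]
    have j1 : ∀ e u, P.π u = k → ∃ y ∈ edY e, j e u = Sum.inl y := fun e u h =>
      ⟨_, (b e ⟨u, h⟩).2, j1' e u h⟩
    have j2 : ∀ e u, P.π u ≠ k → j e u = Sum.inr (e, u) := by
      intro e u h
      simp only [j, dif_neg h]
    have j3 : ∀ e, Function.Injective (j e) := by
      intro e u v huv
      by_cases hu : P.π u = k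
      · by_cases hv : P.π v = k
        · rw [j1' e u hu, j1' e v hv] at huv
          have h1 := (b e).injective (Subtype.ext (Sum.inl.inj huv))
          exact congrArg Subtype.val h1
        · rw [j1' e u hu, j2 e v hv] at huv
          exact absurd huv (by simp)
      · by_cases hv : P.π v = k
        · rw [j2 e u hu, j1' e v hv] at huv
          exact absurd huv (by simp)
        · rw [j2 e u hu, j2 e v hv] at huv
          exact (Prod.mk.inj (Sum.inr.inj huv)).2
    let π' : Y ⊕ (J × P.U) → Fin a := fun z => match z with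
      | Sum.inl _ => k
      | Sum.inr p => P.π p.2
    have hπ : ∀ e u, π' (j e u) = P.π u := by
      intro e u
      by_cases hu : P.π u = k
      · rw [j1' e u hu, hu]
      · rw [j2 e u hu]
    let Q : Sys94 a N :=
      { U := Y ⊕ (J × P.U)
        I := J × P.I
        fU := inferInstance
        fI := inferInstance
        dU := inferInstance
        dI := inferInstance
        π := π'
        ed := fun p => (P.ed p.2).image (j p.1)
        crd := fun p => by rw [Finset.card_image_of_injective _ (j3 p.1), P.crd]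
        inj := by
          intro p x hx y hy hxy
          rw [Finset.mem_image] at hx hy
          obtain ⟨u, hu, rfl⟩ := hx
          obtain ⟨v, hv, rfl⟩ := hy
          rw [hπ, hπ] at hxy
          rw [P.inj p.2 u hu v hv hxy] }
    refine ⟨Q, ?_, ?_⟩
    · exact amalg94 N n c P.π k P.ed P.crd P.inj edY crdY j j1 j2 j3 hP hYL
    · intro f
      obtain ⟨e, m, hm⟩ := hYc (fun y => f (Sum.inl y))
      refine ⟨j e, fun i => (e, i), hπ e, fun i => rfl, m, ?_⟩
      intro u hu
      rw [j1' e u hu]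
      exact hm _ (b e ⟨u, hu⟩).2
  · push Not at hX
    refine ⟨P, hP, fun f => ⟨id, id, fun _ => rfl, fun i => by simp, ⟨0, hq⟩, ?_⟩⟩
    intro u hu
    exact absurd hu (hX u)

private theorem iter94 {a N n q : ℕ} (hq : 1 ≤ q) (H : HH94 n) (P : Sys94 a N)
    (hP : LL94 (n + 1) (N + 1) P.ed) (t : ℕ) :
    ∃ Q : Sys94 a N, LL94 (n + 1) (N + 1) Q.ed ∧ ∀ f : Q.U → Fin q, ∃ (j : P.U → Q.U) (φ : P.I → Q.I),
      (∀ u, Q.π (j u) = P.π u) ∧ (∀ i, Q.ed (φ i) = (P.ed i).image j) ∧
      ∀ k : Fin a, k.1 < t → ∃ m, ∀ u, P.π u = k → f (j u) = m := by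
  induction t with
  | zero =>
    exact ⟨P, hP, fun f => ⟨id, id, fun _ => rfl, fun i => by simp, fun k hk => absurd hk (by omega)⟩⟩
  | succ t ih =>
    obtain ⟨Q, hQ, hQc⟩ := ih
    by_cases ht : t < a
    · obtain ⟨R, hR, hRc⟩ := step94 hq H Q hQ ⟨t, ht⟩
      refine ⟨R, hR, fun f => ?_⟩
      obtain ⟨j1, φ1, hπ1, hφ1, m1, hm1⟩ := hRc f
      obtain ⟨j0, φ0, hπ0, hφ0, hm0⟩ := hQc (fun u => f (j1 u))
      refine ⟨fun u => j1 (j0 u), fun i => φ1 (φ0 i), fun u => by rw [hπ1, hπ0], fun i => ?_, ?_⟩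
      · rw [hφ1, hφ0, Finset.image_image]
        rfl
      · intro k hk
        by_cases hkt : k.1 < t
        · exact hm0 k hkt
        · have hkt' : k = ⟨t, ht⟩ := Fin.ext (by simp; omega)
          refine ⟨m1, fun u hu => hm1 (j0 u) ?_⟩
          rw [hπ0, hu, hkt']
    · refine ⟨Q, hQ, fun f => ?_⟩
      obtain ⟨j0, φ0, hπ0, hφ0, hm0⟩ := hQc f
      exact ⟨j0, φ0, hπ0, hφ0, fun k hk => hm0 k (by have := k.2; omega)⟩

/-- The starting system: pairwise disjoint edges, one for every set of `N + 1` parts. -/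
private def P0_94 (a N : ℕ) : Sys94 a N where
  U := {s : Finset (Fin a) // s.card = N + 1} × Fin a
  I := {s : Finset (Fin a) // s.card = N + 1}
  fU := inferInstance
  fI := inferInstance
  dU := inferInstance
  dI := inferInstance
  π := Prod.snd
  ed := fun s => s.1.image (fun x => (s, x))
  crd := fun s => by
    rw [Finset.card_image_of_injective _ (fun x y h => (Prod.mk.inj h).2), s.2]
  inj := by
    intro s x hx y hy hxy
    rw [Finset.mem_image] at hx hy
    obtain ⟨u, hu, rfl⟩ := hx
    obtain ⟨v, hv, rfl⟩ := hy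
    simp only at hxy
    rw [hxy]

private theorem memP0_94 {a N : ℕ} (s : {s : Finset (Fin a) // s.card = N + 1})
    (z : {s : Finset (Fin a) // s.card = N + 1} × Fin a) (h : z ∈ s.1.image (fun x => (s, x))) :
    z.1 = s ∧ z.2 ∈ s.1 := by
  rw [Finset.mem_image] at h
  obtain ⟨u, hu, rfl⟩ := h
  exact ⟨rfl, hu⟩

private theorem P0L_94 (a N n : ℕ) : LL94 n (N + 1) (P0_94 a N).ed := by
  intro F hF _
  have h1 : (F.biUnion (P0_94 a N).ed).card = ∑ s ∈ F, ((P0_94 a N).ed s).card := by
    apply Finset.card_biUnion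
    intro s _ t _ hst
    change Disjoint _ _
    rw [Finset.disjoint_left]
    intro z hz hz'
    exact hst ((memP0_94 s z hz).1.symm.trans (memP0_94 t z hz').1)
  rw [h1, Finset.sum_congr rfl (fun s _ => (P0_94 a N).crd s), Finset.sum_const, smul_eq_mul]
  have h2 := hF.card_pos
  have h3 : F.card * (N + 1) = F.card * N + F.card := by ring
  rw [h3]
  simp only [Nat.add_sub_cancel]
  omega

private theorem HH94_all (n : ℕ) : HH94 n := by
  induction n with
  | zero =>
    intro c q hq
    refine ⟨Fin (c * q + 1), {s : Finset (Fin (c * q + 1)) // s.card = c + 1}, inferInstance,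
      inferInstance, inferInstance, inferInstance, fun s => s.1, fun s => s.2, ?_, ?_⟩
    · intro F hF h0
      have := hF.card_pos
      omega
    · intro f
      obtain ⟨m, hm⟩ := Fintype.exists_lt_card_fiber_of_mul_lt_card f (n := c)
        (by rw [Fintype.card_fin, Fintype.card_fin, mul_comm]; omega)
      obtain ⟨s, hs, hsc⟩ := Finset.exists_subset_card_eq (Nat.succ_le_of_lt hm)
      exact ⟨⟨s, hsc⟩, m, fun y hy => (Finset.mem_filter.mp (hs hy)).2⟩
  | succ n ih =>
    intro c q hq
    obtain ⟨Q, hQ, hQc⟩ := iter94 (a := c * q + 1) (N := c) hq ih (P0_94 (c * q + 1) c)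
      (P0L_94 _ _ _) (c * q + 1)
    refine ⟨Q.U, Q.I, inferInstance, inferInstance, inferInstance, inferInstance, Q.ed, Q.crd, hQ, ?_⟩
    intro f
    obtain ⟨j, φ, hπ, hφ, hm⟩ := hQc f
    choose g hg using fun k : Fin (c * q + 1) => hm k k.2
    obtain ⟨m, hm'⟩ := Fintype.exists_lt_card_fiber_of_mul_lt_card g (n := c)
      (by rw [Fintype.card_fin, Fintype.card_fin, mul_comm]; omega)
    obtain ⟨s, hs, hsc⟩ := Finset.exists_subset_card_eq (Nat.succ_le_of_lt hm')
    refine ⟨φ ⟨s, hsc⟩, m, ?_⟩
    intro y hy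
    rw [hφ, Finset.mem_image] at hy
    obtain ⟨u, hu, rfl⟩ := hy
    have hx := (memP0_94 ⟨s, hsc⟩ u hu).2
    have h1 := (Finset.mem_filter.mp (hs hx)).2
    rw [← h1]
    exact hg _ _ rfl

theorem hyp (N q n : ℕ) (hN : 1 ≤ N) (hq : 1 ≤ q) : ∃ (U : Type) (_ : Fintype U) (_ : DecidableEq U) (E : Finset (Finset U)),
    (∀ e ∈ E, e.card = N) ∧
    (∀ F ⊆ E, F.Nonempty → F.card ≤ n → 1 + ∑ e ∈ F, (e.card - 1) ≤ (F.biUnion id).card) ∧
    ∀ c : U → Fin q, ∃ e ∈ E, ∃ m, ∀ x ∈ e, c x = m := by
  obtain ⟨N, rfl⟩ : ∃ N', N = N' + 1 := ⟨N - 1, by omega⟩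
  obtain ⟨U, I, fU, fI, dU, dI, ed, hcrd, hL, hc⟩ := HH94_all n N q hq
  refine ⟨U, fU, dU, Finset.univ.image ed, ?_, ?_, ?_⟩
  · intro e he
    rw [Finset.mem_image] at he
    obtain ⟨i, -, rfl⟩ := he
    exact hcrd i
  · intro F hF hne hle
    have h1 : ∀ e ∈ F, ∃ i, ed i = e := by
      intro e he
      have := hF he
      rw [Finset.mem_image] at this
      obtain ⟨i, -, hi⟩ := this
      exact ⟨i, hi⟩
    obtain ⟨e0, he0⟩ := hne
    obtain ⟨i0, -⟩ := h1 e0 he0
    have : Nonempty I := ⟨i0⟩
    choose! g hg using h1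
    have hginj : Set.InjOn g (F : Set (Finset U)) := by
      intro e he e' he' h
      rw [← hg e he, ← hg e' he', h]
    have hc1 : (F.image g).card = F.card := Finset.card_image_of_injOn hginj
    have h2 := hL (F.image g) ⟨g e0, Finset.mem_image_of_mem _ he0⟩ (by omega)
    have h3 : (F.image g).biUnion ed = F.biUnion id := by
      ext x
      simp only [Finset.mem_biUnion, Finset.mem_image]
      constructor
      · rintro ⟨i, ⟨e, he, rfl⟩, hx⟩
        exact ⟨e, he, by rw [hg e he] at hx; exact hx⟩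
      · rintro ⟨e, he, hx⟩
        exact ⟨g e, ⟨e, he, rfl⟩, by rw [hg e he]; exact hx⟩
    rw [h3, hc1] at h2
    have h4 : ∑ e ∈ F, (e.card - 1) = F.card * N := by
      rw [Finset.sum_congr rfl (g := fun _ => N), Finset.sum_const, smul_eq_mul]
      intro e he
      rw [← hg e he, hcrd]
      simp
    rw [h4]
    simpa using h2
  · intro c
    obtain ⟨e, m, hm⟩ := hc c
    exact ⟨ed e, Finset.mem_image_of_mem _ (Finset.mem_univ _), m, hm⟩

end WC
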