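import Pool.Agent.Helper30.WC.C4b
import Pool.Agent.Helper30.WC.FREF
import Pool.Agent.Helper30.WC.FARR

/-! MP_722e70_co: connected graphs with a cycle -/

set_option autoImplicit false

namespace WC

open SimpleGraph WV

/-- `G` connected with a cycle, `K_t` not in `G`, `t ≥ 3`: `(G, K_t)` and `(G, K_t . K_2)` are not Ramsey equivalent. -/
theorem cyc {V : Type} [Finite V] (G : SimpleGraph V) (hG : G.Connected) (h : ¬ G.IsAcyclic) {t : ℕ} (ht : 3 ≤ t)
    (hfree : G.CliqueFree t) : ¬ REquiv G (⊤ : SimpleGraph (Fin t)) G (KPend t) := by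
  intro hE
  obtain ⟨a, b, hab, hA⟩ := exists_edge G hG h
  obtain ⟨U, hU, H, N, P, L, hH, hP, hF⟩ := farr G hG a b hab ht hfree
  exact fref G hG a b hab hA H hH ht P hP L ((hE _ _).1 hF)

end WC
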