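import Pool.Agent.Helper30.WC.Defs

/-!
# Graphs with a good edge are not woven (MP_722e70_co)
-/

set_option autoImplicit false

namespace WC

open SimpleGraph WV

/-- the copy of `G` through the petal `i` -/
private theorem petal_hom30 {V I : Type} (G : SimpleGraph V) (a b : V) (hab : G.Adj a b) (i : I) :
    ∃ f : Copy G (Am G a b (fun _ : I => false) (fun _ : I => true) ⊔
      SimpleGraph.edge (Sum.inl false : Bool ⊕ (I × V)) (Sum.inl true)),
      f a = Sum.inl false ∧ f b = Sum.inl true ∧ ∀ x, x ≠ a → x ≠ b → f x = Sum.inr (i, x) := by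
  classical
  have hne : a ≠ b := hab.ne
  let φ : V → Bool ⊕ (I × V) := fun x => if x = a then Sum.inl false else if x = b then Sum.inl true else Sum.inr (i, x)
  have h1 : φ a = Sum.inl false := if_pos rfl
  have h2 : φ b = Sum.inl true := by
    show (if b = a then _ else _) = _
    rw [if_neg hne.symm, if_pos rfl]
  have h3 : ∀ x, x ≠ a → x ≠ b → φ x = Sum.inr (i, x) := by
    intro x hxa hxb
    show (if x = a then _ else _) = _
    rw [if_neg hxa, if_neg hxb]
  have hinj : Function.Injective φ := by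
    intro x y hxy
    by_cases hxa : x = a
    · by_cases hya : y = a
      · rw [hxa, hya]
      · by_cases hyb : y = b
        · rw [hxa, hyb, h1, h2] at hxy
          cases hxy
        · rw [hxa, h1, h3 y hya hyb] at hxy
          cases hxy
    · by_cases hxb : x = b
      · by_cases hya : y = a
        · rw [hxb, hya, h1, h2] at hxy
          cases hxy
        · by_cases hyb : y = b
          · rw [hxb, hyb]
          · rw [hxb, h2, h3 y hya hyb] at hxy
            cases hxy
      · by_cases hya : y = a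
        · rw [hya, h1, h3 x hxa hxb] at hxy
          cases hxy
        · by_cases hyb : y = b
          · rw [hyb, h2, h3 x hxa hxb] at hxy
            cases hxy
          · rw [h3 x hxa hxb, h3 y hya hyb] at hxy
            have := Sum.inr_injective hxy
            exact congrArg Prod.snd this
  have key : ∀ x y, G.Adj x y → x ≠ a → x ≠ b → (Am G a b (fun _ : I => false) (fun _ : I => true) ⊔
      SimpleGraph.edge (Sum.inl false : Bool ⊕ (I × V)) (Sum.inl true)).Adj (φ x) (φ y) := by
    intro x y hxy hxa hxb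
    left
    rw [h3 x hxa hxb]
    by_cases hya : y = a
    · subst hya
      rw [h1]
      exact ⟨hxa, hxb, Or.inl ⟨rfl, hxy.symm⟩⟩
    · by_cases hyb : y = b
      · subst hyb
        rw [h2]
        exact ⟨hxa, hxb, Or.inr ⟨rfl, hxy.symm⟩⟩
      · rw [h3 y hya hyb]
        exact ⟨rfl, hxy, hxa, hxb, hya, hyb⟩
  have hom : ∀ x y, G.Adj x y → (Am G a b (fun _ : I => false) (fun _ : I => true) ⊔
      SimpleGraph.edge (Sum.inl false : Bool ⊕ (I × V)) (Sum.inl true)).Adj (φ x) (φ y) := by
    intro x y hxy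
    by_cases hx : x ≠ a ∧ x ≠ b
    · exact key x y hxy hx.1 hx.2
    · by_cases hy : y ≠ a ∧ y ≠ b
      · exact (key y x hxy.symm hy.1 hy.2).symm
      · have hx' : x = a ∨ x = b := by
          by_contra h
          push Not at h
          exact hx h
        have hy' : y = a ∨ y = b := by
          by_contra h
          push Not at h
          exact hy h
        right
        rcases hx' with rfl | rfl
        · rcases hy' with rfl | rfl
          · exact absurd rfl hxy.ne
          · rw [h1, h2, SimpleGraph.edge_adj]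
            exact ⟨Or.inl ⟨rfl, rfl⟩, fun h => by cases h⟩
        · rcases hy' with rfl | rfl
          · rw [h1, h2, SimpleGraph.edge_adj]
            exact ⟨Or.inr ⟨rfl, rfl⟩, fun h => by cases h⟩
          · exact absurd rfl hxy.ne
  exact ⟨⟨⟨φ, fun {x y} h => hom x y h⟩, hinj⟩, h1, h2, h3⟩

theorem not_woven_of_edge {V : Type} [Finite V] (G : SimpleGraph V) (a b : V) (hab : G.Adj a b)
    (hA : ∀ (W I : Type) (α β : I → W), (∀ i, α i ≠ β i) → ¬ G ⊑ Am G a b α β) : ¬ Woven G := by
  classical
  rintro ⟨k, hk⟩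
  let I := Fin (2 * k + 1)
  let F : SimpleGraph (Bool ⊕ (I × V)) := Am G a b (fun _ : I => false) (fun _ : I => true) ⊔
    SimpleGraph.edge (Sum.inl false : Bool ⊕ (I × V)) (Sum.inl true)
  have huv : F.Adj (Sum.inl false) (Sum.inl true) := by
    right
    rw [SimpleGraph.edge_adj]
    exact ⟨Or.inl ⟨rfl, rfl⟩, fun h => by cases h⟩
  obtain ⟨X, Y, hX, hY, hXe, hYe, hcov⟩ := hk (Bool ⊕ (I × V)) F (Sum.inl false) (Sum.inl true) huv (by
    intro f
    by_contra hcon
    push Not at hcon
    apply hA Bool I (fun _ => false) (fun _ => true) (fun i h => by cases h)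
    refine ⟨⟨⟨f, fun {x y} hxy => ?_⟩, f.injective⟩⟩
    have h1 : F.Adj (f x) (f y) := f.toHom.map_adj hxy
    rcases h1 with h1 | h1
    · exact h1
    · exfalso
      rw [SimpleGraph.edge_adj] at h1
      apply hcon x y hxy
      rcases h1.1 with ⟨h2, h3⟩ | ⟨h2, h3⟩
      · rw [h2, h3]
      · rw [h2, h3, Sym2.eq_swap])
  -- the petals which are hit
  let pet : Sym2 (Bool ⊕ (I × V)) → Set I := fun e => {i | ∃ x, (Sum.inr (i, x) : Bool ⊕ (I × V)) ∈ e}
  have hone : ∀ e ∈ X ∪ Y, ∃ i : I, ∀ j ∈ pet e, j = i := by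
    intro e he
    have h1 : e ∈ F.edgeSet ∧ e ≠ s(Sum.inl false, Sum.inl true) ∧ ∃ w : Bool, (Sum.inl w : Bool ⊕ (I × V)) ∈ e := by
      rcases Finset.mem_union.1 he with h | h
      · exact ⟨(hXe e h).1, (hXe e h).2.1, false, (hXe e h).2.2⟩
      · exact ⟨(hYe e h).1, (hYe e h).2.1, true, (hYe e h).2.2⟩
    obtain ⟨-, -, w, hw⟩ := h1
    obtain ⟨y, rfl⟩ := Sym2.mem_iff_exists.1 hw
    rcases y with y | ⟨i, y⟩
    · refine ⟨⟨0, by omega⟩, ?_⟩
      rintro j ⟨x, hx⟩
      rcases Sym2.mem_iff.1 hx with h | h <;> cases h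
    · refine ⟨i, ?_⟩
      rintro j ⟨x, hx⟩
      rcases Sym2.mem_iff.1 hx with h | h
      · cases h
      · have := Sum.inr_injective h
        exact congrArg Prod.fst this
  choose! g hg using hone
  have hcard : ((X ∪ Y).image g).card < Fintype.card I := by
    have h1 : ((X ∪ Y).image g).card ≤ (X ∪ Y).card := Finset.card_image_le
    have h2 : (X ∪ Y).card ≤ X.card + Y.card := Finset.card_union_le X Y
    rw [Fintype.card_fin]
    omega
  obtain ⟨i, hi⟩ : ∃ i : I, i ∉ (X ∪ Y).image g := by
    by_contra hcon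
    push Not at hcon
    have : (X ∪ Y).image g = Finset.univ := Finset.eq_univ_iff_forall.2 hcon
    rw [this, Finset.card_univ] at hcard
    exact lt_irrefl _ hcard
  obtain ⟨f, hfa, hfb, hfx⟩ := petal_hom30 (I := I) G a b hab i
  obtain ⟨x, y, hxy, hmem⟩ := hcov f
  have hmem' : s(f x, f y) ∈ X ∪ Y := Finset.mem_union.2 hmem
  have hbad : ∀ z, z ≠ a → z ≠ b → f z ∉ s(f x, f y) := by
    intro z hza hzb hz
    rw [hfx z hza hzb] at hz
    have h1 := hg _ hmem' i ⟨z, hz⟩
    exact hi (Finset.mem_image.2 ⟨_, hmem', h1.symm⟩)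
  have hx : x = a ∨ x = b := by
    by_contra h
    push Not at h
    exact hbad x h.1 h.2 (Sym2.mem_mk_left _ _)
  have hy : y = a ∨ y = b := by
    by_contra h
    push Not at h
    exact hbad y h.1 h.2 (Sym2.mem_mk_right _ _)
  have hne : s(f x, f y) ≠ s(Sum.inl false, Sum.inl true) := by
    rcases hmem with h | h
    · exact (hXe _ h).2.1
    · exact (hYe _ h).2.1
  apply hne
  rcases hx with rfl | rfl
  · rcases hy with rfl | rfl
    · exact absurd rfl hxy.ne
    · rw [hfa, hfb]
  · rcases hy with rfl | rfl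
    · rw [hfa, hfb, Sym2.eq_swap]
    · exact absurd rfl hxy.ne

end WC
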